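import Pool.Agent.SubBall.Iterate

/-! The second moment of a coordinate of the endpoint. -/

namespace Pool.Agent.SubBall

open Finset
open Classical

theorem card_abs_tail {S V : Type} [Fintype S] [Inhabited S] [AddCommGroup V] {vec : S → V}
    {φ : V →+ ℤ} (hφ : Good vec φ) (N : ℕ) {l x : ℝ} (hl : 0 < l) (hl1 : l ≤ 1) :
    (((saws vec N).filter (fun w => x ≤ |(φ (pos vec w N) : ℝ)|)).card : ℝ) ≤
      2 * (Real.exp (AA S N + N * (l * psi vec φ l) - l * x) * (saws vec N).card) := by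
  obtain ⟨ν, hν⟩ := hφ.refl
  have h1 : (((saws vec N).filter (fun w => x ≤ (φ (pos vec w N) : ℝ))).card : ℝ) *
      Real.exp (l * x) ≤ Z vec φ N l := by
    unfold Z
    rw [← nsmul_eq_mul, ← Finset.sum_const]
    calc ∑ w ∈ (saws vec N).filter (fun w => x ≤ (φ (pos vec w N) : ℝ)), Real.exp (l * x)
        ≤ ∑ w ∈ (saws vec N).filter (fun w => x ≤ (φ (pos vec w N) : ℝ)),
            Real.exp (l * (φ (pos vec w N) : ℝ)) := by
          refine Finset.sum_le_sum ?_
          intro w hw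
          apply Real.exp_le_exp.2
          exact mul_le_mul_of_nonneg_left (Finset.mem_filter.1 hw).2 hl.le
      _ ≤ _ := Finset.sum_le_sum_of_subset_of_nonneg (Finset.filter_subset _ _)
          (fun _ _ _ => (Real.exp_pos _).le)
  have h1' : (((saws vec N).filter (fun w => x ≤ - (φ (pos vec w N) : ℝ))).card : ℝ) *
      Real.exp (l * x) ≤ Z vec φ N l := by
    rw [← Z_sym φ ν]
    unfold Z
    rw [← nsmul_eq_mul, ← Finset.sum_const]
    calc ∑ w ∈ (saws vec N).filter (fun w => x ≤ - (φ (pos vec w N) : ℝ)), Real.exp (l * x)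
        ≤ ∑ w ∈ (saws vec N).filter (fun w => x ≤ - (φ (pos vec w N) : ℝ)),
            Real.exp (l * (((φ.comp ν.L) (pos vec w N) : ℤ) : ℝ)) := by
          refine Finset.sum_le_sum ?_
          intro w hw
          apply Real.exp_le_exp.2
          have h2 : ((φ.comp ν.L) (pos vec w N) : ℤ) = - φ (pos vec w N) := hν _
          rw [h2]
          push_cast
          exact mul_le_mul_of_nonneg_left (Finset.mem_filter.1 hw).2 hl.le
      _ ≤ _ := Finset.sum_le_sum_of_subset_of_nonneg (Finset.filter_subset _ _)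
          (fun _ _ _ => (Real.exp_pos _).le)
  have h2 := hφ.Z_le_exp N hl.le hl1
  rw [Lf_eq (vec := vec) (φ := φ) hl] at h2
  have h3 := exp_Lf_le_Z hφ.e N (le_refl (0 : ℝ))
  rw [card_saws_eq] at h3
  have key : ∀ a : ℝ, a * Real.exp (l * x) ≤ Z vec φ N l →
      a ≤ Real.exp (AA S N + N * (l * psi vec φ l) - l * x) * (saws vec N).card := by
    intro a ha
    have h4 := le_trans ha h2
    rw [← le_div_iff₀ (Real.exp_pos _), ← Real.exp_sub] at h4
    refine le_trans h4 ?_
    refine le_trans ?_ (mul_le_mul_of_nonneg_left h3 (Real.exp_pos _).le)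
    rw [← Real.exp_add]
    apply Real.exp_le_exp.2
    apply le_of_eq
    ring
  have h5 := key _ h1
  have h6 := key _ h1'
  have h7 : ((saws vec N).filter (fun w => x ≤ |(φ (pos vec w N) : ℝ)|)).card ≤
      ((saws vec N).filter (fun w => x ≤ (φ (pos vec w N) : ℝ))).card +
      ((saws vec N).filter (fun w => x ≤ - (φ (pos vec w N) : ℝ))).card := by
    refine le_trans (Finset.card_le_card ?_) (Finset.card_union_le _ _)
    intro w hw
    rw [Finset.mem_filter] at hw
    rw [Finset.mem_union, Finset.mem_filter, Finset.mem_filter]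
    rcases le_abs.1 hw.2 with h | h
    · exact Or.inl ⟨hw.1, h⟩
    · exact Or.inr ⟨hw.1, h⟩
  have h8 : (((saws vec N).filter (fun w => x ≤ |(φ (pos vec w N) : ℝ)|)).card : ℝ) ≤
      ((saws vec N).filter (fun w => x ≤ (φ (pos vec w N) : ℝ))).card +
      ((saws vec N).filter (fun w => x ≤ - (φ (pos vec w N) : ℝ))).card := by
    exact_mod_cast h7
  linarith

theorem sq_sum_le {S V : Type} [Fintype S] [Inhabited S] [AddCommGroup V] {vec : S → V}
    {φ : V →+ ℤ} (hφ : Good vec φ) (N : ℕ) {l x : ℝ} (hl : 0 < l) (hl1 : l ≤ 1) :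
    ∑ w ∈ saws vec N, (φ (pos vec w N) : ℝ) ^ 2 ≤
      (x ^ 2 + (N : ℝ) ^ 2 * (2 * Real.exp (AA S N + N * (l * psi vec φ l) - l * x))) *
        (saws vec N).card := by
  have h1 : ∀ w ∈ saws vec N, (φ (pos vec w N) : ℝ) ^ 2 ≤ x ^ 2 +
      (if x ≤ |(φ (pos vec w N) : ℝ)| then (N : ℝ) ^ 2 else 0) := by
    intro w _
    by_cases h : x ≤ |(φ (pos vec w N) : ℝ)|
    · rw [if_pos h]
      have h2 : |(φ (pos vec w N) : ℝ)| ≤ N := by
        have := hφ.lip.abs_pos_le w N
        exact_mod_cast this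
      have h3 : (φ (pos vec w N) : ℝ) ^ 2 ≤ (N : ℝ) ^ 2 := by
        rw [← sq_abs]
        exact pow_le_pow_left₀ (abs_nonneg _) h2 2
      have := sq_nonneg x
      linarith
    · rw [if_neg h, add_zero, ← sq_abs]
      exact pow_le_pow_left₀ (abs_nonneg _) (not_le.1 h).le 2
  refine le_trans (Finset.sum_le_sum h1) ?_
  rw [Finset.sum_add_distrib, ← Finset.sum_filter, Finset.sum_const, Finset.sum_const,
    nsmul_eq_mul, nsmul_eq_mul]
  have h2 := card_abs_tail hφ N hl hl1 (x := x)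
  have h3 := mul_le_mul_of_nonneg_right h2 (sq_nonneg (N : ℝ))
  linarith

theorem second_moment_large (m : ℕ) : ∃ C R : ℝ, 1 ≤ R ∧ 0 ≤ C ∧ ∀ N : ℕ, ∀ r : ℝ,
    R ≤ r → (N : ℝ) = r ^ 16 →
    (∑ w ∈ saws (stv m) N, (cy m (pos (stv m) w N) : ℝ) ^ 2) * Real.log N ^ cexp ≤
      C * (N : ℝ) ^ 2 * (saws (stv m) N).card := by
  obtain ⟨C₁, t₀, ht₀, hC₁⟩ := psi_decay m
  have hKS := KS_pos (S := St m)
  refine ⟨16 * |C₁| + 96, max (Real.exp t₀) (2 * KS (St m)), ?_, by positivity, ?_⟩
  · refine le_trans ?_ (le_max_left _ _)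
    exact Real.one_le_exp (by linarith)
  · intro N r hr hN
    have hr1 : Real.exp t₀ ≤ r := le_trans (le_max_left _ _) hr
    have hr2 : 2 * KS (St m) ≤ r := le_trans (le_max_right _ _) hr
    have hr3 : 2 ≤ r := by
      have h1 := Real.add_one_le_exp t₀
      linarith
    have hr0 : 0 < r := by linarith
    have hlogr : t₀ ≤ Real.log r := by
      rw [Real.le_log_iff_exp_le hr0]
      exact hr1
    set t : ℝ := 2 * Real.log r with ht
    have htt : t₀ ≤ t := by linarith
    have hl : Real.exp (-t) = 1 / r ^ 2 := by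
      rw [ht, Real.exp_neg, one_div]
      congr 1
      rw [show 2 * Real.log r = ((2 : ℕ) : ℝ) * Real.log r by norm_num, Real.exp_nat_mul,
        Real.exp_log hr0]
    have hlogN : Real.log N = 8 * t := by
      rw [hN, Real.log_pow, ht]
      push_cast
      ring
    set ψ := psi (stv m) (cy m) (Real.exp (-t)) with hψ
    have hψ0 : 0 ≤ ψ := (good_cy m).psi_nonneg (Real.exp_pos _)
    have hψt := hC₁ t htt
    rw [← hψ] at hψt
    have hNpos : 0 < N := by
      have : (0 : ℝ) < N := by rw [hN]; positivity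
      exact_mod_cast this
    have hAA : AA (St m) N ≤ KS (St m) * r ^ 12 := by
      have h1 := AA_le (S := St m) (show 1 ≤ N by omega)
      have h2 : (N : ℝ) ^ ((3 : ℝ) / 4) = r ^ 12 := by
        rw [hN, ← Real.rpow_natCast, ← Real.rpow_natCast, ← Real.rpow_mul hr0.le]
        norm_num
      rw [h2] at h1
      exact h1
    have h1 := sq_sum_le (good_cy m) N (l := Real.exp (-t)) (x := (ψ + 1 / r) * N)
      (Real.exp_pos _) (by rw [Real.exp_le_one_iff]; linarith)
    rw [← hψ, hl] at h1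
    have h2 : AA (St m) N + N * (1 / r ^ 2 * ψ) - 1 / r ^ 2 * ((ψ + 1 / r) * N) ≤ - (r / 2) := by
      have h3 : N * (1 / r ^ 2 * ψ) - 1 / r ^ 2 * ((ψ + 1 / r) * (N : ℝ)) = - r ^ 13 := by
        rw [hN]
        field_simp
        ring
      have h4 : KS (St m) * r ^ 12 ≤ r ^ 13 / 2 := by
        have h5 : r ^ 13 = r * r ^ 12 := by ring
        rw [h5]
        have h6 : 0 < r ^ 12 := by positivity
        nlinarith
      have h7 : r ≤ r ^ 13 := by
        calc r = r ^ 1 := (pow_one r).symm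
          _ ≤ r ^ 13 := pow_le_pow_right₀ (by linarith) (by norm_num)
      linarith
    have h3 : Real.exp (AA (St m) N + N * (1 / r ^ 2 * ψ) - 1 / r ^ 2 * ((ψ + 1 / r) * N)) ≤
        2 / r := by
      refine le_trans (Real.exp_le_exp.2 h2) ?_
      have h4 := Real.add_one_le_exp (r / 2)
      rw [Real.exp_neg, inv_eq_one_div, div_le_div_iff₀ (Real.exp_pos _) hr0]
      linarith
    have h4 : ((ψ + 1 / r) * N) ^ 2 ≤ (2 * ψ ^ 2 + 2 / r) * (N : ℝ) ^ 2 := by
      rw [mul_pow]
      apply mul_le_mul_of_nonneg_right _ (by positivity)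
      have h5 : (1 / r) ^ 2 ≤ 1 / r := by
        rw [sq]
        have h6 : 1 / r ≤ 1 := by
          rw [div_le_one hr0]; linarith
        have h7 : 0 ≤ 1 / r := by positivity
        nlinarith
      have h6 : 2 / r = 2 * (1 / r) := by ring
      rw [h6]
      nlinarith [sq_nonneg (ψ - 1 / r)]
    have h5 : ∑ w ∈ saws (stv m) N, (cy m (pos (stv m) w N) : ℝ) ^ 2 ≤
        (2 * ψ ^ 2 + 6 / r) * ((N : ℝ) ^ 2 * (saws (stv m) N).card) := by
      refine le_trans h1 ?_
      have h0 : (2 * ψ ^ 2 + 6 / r) * ((N : ℝ) ^ 2 * (saws (stv m) N).card) =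
        ((2 * ψ ^ 2 + 6 / r) * (N : ℝ) ^ 2) * (saws (stv m) N).card := by ring
      rw [h0]
      apply mul_le_mul_of_nonneg_right _ (Nat.cast_nonneg _)
      have h6 := mul_le_mul_of_nonneg_left h3 (show (0 : ℝ) ≤ 2 * (N : ℝ) ^ 2 by positivity)
      have h7 : 6 / r = 2 / r + 2 * (2 / r) := by ring
      rw [h7]
      nlinarith
    have hlog0 : 1 ≤ Real.log N := by rw [hlogN]; linarith
    have hc0 : 0 ≤ Real.log N ^ cexp := Real.rpow_nonneg (by linarith) _
    have h6 : Real.log N ^ cexp ≤ 8 * t ^ cexp := by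
      rw [hlogN, Real.mul_rpow (by norm_num) (by linarith)]
      apply mul_le_mul_of_nonneg_right _ (Real.rpow_nonneg (by linarith) _)
      calc (8 : ℝ) ^ cexp ≤ 8 ^ (1 : ℝ) :=
            Real.rpow_le_rpow_of_exponent_le (by norm_num) cexp_le
        _ = 8 := Real.rpow_one 8
    have h7 : Real.log N ^ cexp ≤ 16 * r := by
      calc Real.log N ^ cexp ≤ Real.log N ^ (1 : ℝ) :=
            Real.rpow_le_rpow_of_exponent_le hlog0 cexp_le
        _ = Real.log N := Real.rpow_one _
        _ ≤ 16 * r := by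
            rw [hlogN, ht]
            have := Real.log_le_sub_one_of_pos hr0
            linarith
    have h8 : (2 * ψ ^ 2 + 6 / r) * Real.log N ^ cexp ≤ 16 * |C₁| + 96 := by
      have h9 : 2 * ψ ^ 2 * Real.log N ^ cexp ≤ 16 * |C₁| := by
        have h10 : 2 * ψ ^ 2 * Real.log N ^ cexp ≤ 2 * ψ ^ 2 * (8 * t ^ cexp) :=
          mul_le_mul_of_nonneg_left h6 (by positivity)
        have h11 : 2 * ψ ^ 2 * (8 * t ^ cexp) = 16 * (ψ ^ 2 * t ^ cexp) := by ring
        have h12 := le_abs_self C₁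
        linarith
      have h13 : 6 / r * Real.log N ^ cexp ≤ 96 := by
        have h14 : 6 / r * Real.log N ^ cexp ≤ 6 / r * (16 * r) :=
          mul_le_mul_of_nonneg_left h7 (by positivity)
        have h15 : 6 / r * (16 * r) = 96 := by
          field_simp
          norm_num
        linarith
      linarith
    calc (∑ w ∈ saws (stv m) N, (cy m (pos (stv m) w N) : ℝ) ^ 2) * Real.log N ^ cexp
        ≤ (2 * ψ ^ 2 + 6 / r) * ((N : ℝ) ^ 2 * (saws (stv m) N).card) * Real.log N ^ cexp :=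
          mul_le_mul_of_nonneg_right h5 hc0
      _ = ((2 * ψ ^ 2 + 6 / r) * Real.log N ^ cexp) * ((N : ℝ) ^ 2 * (saws (stv m) N).card) := by
          ring
      _ ≤ (16 * |C₁| + 96) * ((N : ℝ) ^ 2 * (saws (stv m) N).card) :=
          mul_le_mul_of_nonneg_right h8 (mul_nonneg (sq_nonneg _) (Nat.cast_nonneg _))
      _ = (16 * |C₁| + 96) * (N : ℝ) ^ 2 * (saws (stv m) N).card := by ring

theorem second_moment (m : ℕ) : ∃ C : ℝ, 0 ≤ C ∧ ∀ N : ℕ, 2 ≤ N →
    (∑ w ∈ saws (stv m) N, (cy m (pos (stv m) w N) : ℝ) ^ 2) * Real.log N ^ cexp ≤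
      C * (N : ℝ) ^ 2 * (saws (stv m) N).card := by
  obtain ⟨C, R, hR, hC, h⟩ := second_moment_large m
  refine ⟨max C (1 + 16 * R), le_trans hC (le_max_left _ _), ?_⟩
  intro N hN
  have hN1 : (1 : ℝ) ≤ N := by
    have : 1 ≤ N := by omega
    exact_mod_cast this
  have hN0 : (0 : ℝ) < N := by linarith
  set r : ℝ := (N : ℝ) ^ ((1 : ℝ) / 16) with hr
  have hr16 : (N : ℝ) = r ^ 16 := by
    rw [hr, ← Real.rpow_natCast, ← Real.rpow_mul hN0.le]
    norm_num
  have hr0 : 0 < r := by positivity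
  rcases le_or_gt R r with hRr | hRr
  · refine le_trans (h N r hRr hr16) ?_
    apply mul_le_mul_of_nonneg_right _ (Nat.cast_nonneg _)
    exact mul_le_mul_of_nonneg_right (le_max_left _ _) (by positivity)
  · have h1 : Real.log N ^ cexp ≤ 1 + 16 * R := by
      have h2 : 0 ≤ Real.log N := Real.log_nonneg hN1
      have h3 : Real.log N ≤ 16 * R := by
        rw [hr16, Real.log_pow]
        have := Real.log_le_sub_one_of_pos hr0
        push_cast
        linarith
      rcases le_total (Real.log N) 1 with h4 | h4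
      · have := Real.rpow_le_one h2 h4 cexp_pos.le
        linarith
      · calc Real.log N ^ cexp ≤ Real.log N ^ (1 : ℝ) :=
              Real.rpow_le_rpow_of_exponent_le h4 cexp_le
          _ = Real.log N := Real.rpow_one _
          _ ≤ 1 + 16 * R := by linarith
    have h2 : ∑ w ∈ saws (stv m) N, (cy m (pos (stv m) w N) : ℝ) ^ 2 ≤
        (N : ℝ) ^ 2 * (saws (stv m) N).card := by
      rw [mul_comm, ← nsmul_eq_mul, ← Finset.sum_const]
      refine Finset.sum_le_sum ?_
      intro w _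
      rw [← sq_abs]
      apply pow_le_pow_left₀ (abs_nonneg _)
      have := (lip_cy m).abs_pos_le w N
      exact_mod_cast this
    have h3 : 0 ≤ Real.log N ^ cexp := Real.rpow_nonneg (Real.log_nonneg hN1) _
    calc (∑ w ∈ saws (stv m) N, (cy m (pos (stv m) w N) : ℝ) ^ 2) * Real.log N ^ cexp
        ≤ ((N : ℝ) ^ 2 * (saws (stv m) N).card) * (1 + 16 * R) :=
          mul_le_mul h2 h1 h3 (mul_nonneg (sq_nonneg _) (Nat.cast_nonneg _))
      _ = (1 + 16 * R) * (N : ℝ) ^ 2 * (saws (stv m) N).card := by ring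
      _ ≤ max C (1 + 16 * R) * (N : ℝ) ^ 2 * (saws (stv m) N).card := by
          apply mul_le_mul_of_nonneg_right _ (Nat.cast_nonneg _)
          exact mul_le_mul_of_nonneg_right (le_max_right _ _) (by positivity)

end Pool.Agent.SubBall
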