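import Pool.Agent.SubBall.Det

/-! The contradiction: drift cannot persist over many scales. -/

namespace Pool.Agent.SubBall

open Finset
open Classical

variable {S V : Type} [Fintype S] [Inhabited S] [AddCommGroup V]

theorem AA_small (S : Type) [Fintype S] [Inhabited S] {ε : ℝ} (hε : 0 < ε) (C : ℝ) :
    ∃ N0 : ℕ, ∀ N : ℕ, N0 ≤ N → AA S N ≤ ε * N - C := by
  have h1 := (tendsto_small (KS S)).eventually (gt_mem_nhds (show (0 : ℝ) < ε / 2 by positivity))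
  obtain ⟨N1, hN1⟩ := Filter.eventually_atTop.1 h1
  obtain ⟨N2, hN2⟩ := exists_nat_ge (2 * C / ε)
  refine ⟨max (max N1 N2) 1, ?_⟩
  intro N hN
  have h2 : N1 ≤ N := le_trans (le_trans (le_max_left _ _) (le_max_left _ _)) hN
  have h3 : N2 ≤ N := le_trans (le_trans (le_max_right _ _) (le_max_left _ _)) hN
  have h4 : 1 ≤ N := le_trans (le_max_right _ _) hN
  have hN0 : (0 : ℝ) < N := by exact_mod_cast h4
  have h5 := hN1 N h2
  have h6 := AA_le (S := S) h4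
  rw [div_lt_iff₀ hN0] at h5
  have h7 : (N2 : ℝ) ≤ N := by exact_mod_cast h3
  have h8 : 2 * C / ε ≤ N := le_trans hN2 h7
  rw [div_le_iff₀ hε] at h8
  nlinarith

theorem low_mass {vec : S → V} {g : V →+ ℤ} (N : ℕ) {l x : ℝ} (hl : 0 ≤ l)
    (T : Finset (ℕ → S)) (hT : T ⊆ saws vec N)
    (hTx : ∀ w ∈ T, (g (pos vec w N) : ℝ) ≤ x) :
    ∑ w ∈ T, Real.exp (l * (g (pos vec w N) : ℝ)) ≤ Real.exp (l * x) * Z vec g N 0 := by
  calc ∑ w ∈ T, Real.exp (l * (g (pos vec w N) : ℝ)) ≤ ∑ w ∈ T, Real.exp (l * x) := by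
        refine Finset.sum_le_sum ?_
        intro w hw
        apply Real.exp_le_exp.2
        exact mul_le_mul_of_nonneg_left (hTx w hw) hl
    _ ≤ ∑ w ∈ saws vec N, Real.exp (l * x) :=
        Finset.sum_le_sum_of_subset_of_nonneg hT (fun _ _ _ => (Real.exp_pos _).le)
    _ = Real.exp (l * x) * Z vec g N 0 := by
        rw [Finset.sum_const, nsmul_eq_mul, card_saws_eq]
        ring

theorem exp_neg_three_le : Real.exp (-3) ≤ 1 / 20 := by
  rw [Real.exp_neg, inv_eq_one_div]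
  apply one_div_le_one_div_of_le (by norm_num)
  have h1 := Real.exp_one_gt_d9
  have h2 : Real.exp 3 = Real.exp 1 ^ 3 := by
    rw [← Real.exp_nat_mul]; norm_num
  rw [h2]
  have h3 : (2.7182818283 : ℝ) ^ 3 ≤ Real.exp 1 ^ 3 :=
    pow_le_pow_left₀ (by norm_num) h1.le 3
  have h4 : (20 : ℝ) ≤ (2.7182818283 : ℝ) ^ 3 := by norm_num
  linarith

theorem log_two_le : Real.log 2 ≤ 1 := by
  have := Real.log_two_lt_d9
  linarith

/-- the bound for walks with many fast blocks -/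
theorem fast_mass {vec : S → V} {g : V →+ ℤ} (hgood : Good vec g) (F : (ℕ → S) → Prop)
    {n : ℕ} (hn : 1 ≤ n) {l₁ v : ℝ} (hv : 0 < v) (hl₁ : 0 ≤ l₁)
    (hF : (((saws vec n).filter F).card : ℝ) ≤
      4 * Real.exp (n * Lf vec g 0 + AA S n - 2 * (1 / 10 ^ 6) * l₁ * v * n))
    (h3 : 2 ≤ 1 / 10 ^ 6 * l₁ * v * n)
    (h4 : AA S n + 2 ≤ 1 / 10 ^ 12 * l₁ * v ^ 2 * n) {M : ℕ} (hM : 3 ≤ M)
    (T : Finset (ℕ → S)) (hT : T ⊆ saws vec (n * M))
    (hTc : ∀ w ∈ T, v / 10 ^ 6 * M ≤ cnt n M F w) :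
    ∑ w ∈ T, Real.exp (1 / (6 * n) * (g (pos vec w (n * M)) : ℝ)) ≤
      1 / 20 * Z vec g (n * M) (1 / (6 * n)) := by
  have hn0 : (0 : ℝ) < n := by exact_mod_cast hn
  have hn1 : (1 : ℝ) ≤ n := by exact_mod_cast hn
  have hM0 : (3 : ℝ) ≤ M := by exact_mod_cast hM
  set l₂ : ℝ := 1 / (6 * n) with hl₂
  have hl₂0 : 0 < l₂ := by positivity
  have hl₂1 : l₂ ≤ 1 := by
    rw [hl₂, div_le_one (by positivity)]
    linarith
  have hl₂n : l₂ * n = 1 / 6 := by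
    rw [hl₂]; field_simp
  set Y : ℝ := Real.exp (1 / 10 ^ 6 * l₁ * v * n) with hY
  have hY1 : 1 ≤ Y := by
    rw [hY]
    exact Real.one_le_exp (by linarith)
  set E : ℝ := Real.exp (1 + AA S n + n * Lf vec g l₂) with hE
  have hblock : ∑ w ∈ saws vec n, Real.exp (l₂ * (g (pos vec w n) : ℝ)) *
        Y ^ (if F w then 1 else 0) ≤ E := by
    refine le_trans (block_sum_le hgood.lip F n hl₂0.le (by linarith)) ?_
    have h5 := hgood.Z_le_exp n hl₂0.le hl₂1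
    have h6 := hgood.Lf_zero_le_Lf hl₂0.le
    have h7 : Real.exp (l₂ * n) * Y * ((saws vec n).filter F).card ≤
        Real.exp (AA S n + n * Lf vec g l₂) := by
      have h8 : Real.exp (l₂ * n) * Y * ((saws vec n).filter F).card ≤
          Real.exp (l₂ * n) * Y * (4 * Real.exp (n * Lf vec g 0 + AA S n -
            2 * (1 / 10 ^ 6) * l₁ * v * n)) :=
        mul_le_mul_of_nonneg_left hF (by positivity)
      refine le_trans h8 ?_
      have h9 : (4 : ℝ) ≤ Real.exp (11 / 6) := by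
        have h10 : (4 : ℝ) ≤ Real.exp (3 / 2) := by
          have h11 : Real.exp (3 / 2) ^ 2 = Real.exp 1 ^ 3 := by
            rw [← Real.exp_nat_mul, ← Real.exp_nat_mul]; norm_num
          have h12 : (2.7182818283 : ℝ) ^ 3 ≤ Real.exp 1 ^ 3 :=
            pow_le_pow_left₀ (by norm_num) Real.exp_one_gt_d9.le 3
          have h13 : (16 : ℝ) ≤ (2.7182818283 : ℝ) ^ 3 := by norm_num
          have h14 : (0 : ℝ) < Real.exp (3 / 2) := Real.exp_pos _
          nlinarith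
        refine le_trans h10 (Real.exp_le_exp.2 (by norm_num))
      rw [hY, hl₂n]
      calc Real.exp (1 / 6) * Real.exp (1 / 10 ^ 6 * l₁ * v * n) *
            (4 * Real.exp (n * Lf vec g 0 + AA S n - 2 * (1 / 10 ^ 6) * l₁ * v * n))
          ≤ Real.exp (1 / 6) * Real.exp (1 / 10 ^ 6 * l₁ * v * n) *
            (Real.exp (11 / 6) * Real.exp (n * Lf vec g 0 + AA S n -
              2 * (1 / 10 ^ 6) * l₁ * v * n)) := by
            apply mul_le_mul_of_nonneg_left _ (by positivity)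
            exact mul_le_mul_of_nonneg_right h9 (Real.exp_pos _).le
        _ ≤ Real.exp (AA S n + n * Lf vec g l₂) := by
            rw [← Real.exp_add, ← Real.exp_add, ← Real.exp_add]
            apply Real.exp_le_exp.2
            have := mul_le_mul_of_nonneg_left h6 hn0.le
            linarith
    have h8 : (2 : ℝ) ≤ Real.exp 1 := by
      have := Real.exp_one_gt_d9
      linarith
    have h9 : E = Real.exp 1 * Real.exp (AA S n + n * Lf vec g l₂) := by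
      rw [hE, ← Real.exp_add]
      ring_nf
    rw [h9]
    have h10 := (Real.exp_pos (AA S n + n * Lf vec g l₂)).le
    nlinarith
  have h5 := markov_cnt vec g F n l₂ hY1 M (v / 10 ^ 6 * M) hblock T hT hTc
  refine le_trans h5 ?_
  have h6 : E ^ M * Y ^ (-(v / 10 ^ 6 * (M : ℝ))) = Real.exp (M * (1 + AA S n -
      1 / 10 ^ 12 * l₁ * v ^ 2 * n)) * Real.exp ((n * M : ℕ) * Lf vec g l₂) := by
    rw [hE, hY, ← Real.exp_nat_mul, ← Real.exp_mul, ← Real.exp_add, ← Real.exp_add]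
    congr 1
    push_cast
    ring
  rw [h6]
  have h7 := exp_Lf_le_Z hgood.e (n * M) hl₂0.le
  have h8 : Real.exp (M * (1 + AA S n - 1 / 10 ^ 12 * l₁ * v ^ 2 * n)) ≤ 1 / 20 := by
    refine le_trans ?_ exp_neg_three_le
    apply Real.exp_le_exp.2
    nlinarith
  exact mul_le_mul h8 h7 (Real.exp_pos _).le (by norm_num)

/-- the bound for slow walks -/
theorem slow_mass {vec : S → V} {g : V →+ ℤ} (hgood : Good vec g) {N : ℕ} {l₂ vg : ℝ}
    (hl : 0 < l₂)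
    (hL₂ : Lf vec g 0 + l₂ * ((1 - 1 / 10 ^ 6) * vg) ≤ Lf vec g l₂)
    (hAA : AA S N ≤ N * (l₂ * (1 / 10 ^ 6) * vg) - 3)
    (T : Finset (ℕ → S)) (hT : T ⊆ saws vec N)
    (hTx : ∀ w ∈ T, (g (pos vec w N) : ℝ) ≤ (1 - 2 / 10 ^ 6) * vg * N) :
    ∑ w ∈ T, Real.exp (l₂ * (g (pos vec w N) : ℝ)) ≤ 1 / 20 * Z vec g N l₂ := by
  refine le_trans (low_mass N hl.le T hT hTx) ?_
  have h1 := hgood.Z_le_exp N (le_refl (0 : ℝ)) zero_le_one
  have h2 := exp_Lf_le_Z hgood.e N hl.le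
  have h3 : Real.exp (l₂ * ((1 - 2 / 10 ^ 6) * vg * N)) * Z vec g N 0 ≤
      Real.exp (-3) * Real.exp (N * Lf vec g l₂) := by
    refine le_trans (mul_le_mul_of_nonneg_left h1 (Real.exp_pos _).le) ?_
    rw [← Real.exp_add, ← Real.exp_add]
    apply Real.exp_le_exp.2
    have h4 := mul_le_mul_of_nonneg_left hL₂ (Nat.cast_nonneg (α := ℝ) N)
    nlinarith
  refine le_trans h3 ?_
  exact mul_le_mul exp_neg_three_le h2 (Real.exp_pos _).le (by norm_num)

/-- the bound for walks with large zigzags -/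
theorem zig_mass {vec : S → V} {k g : V →+ ℤ} {c : ℤ} (ρ : Sym vec)
    (hk : ∀ v, k (ρ.L v) = - k v) (hg : ∀ v, g (ρ.L v) = g v - c * k v) (hc : 1 ≤ c)
    (hgood : Good vec g) {A : ℕ} (hA : 2 ≤ A) {N : ℕ} {l₁ l₂ v vg : ℝ}
    (hl : 0 < l₂) (hl12 : l₂ ≤ l₁) (hl₁' : l₁ ≤ 1) (hv : 0 < v) (hvg0 : 0 ≤ vg)
    (hvg' : vg ≤ 3 * v)
    (hL₁ : Lf vec g l₁ ≤ Lf vec g 0 + l₁ * vg)
    (hL₂ : Lf vec g 0 + l₂ * ((1 - 1 / 10 ^ 6) * vg) ≤ Lf vec g l₂)
    (h5 : 2 * Real.log A / A ≤ l₁ / 8) (h5' : 1 / (A : ℝ) ≤ l₁ * v / 80000)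
    (hAA : AA S N ≤ N * (l₁ * v / 40000) - 3)
    (T : Finset (ℕ → S)) (hT : T ⊆ saws vec N)
    (hTx : ∀ w ∈ T, (1 - 2 / 10 ^ 6) * vg * N ≤ (g (pos vec w N) : ℝ))
    (hTD : ∀ w ∈ T, v / 10 ^ 4 * N ≤ (DD vec k N A w : ℝ)) :
    ∑ w ∈ T, Real.exp (l₂ * (g (pos vec w N) : ℝ)) ≤ 1 / 20 * Z vec g N l₂ := by
  have h1 := large_zigs ρ hk hg hc hA hl.le hl12 h5 N T hT hTx hTD
  refine le_trans h1 ?_
  have h2 := hgood.Z_le_exp N (le_trans hl.le hl12) hl₁'
  have h3 := exp_Lf_le_Z hgood.e N hl.le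
  have hN0 : (0 : ℝ) ≤ N := Nat.cast_nonneg N
  have h4 : Real.exp ((N : ℝ) / A) * (Z vec g N l₁ *
        Real.exp (- (l₁ - l₂) * ((1 - 2 / 10 ^ 6) * vg * N) -
          7 / 8 * l₁ * (v / 10 ^ 4 * N))) ≤ Real.exp (-3) * Real.exp (N * Lf vec g l₂) := by
    have h6 : Real.exp ((N : ℝ) / A) * (Z vec g N l₁ *
        Real.exp (- (l₁ - l₂) * ((1 - 2 / 10 ^ 6) * vg * N) -
          7 / 8 * l₁ * (v / 10 ^ 4 * N))) ≤ Real.exp ((N : ℝ) / A) *
          (Real.exp (AA S N + N * Lf vec g l₁) *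
        Real.exp (- (l₁ - l₂) * ((1 - 2 / 10 ^ 6) * vg * N) -
          7 / 8 * l₁ * (v / 10 ^ 4 * N))) :=
      mul_le_mul_of_nonneg_left (mul_le_mul_of_nonneg_right h2 (Real.exp_pos _).le)
        (Real.exp_pos _).le
    refine le_trans h6 ?_
    rw [← Real.exp_add, ← Real.exp_add, ← Real.exp_add]
    apply Real.exp_le_exp.2
    have h7 := mul_le_mul_of_nonneg_left hL₂ hN0
    have h8 := mul_le_mul_of_nonneg_left hL₁ hN0
    have h9 : (N : ℝ) / A ≤ N * (l₁ * v / 80000) := by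
      have := mul_le_mul_of_nonneg_left h5' hN0
      rw [mul_one_div] at this
      exact this
    have hl₁0 : 0 ≤ l₁ := le_trans hl.le hl12
    have h10 : N * (l₁ * vg) ≤ N * (l₁ * (3 * v)) :=
      mul_le_mul_of_nonneg_left (mul_le_mul_of_nonneg_left hvg' hl₁0) hN0
    have h11 : 0 ≤ N * (l₂ * vg) := by positivity
    have h12 : 0 ≤ N * (l₁ * v) := by positivity
    nlinarith
  refine le_trans h4 ?_
  exact mul_le_mul exp_neg_three_le h3 (Real.exp_pos _).le (by norm_num)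

end Pool.Agent.SubBall
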