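import Pool.Agent.SubBall.Refl

/-! Bridges and the Hammersley-Welsh bound. -/

namespace Pool.Agent.SubBall

open Finset
open Classical

variable {S V : Type} [Fintype S] [Inhabited S] [AddCommGroup V]

/-- last maximiser of an integer function on an interval -/
theorem last_argmax (K : ℕ → ℤ) {a b : ℕ} (hab : a ≤ b) :
    ∃ s, a ≤ s ∧ s ≤ b ∧ (∀ x, a ≤ x → x ≤ b → K x ≤ K s) ∧
      (∀ x, s < x → x ≤ b → K x < K s) := by
  obtain ⟨s, hs, hmax⟩ := Finset.exists_max_image (Finset.Icc a b)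
    (fun x => toLex (K x, x)) ⟨a, Finset.mem_Icc.2 ⟨le_rfl, hab⟩⟩
  rw [Finset.mem_Icc] at hs
  refine ⟨s, hs.1, hs.2, ?_, ?_⟩
  · intro x h1 h2
    have h := hmax x (Finset.mem_Icc.2 ⟨h1, h2⟩)
    rw [Prod.Lex.toLex_le_toLex] at h
    rcases h with h | h
    · exact h.le
    · exact h.1.le
  · intro x h1 h2
    have h := hmax x (Finset.mem_Icc.2 ⟨by omega, h2⟩)
    rw [Prod.Lex.toLex_le_toLex] at h
    rcases h with h | h
    · exact h
    · have := h.2
      simp only at this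
      omega

/-- first minimiser of an integer function on an interval -/
theorem first_argmin (K : ℕ → ℤ) {a b : ℕ} (hab : a ≤ b) :
    ∃ s, a ≤ s ∧ s ≤ b ∧ (∀ x, a ≤ x → x ≤ b → K s ≤ K x) ∧
      (∀ x, a ≤ x → x < s → K s < K x) := by
  obtain ⟨s, hs, hmin⟩ := Finset.exists_min_image (Finset.Icc a b)
    (fun x => toLex (K x, x)) ⟨a, Finset.mem_Icc.2 ⟨le_rfl, hab⟩⟩
  rw [Finset.mem_Icc] at hs
  refine ⟨s, hs.1, hs.2, ?_, ?_⟩
  · intro x h1 h2
    have h := hmin x (Finset.mem_Icc.2 ⟨h1, h2⟩)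
    rw [Prod.Lex.toLex_le_toLex] at h
    rcases h with h | h
    · exact h.le
    · exact h.1.le
  · intro x h1 h2
    have h := hmin x (Finset.mem_Icc.2 ⟨h1, by omega⟩)
    rw [Prod.Lex.toLex_le_toLex] at h
    rcases h with h | h
    · exact h
    · have := h.2
      simp only at this
      omega

/-- bridges in the direction `φ` -/
def Br (vec : S → V) (φ : V →+ ℤ) (N : ℕ) (w : ℕ → S) : Prop :=
  ∀ i, 0 < i → i ≤ N → 0 < φ (pos vec w i) ∧ φ (pos vec w i) ≤ φ (pos vec w N)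

/-- half-space walks in the direction `φ` -/
def Hs (vec : S → V) (φ : V →+ ℤ) (N : ℕ) (w : ℕ → S) : Prop :=
  ∀ i, 0 < i → i ≤ N → 0 < φ (pos vec w i)

/-- the bridges of length `N` -/
noncomputable def brs (vec : S → V) (φ : V →+ ℤ) (N : ℕ) : Finset (ℕ → S) :=
  (saws vec N).filter (fun w => Br vec φ N w)

/-- the half-space walks of length `N` -/
noncomputable def hss (vec : S → V) (φ : V →+ ℤ) (N : ℕ) : Finset (ℕ → S) :=
  (saws vec N).filter (fun w => Hs vec φ N w)

/-- weighted number of bridges -/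
noncomputable def B (vec : S → V) (φ : V →+ ℤ) (N : ℕ) (l : ℝ) : ℝ :=
  ∑ w ∈ brs vec φ N, Real.exp (l * (φ (pos vec w N) : ℝ))

/-- weighted number of half-space walks -/
noncomputable def H (vec : S → V) (φ : V →+ ℤ) (N : ℕ) (l : ℝ) : ℝ :=
  ∑ w ∈ hss vec φ N, Real.exp (l * (φ (pos vec w N) : ℝ))

theorem B_nonneg (vec : S → V) (φ : V →+ ℤ) (N : ℕ) (l : ℝ) : 0 ≤ B vec φ N l :=
  Finset.sum_nonneg (fun _ _ => (Real.exp_pos _).le)

theorem H_nonneg (vec : S → V) (φ : V →+ ℤ) (N : ℕ) (l : ℝ) : 0 ≤ H vec φ N l :=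
  Finset.sum_nonneg (fun _ _ => (Real.exp_pos _).le)

theorem B_le_Z (vec : S → V) (φ : V →+ ℤ) (N : ℕ) (l : ℝ) : B vec φ N l ≤ Z vec φ N l :=
  Finset.sum_le_sum_of_subset_of_nonneg (Finset.filter_subset _ _)
    (fun _ _ _ => (Real.exp_pos _).le)

theorem app_mem_words {m n : ℕ} {u v : ℕ → S} (hv : v ∈ words S n) :
    app m u v ∈ words S (m + n) := by
  rw [mem_words] at hv ⊢
  intro a ha
  have h1 : ¬ a < m := by omega
  simp only [app, h1, if_false]
  exact hv (a - m) (by omega)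

omit [Fintype S] in
theorem cut_app {m : ℕ} {u v : ℕ → S} (hu : ∀ a, m ≤ a → u a = default) :
    cut m (app m u v) = u := by
  funext a
  by_cases ha : a < m
  · simp [cut, app, ha]
  · simp [cut, ha, hu a (not_lt.1 ha)]

omit [Fintype S] [Inhabited S] in
theorem saw_app {vec : S → V} {φ : V →+ ℤ} {m n : ℕ} {u v : ℕ → S} (hu : Saw vec m u)
    (hub : ∀ i ≤ m, φ (pos vec u i) ≤ φ (pos vec u m)) (hv : Saw vec n v)
    (hvb : Hs vec φ n v) : Saw vec (m + n) (app m u v) := by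
  intro i j hij hj
  rcases le_or_gt j m with h | h
  · rw [pos_app_le vec u v (by omega), pos_app_le vec u v h]
    exact hu i j hij h
  · obtain ⟨j', rfl⟩ := Nat.exists_eq_add_of_le h.le
    rcases le_or_gt i m with h1 | h1
    · intro heq
      rw [pos_app_le vec u v h1, pos_app_add] at heq
      have h2 := hub i h1
      have h3 := hvb j' (by omega) (by omega)
      rw [heq, map_add] at h2
      omega
    · obtain ⟨i', rfl⟩ := Nat.exists_eq_add_of_le h1.le
      intro heq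
      rw [pos_app_add, pos_app_add] at heq
      exact hv i' j' (by omega) (by omega) (add_left_cancel heq)

omit [Fintype S] [Inhabited S] in
theorem Br.le {vec : S → V} {φ : V →+ ℤ} {m : ℕ} {u : ℕ → S} (h : Br vec φ m u) {i : ℕ}
    (hi : i ≤ m) : φ (pos vec u i) ≤ φ (pos vec u m) := by
  rcases Nat.eq_zero_or_pos i with h0 | h0
  · subst h0
    rcases Nat.eq_zero_or_pos m with h1 | h1
    · subst h1; exact le_rfl
    · simpa using (h m h1 le_rfl).1.le
  · exact (h i h0 hi).2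

omit [Fintype S] [Inhabited S] in
theorem Br.hs {vec : S → V} {φ : V →+ ℤ} {m : ℕ} {u : ℕ → S} (h : Br vec φ m u) :
    Hs vec φ m u := fun i h1 h2 => (h i h1 h2).1

omit [Fintype S] [Inhabited S] in
theorem Br.nonneg {vec : S → V} {φ : V →+ ℤ} {m : ℕ} {u : ℕ → S} (h : Br vec φ m u) :
    0 ≤ φ (pos vec u m) := by
  have := h.le (Nat.zero_le m)
  simpa using this

omit [Fintype S] [Inhabited S] in
theorem br_app {vec : S → V} {φ : V →+ ℤ} {m n : ℕ} {u v : ℕ → S}
    (hub : Br vec φ m u) (hvb : Br vec φ n v) : Br vec φ (m + n) (app m u v) := by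
  intro i h0 hi
  rw [pos_app_add, map_add]
  rcases le_or_gt i m with h | h
  · rw [pos_app_le vec u v h]
    have h1 := hub i h0 h
    have h2 := hvb.nonneg
    exact ⟨h1.1, by omega⟩
  · obtain ⟨j, rfl⟩ := Nat.exists_eq_add_of_le h.le
    rw [pos_app_add, map_add]
    have h1 := hvb j (by omega) (by omega)
    have h2 := hub.nonneg
    exact ⟨by omega, by omega⟩

theorem B_mul_le (vec : S → V) (φ : V →+ ℤ) (m n : ℕ) (l : ℝ) :
    B vec φ m l * B vec φ n l ≤ B vec φ (m + n) l := by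
  unfold B
  rw [Finset.sum_mul_sum, ← Finset.sum_product']
  refine sum_le_sum_inj _ _ (fun p => app m p.1 p.2) _
    (fun w => Real.exp (l * (φ (pos vec w (m + n)) : ℝ))) ?_ ?_ ?_ ?_
  · rintro ⟨u, v⟩ hp
    rw [Finset.mem_product] at hp
    obtain ⟨hu, hv⟩ := hp
    simp only [brs, Finset.mem_filter] at hu hv ⊢
    refine ⟨?_, br_app hu.2 hv.2⟩
    have h1 := mem_saws.1 hu.1
    have h2 := mem_saws.1 hv.1
    rw [mem_saws]
    refine ⟨mem_words.1 (app_mem_words (mem_words.2 h2.1)), ?_⟩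
    exact saw_app h1.2 (fun i hi => hu.2.le hi) h2.2 hv.2.hs
  · rintro ⟨u, v⟩ hp ⟨u', v'⟩ hp' heq
    simp only [Finset.coe_product, Set.mem_prod, Finset.mem_coe, brs, Finset.mem_filter]
      at hp hp'
    simp only at heq
    have h1 := cut_app (v := v) (mem_saws.1 hp.1.1).1
    have h2 := cut_app (v := v') (mem_saws.1 hp'.1.1).1
    have h3 := sh_app m u v
    have h4 := sh_app m u' v'
    rw [heq] at h1 h3
    rw [Prod.mk.injEq]
    exact ⟨h1.symm.trans h2, h3.symm.trans h4⟩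
  · rintro ⟨u, v⟩ _
    simp only
    rw [← Real.exp_add, pos_app_add, map_add]
    push_cast
    apply le_of_eq
    ring_nf
  · intro w _
    positivity

theorem brs_zero (vec : S → V) (φ : V →+ ℤ) : brs vec φ 0 = {fun _ => (default : S)} := by
  unfold brs
  rw [saws_zero]
  ext w
  simp only [Finset.mem_filter, Finset.mem_singleton]
  constructor
  · rintro ⟨h, -⟩; exact h
  · intro h
    exact ⟨h, fun i h0 hi => by omega⟩

theorem B_zero (vec : S → V) (φ : V →+ ℤ) (l : ℝ) : B vec φ 0 l = 1 := by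
  unfold B
  rw [brs_zero]
  simp

theorem B_pow_le (vec : S → V) (φ : V →+ ℤ) (n q : ℕ) (l : ℝ) :
    B vec φ n l ^ q ≤ B vec φ (n * q) l := by
  induction q with
  | zero => simp [B_zero]
  | succ q ih =>
    rw [Nat.mul_succ, pow_succ]
    exact le_trans (mul_le_mul_of_nonneg_right ih (B_nonneg _ _ _ _)) (B_mul_le _ _ _ _ _)

theorem B_pow_le_Z_pow (vec : S → V) (φ : V →+ ℤ) (n q : ℕ) (l : ℝ) :
    B vec φ n l ^ q ≤ Z vec φ q l ^ n := by
  refine le_trans (B_pow_le vec φ n q l) ?_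
  refine le_trans (B_le_Z _ _ _ _) ?_
  rw [mul_comm n q]
  exact Z_mul_le _ _ _ _ _

end Pool.Agent.SubBall
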