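import Pool.Agent.SubBall.Core2

/-! The step system of `ℤ^d`, `d = m + 2`. -/

namespace Pool.Agent.SubBall

open Finset
open Classical

/-- the steps of `ℤ^(m+2)` -/
abbrev St (m : ℕ) : Type := Fin (m + 2) × Bool

/-- the lattice `ℤ^(m+2)` -/
abbrev Vt (m : ℕ) : Type := Fin (m + 2) → ℤ

/-- the vector of a step -/
def stv (m : ℕ) : St m → Vt m := fun s => if s.2 then Pi.single s.1 1 else - Pi.single s.1 1

/-- coordinate functionals -/
def co (m : ℕ) (i : Fin (m + 2)) : Vt m →+ ℤ := Pi.evalAddMonoidHom (fun _ => ℤ) i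

theorem co_apply (m : ℕ) (i : Fin (m + 2)) (v : Vt m) : co m i v = v i := rfl

/-- signed permutations of the coordinates -/
def sgL (m : ℕ) (π : Fin (m + 2) → Fin (m + 2)) (fl : Fin (m + 2) → Bool) : Vt m →+ Vt m where
  toFun v := fun i => if fl i then - v (π i) else v (π i)
  map_zero' := by
    funext i
    simp
  map_add' u v := by
    funext i
    by_cases h : fl i
    · simp [h]; ring
    · simp [h]

theorem sgL_apply (m : ℕ) (π : Fin (m + 2) → Fin (m + 2)) (fl : Fin (m + 2) → Bool)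
    (v : Vt m) (i : Fin (m + 2)) :
    sgL m π fl v i = if fl i then - v (π i) else v (π i) := rfl

/-- the symmetries given by signed permutations -/
def sg (m : ℕ) (π : Fin (m + 2) → Fin (m + 2)) (fl : Fin (m + 2) → Bool)
    (h1 : ∀ i, π (π i) = i) (h2 : ∀ i, fl (π i) = fl i) : Sym (stv m) where
  f := fun s => (π s.1, xor (fl s.1) s.2)
  L := sgL m π fl
  inj := by
    have h : ∀ v, sgL m π fl (sgL m π fl v) = v := by
      intro v
      funext i
      rw [sgL_apply, sgL_apply, h1, h2]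
      by_cases h : fl i <;> simp [h]
    intro u v huv
    rw [← h u, ← h v, huv]
  vec_f := by
    rintro ⟨j, b⟩
    funext i
    rw [sgL_apply]
    have h3 : ∀ i, (i = π j) ↔ (π i = j) := by
      intro i
      constructor
      · rintro rfl; exact h1 j
      · rintro rfl; exact (h1 i).symm
    by_cases hi : π i = j
    · have hi' : i = π j := (h3 i).2 hi
      cases b <;> cases hj : fl j <;> simp [stv, h2, hj, hi', h1]
    · have hi' : i ≠ π j := fun h => hi ((h3 i).1 h)
      cases b <;> cases hj : fl j <;> simp [stv, hi, hi']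
  inv := by
    rintro ⟨j, b⟩
    simp only [h1, h2]
    cases b <;> cases fl j <;> rfl

/-- the central symmetry -/
def sNeg (m : ℕ) : Sym (stv m) := sg m (fun i => i) (fun _ => true) (fun _ => rfl) (fun _ => rfl)

theorem sNeg_L (m : ℕ) (v : Vt m) : (sNeg m).L v = - v := by
  funext i
  show sgL m _ _ v i = _
  simp [sgL_apply]

/-- exchange of the first two coordinates -/
def sw (m : ℕ) : Fin (m + 2) → Fin (m + 2) := fun i => if i = 0 then 1 else if i = 1 then 0 else i

theorem sw_sw (m : ℕ) (i : Fin (m + 2)) : sw m (sw m i) = i := by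
  unfold sw
  by_cases h0 : i = 0
  · simp [h0]
  · by_cases h1 : i = 1
    · simp [h1]
    · simp [h0, h1]

theorem sw_zero (m : ℕ) : sw m 0 = 1 := by simp [sw]

theorem sw_one (m : ℕ) : sw m 1 = 0 := by simp [sw]

/-- `(x, y) ↦ (y, x)` -/
def sSwap (m : ℕ) : Sym (stv m) := sg m (sw m) (fun _ => false) (sw_sw m) (fun _ => rfl)

theorem sSwap_L0 (m : ℕ) (v : Vt m) : (sSwap m).L v 0 = v 1 := by
  show sgL m _ _ v 0 = _
  simp [sgL_apply, sw_zero]

theorem sSwap_L1 (m : ℕ) (v : Vt m) : (sSwap m).L v 1 = v 0 := by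
  show sgL m _ _ v 1 = _
  simp [sgL_apply, sw_one]

/-- `(x, y) ↦ (-y, -x)` -/
def sAnti (m : ℕ) : Sym (stv m) := sg m (sw m) (fun _ => true) (sw_sw m) (fun _ => rfl)

theorem sAnti_L0 (m : ℕ) (v : Vt m) : (sAnti m).L v 0 = - v 1 := by
  show sgL m _ _ v 0 = _
  simp [sgL_apply, sw_zero]

theorem sAnti_L1 (m : ℕ) (v : Vt m) : (sAnti m).L v 1 = - v 0 := by
  show sgL m _ _ v 1 = _
  simp [sgL_apply, sw_one]

/-- change the sign of the coordinate `j` -/
def sFlip (m : ℕ) (j : Fin (m + 2)) : Sym (stv m) :=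
  sg m (fun i => i) (fun i => decide (i = j)) (fun _ => rfl) (fun _ => rfl)

theorem sFlip_same (m : ℕ) (j : Fin (m + 2)) (v : Vt m) : (sFlip m j).L v j = - v j := by
  show sgL m _ _ v j = _
  simp [sgL_apply]

theorem sFlip_other (m : ℕ) (j i : Fin (m + 2)) (h : i ≠ j) (v : Vt m) :
    (sFlip m j).L v i = v i := by
  show sgL m _ _ v i = _
  simp [sgL_apply, h]

/-- exchange of the coordinates `1` and `j` -/
def sEx (m : ℕ) (j : Fin (m + 2)) : Sym (stv m) :=
  sg m (Equiv.swap 1 j) (fun _ => false) (fun _ => Equiv.swap_apply_self _ _ _) (fun _ => rfl)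

theorem sEx_L (m : ℕ) (j : Fin (m + 2)) (v : Vt m) : (sEx m j).L v 1 = v j := by
  show sgL m _ _ v 1 = _
  simp [sgL_apply]

/-- the coordinate `y` -/
def cy (m : ℕ) : Vt m →+ ℤ := co m 1

/-- the coordinate `x` -/
def cx (m : ℕ) : Vt m →+ ℤ := co m 0

/-- the functional `x + y` -/
def cf (m : ℕ) : Vt m →+ ℤ := co m 0 + co m 1

theorem cy_apply (m : ℕ) (v : Vt m) : cy m v = v 1 := rfl
theorem cx_apply (m : ℕ) (v : Vt m) : cx m v = v 0 := rfl
theorem cf_apply (m : ℕ) (v : Vt m) : cf m v = v 0 + v 1 := rfl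

theorem lip_cy (m : ℕ) : Lip (stv m) (cy m) := by
  rintro ⟨j, b⟩
  rw [cy_apply]
  by_cases h : (1 : Fin (m + 2)) = j
  · subst h
    cases b <;> simp [stv]
  · cases b <;> simp [stv, h]

theorem lip_cf (m : ℕ) : Lip (stv m) (cf m) := by
  rintro ⟨j, b⟩
  rw [cf_apply]
  by_cases h1 : (1 : Fin (m + 2)) = j
  · subst h1
    cases b <;> simp [stv]
  · by_cases h0 : (0 : Fin (m + 2)) = j
    · subst h0
      cases b <;> simp [stv]
    · cases b <;> simp [stv, h1, h0]

theorem good_cy (m : ℕ) : Good (stv m) (cy m) where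
  lip := lip_cy m
  refl := ⟨sFlip m 1, fun v => by rw [cy_apply, cy_apply, sFlip_same]⟩
  neg := ⟨sNeg m, sNeg_L m⟩
  e := ⟨(1, true), by rw [cy_apply]; simp [stv]⟩

theorem good_cf (m : ℕ) : Good (stv m) (cf m) where
  lip := lip_cf m
  refl := ⟨sAnti m, fun v => by rw [cf_apply, cf_apply, sAnti_L0, sAnti_L1]; ring⟩
  neg := ⟨sNeg m, sNeg_L m⟩
  e := ⟨(1, true), by rw [cf_apply]; simp [stv]⟩

end Pool.Agent.SubBall
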