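import Pool.Agent.SubBall.Free

/-! Free energies: convexity and symmetry. -/

namespace Pool.Agent.SubBall

open Finset
open Classical

variable {S V : Type} [Fintype S] [Inhabited S] [AddCommGroup V]

/-- a comparison principle -/
theorem Good.Lf_le_comb {vec : S → V} {φ₁ φ₂ φ₃ : V →+ ℤ} (h₁ : ∃ e : S, φ₁ (vec e) = 1)
    (h₂ : Good vec φ₂) (h₃ : Good vec φ₃) {l₁ l₂ l₃ θ : ℝ} (hl₁ : 0 ≤ l₁) (hl₂ : 0 ≤ l₂)
    (hl₂' : l₂ ≤ 1) (hl₃ : 0 ≤ l₃) (hl₃' : l₃ ≤ 1) (hθ : 0 ≤ θ) (hθ' : θ ≤ 1)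
    (h : ∀ n : ℕ, 1 ≤ n → Real.log (Z vec φ₁ n l₁) ≤ θ * Real.log (Z vec φ₂ n l₂) +
      (1 - θ) * Real.log (Z vec φ₃ n l₃)) :
    Lf vec φ₁ l₁ ≤ θ * Lf vec φ₂ l₂ + (1 - θ) * Lf vec φ₃ l₃ := by
  apply le_of_scaled (K := KS S)
  intro n hn
  have h1 := exp_Lf_le_Z h₁ n hl₁
  have h2 := h₂.Z_le_exp n hl₂ hl₂'
  have h3 := h₃.Z_le_exp n hl₃ hl₃'
  rw [← Real.le_log_iff_exp_le (Z_pos h₁ _ hl₁)] at h1
  rw [← Real.log_le_iff_le_exp (Z_pos h₂.e _ hl₂)] at h2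
  rw [← Real.log_le_iff_le_exp (Z_pos h₃.e _ hl₃)] at h3
  have h4 := h n hn
  have h5 := AA_le (S := S) hn
  have h6 : θ * Real.log (Z vec φ₂ n l₂) ≤ θ * (AA S n + n * Lf vec φ₂ l₂) :=
    mul_le_mul_of_nonneg_left h2 hθ
  have h7 : (1 - θ) * Real.log (Z vec φ₃ n l₃) ≤ (1 - θ) * (AA S n + n * Lf vec φ₃ l₃) :=
    mul_le_mul_of_nonneg_left h3 (by linarith)
  nlinarith

theorem log_Z_holder {vec : S → V} {φ : V →+ ℤ} (hφ : ∃ e : S, φ (vec e) = 1) (n : ℕ)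
    {l θ : ℝ} (hl : 0 ≤ l) (hθ : 0 ≤ θ) (hθ' : θ ≤ 1) :
    Real.log (Z vec φ n (θ * l)) ≤ θ * Real.log (Z vec φ n l) +
      (1 - θ) * Real.log (Z vec φ n 0) := by
  have hZ := Z_pos hφ n hl
  have hZ0 := Z_pos hφ n (le_refl (0 : ℝ))
  have hZ1 := Z_pos hφ n (mul_nonneg hθ hl)
  rw [Real.log_le_iff_le_exp hZ1]
  have key : ∀ w : ℕ → S, Real.exp (θ * l * (φ (pos vec w n) : ℝ)) ≤
      Real.exp (θ * Real.log (Z vec φ n l) + (1 - θ) * Real.log (Z vec φ n 0)) *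
        (θ * (Real.exp (l * (φ (pos vec w n) : ℝ)) / Z vec φ n l) +
          (1 - θ) * (1 / Z vec φ n 0)) := by
    intro w
    have h1 := convexOn_exp.2 (Set.mem_univ (l * (φ (pos vec w n) : ℝ) - Real.log (Z vec φ n l)))
      (Set.mem_univ (- Real.log (Z vec φ n 0))) hθ (by linarith : 0 ≤ 1 - θ) (by ring)
    simp only [smul_eq_mul] at h1
    rw [Real.exp_sub, Real.exp_log hZ, Real.exp_neg, Real.exp_log hZ0] at h1
    have h2 : Real.exp (θ * l * (φ (pos vec w n) : ℝ)) =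
        Real.exp (θ * Real.log (Z vec φ n l) + (1 - θ) * Real.log (Z vec φ n 0)) *
        Real.exp (θ * (l * (φ (pos vec w n) : ℝ) - Real.log (Z vec φ n l)) +
          (1 - θ) * (- Real.log (Z vec φ n 0))) := by
      rw [← Real.exp_add]
      congr 1
      ring
    rw [h2]
    refine mul_le_mul_of_nonneg_left ?_ (Real.exp_pos _).le
    refine le_trans h1 (le_of_eq ?_)
    rw [one_div]
  have h3 : Z vec φ n (θ * l) ≤ ∑ w ∈ saws vec n,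
      Real.exp (θ * Real.log (Z vec φ n l) + (1 - θ) * Real.log (Z vec φ n 0)) *
        (θ * (Real.exp (l * (φ (pos vec w n) : ℝ)) / Z vec φ n l) +
          (1 - θ) * (1 / Z vec φ n 0)) := by
    conv_lhs => unfold Z
    exact Finset.sum_le_sum (fun w _ => key w)
  refine le_trans h3 ?_
  rw [← Finset.mul_sum, Finset.sum_add_distrib, ← Finset.mul_sum, ← Finset.mul_sum,
    ← Finset.sum_div]
  have h4 : ∑ w ∈ saws vec n, Real.exp (l * (φ (pos vec w n) : ℝ)) = Z vec φ n l := rfl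
  have h5 : ∑ w ∈ saws vec n, (1 / Z vec φ n 0) = 1 := by
    rw [Finset.sum_const, nsmul_eq_mul, card_saws_eq, mul_one_div]
    apply div_self
    rw [← card_saws_eq vec φ]
    exact hZ0.ne'
  rw [h4, h5, div_self hZ.ne']
  apply le_of_eq
  ring

/-- convexity of the free energy -/
theorem Good.Lf_holder {vec : S → V} {φ : V →+ ℤ} (hφ : Good vec φ) {l θ : ℝ} (hl : 0 ≤ l)
    (hl1 : l ≤ 1) (hθ : 0 ≤ θ) (hθ' : θ ≤ 1) :
    Lf vec φ (θ * l) ≤ θ * Lf vec φ l + (1 - θ) * Lf vec φ 0 :=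
  Good.Lf_le_comb hφ.e hφ hφ (mul_nonneg hθ hl) hl hl1 le_rfl zero_le_one hθ hθ'
    (fun n _ => log_Z_holder hφ.e n hl hθ hθ')

theorem refl_seg_mem_saws {vec : S → V} (σ : Sym vec) {N : ℕ} {w : ℕ → S}
    (hw : w ∈ saws vec N) : refl σ (seg 0 N) w ∈ saws vec N := by
  rw [mem_saws] at hw ⊢
  refine ⟨?_, ?_⟩
  · intro a ha
    rw [refl_default]
    · exact hw.1 a ha
    · simp only [seg, decide_eq_false_iff_not, not_and, not_lt]
      omega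
  · intro i j hij hj heq
    rw [pos_seg_mid σ w (Nat.zero_le _) (by omega), pos_seg_mid σ w (Nat.zero_le _) hj] at heq
    simp only [pos_zero, sub_zero, zero_add] at heq
    exact hw.2 i j hij hj (σ.inj heq)

theorem Z_sym {vec : S → V} (φ : V →+ ℤ) (σ : Sym vec) (N : ℕ) (l : ℝ) :
    Z vec (φ.comp σ.L) N l = Z vec φ N l := by
  unfold Z
  refine Finset.sum_nbij' (fun w => refl σ (seg 0 N) w) (fun w => refl σ (seg 0 N) w)
    (fun w hw => refl_seg_mem_saws σ hw) (fun w hw => refl_seg_mem_saws σ hw)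
    (fun w _ => refl_refl σ _ w) (fun w _ => refl_refl σ _ w) ?_
  intro w _
  rw [pos_seg_mid σ w (Nat.zero_le _) le_rfl]
  simp

theorem Lf_sym {vec : S → V} (φ : V →+ ℤ) (σ : Sym vec) (l : ℝ) :
    Lf vec (φ.comp σ.L) l = Lf vec φ l := by
  unfold Lf
  simp only [Z_sym]

theorem Lf_congr_zero (vec : S → V) (φ φ' : V →+ ℤ) : Lf vec φ 0 = Lf vec φ' 0 := by
  unfold Lf
  simp only [card_saws_eq]

/-- averaging over a symmetry -/
theorem Z_avg_ge {vec : S → V} {φ φ₁ φ₂ : V →+ ℤ} (h : ∀ v, 2 * φ v = φ₁ v + φ₂ v) (N : ℕ)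
    (l : ℝ) : 2 * Z vec φ N l ≤ Z vec φ₁ N l + Z vec φ₂ N l := by
  unfold Z
  rw [← Finset.sum_add_distrib, Finset.mul_sum]
  refine Finset.sum_le_sum ?_
  intro w _
  have h1 := convexOn_exp.2 (Set.mem_univ (l * (φ₁ (pos vec w N) : ℝ)))
      (Set.mem_univ (l * (φ₂ (pos vec w N) : ℝ))) (by norm_num : (0 : ℝ) ≤ 1 / 2)
      (by norm_num : (0 : ℝ) ≤ 1 / 2) (by norm_num)
  simp only [smul_eq_mul] at h1
  have h2 : (2 : ℝ) * (φ (pos vec w N) : ℝ) = φ₁ (pos vec w N) + φ₂ (pos vec w N) := by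
    exact_mod_cast h (pos vec w N)
  have h3 : 1 / 2 * (l * (φ₁ (pos vec w N) : ℝ)) + 1 / 2 * (l * (φ₂ (pos vec w N) : ℝ)) =
      l * (φ (pos vec w N) : ℝ) := by
    have : (φ (pos vec w N) : ℝ) = (φ₁ (pos vec w N) + φ₂ (pos vec w N)) / 2 := by
      linarith
    rw [this]
    ring
  rw [h3] at h1
  linarith

theorem Z_half_le {vec : S → V} {φ φ₁ φ₂ : V →+ ℤ} (h : ∀ v, φ v = φ₁ v + φ₂ v) (N : ℕ)
    (l : ℝ) : 2 * Z vec φ N (l / 2) ≤ Z vec φ₁ N l + Z vec φ₂ N l := by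
  unfold Z
  rw [← Finset.sum_add_distrib, Finset.mul_sum]
  refine Finset.sum_le_sum ?_
  intro w _
  have h1 := convexOn_exp.2 (Set.mem_univ (l * (φ₁ (pos vec w N) : ℝ)))
      (Set.mem_univ (l * (φ₂ (pos vec w N) : ℝ))) (by norm_num : (0 : ℝ) ≤ 1 / 2)
      (by norm_num : (0 : ℝ) ≤ 1 / 2) (by norm_num)
  simp only [smul_eq_mul] at h1
  have h2 : (φ (pos vec w N) : ℝ) = φ₁ (pos vec w N) + φ₂ (pos vec w N) := by
    exact_mod_cast h (pos vec w N)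
  have h3 : 1 / 2 * (l * (φ₁ (pos vec w N) : ℝ)) + 1 / 2 * (l * (φ₂ (pos vec w N) : ℝ)) =
      l / 2 * (φ (pos vec w N) : ℝ) := by
    rw [h2]
    ring
  rw [h3] at h1
  linarith

theorem Z_zero_le {vec : S → V} {φ : V →+ ℤ} {ν : Sym vec} (hν : ∀ v, φ (ν.L v) = - φ v)
    (N : ℕ) (l : ℝ) : Z vec φ N 0 ≤ Z vec φ N l := by
  have h1 := Z_avg_ge (vec := vec) (φ := (0 : V →+ ℤ)) (φ₁ := φ) (φ₂ := φ.comp ν.L)
    (fun v => by simp [hν]) N l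
  rw [Z_sym] at h1
  have h2 : Z vec (0 : V →+ ℤ) N l = Z vec φ N 0 := by simp [Z]
  rw [h2] at h1
  linarith

theorem Good.Lf_zero_le_Lf {vec : S → V} {φ : V →+ ℤ} (hφ : Good vec φ) {l : ℝ}
    (hl : 0 ≤ l) : Lf vec φ 0 ≤ Lf vec φ l := by
  obtain ⟨ρ, hρ⟩ := hφ.refl
  refine le_ciInf ?_
  intro q
  refine le_trans (ciInf_le (Lf_bdd hφ.e le_rfl) q) ?_
  have h4 : (0 : ℝ) < (q : ℝ) + 1 := by positivity
  refine div_le_div_of_nonneg_right ?_ h4.le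
  exact Real.log_le_log (Z_pos hφ.e _ le_rfl) (Z_zero_le hρ _ _)

/-- the drift -/
noncomputable def psi (vec : S → V) (φ : V →+ ℤ) (l : ℝ) : ℝ :=
  (Lf vec φ l - Lf vec φ 0) / l

theorem Good.psi_nonneg {vec : S → V} {φ : V →+ ℤ} (hφ : Good vec φ) {l : ℝ}
    (hl : 0 < l) : 0 ≤ psi vec φ l :=
  div_nonneg (sub_nonneg.2 (hφ.Lf_zero_le_Lf hl.le)) hl.le

theorem Good.psi_le_one {vec : S → V} {φ : V →+ ℤ} (hφ : Good vec φ) {l : ℝ}
    (hl : 0 < l) : psi vec φ l ≤ 1 := by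
  unfold psi
  rw [div_le_one hl]
  have := Lf_le_add hφ.lip hφ.e (le_refl 0) hl.le
  linarith

theorem Lf_eq {vec : S → V} {φ : V →+ ℤ} {l : ℝ}
    (hl : 0 < l) : Lf vec φ l = Lf vec φ 0 + l * psi vec φ l := by
  unfold psi
  field_simp
  ring

theorem Good.psi_mono {vec : S → V} {φ : V →+ ℤ} (hφ : Good vec φ) {l l' : ℝ}
    (hl : 0 < l) (hll : l ≤ l') (hl' : l' ≤ 1) : psi vec φ l ≤ psi vec φ l' := by
  have h0 : 0 < l' := lt_of_lt_of_le hl hll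
  have h1 := hφ.Lf_holder (l := l') (θ := l / l') h0.le hl' (by positivity)
    ((div_le_one h0).2 hll)
  rw [div_mul_cancel₀ _ h0.ne'] at h1
  have h2 := Lf_eq (vec := vec) (φ := φ) h0
  unfold psi
  unfold psi at h2
  rw [div_le_div_iff₀ hl h0]
  have h3 : Lf vec φ l - Lf vec φ 0 ≤ l / l' * (Lf vec φ l' - Lf vec φ 0) := by
    nlinarith
  have h4 : (Lf vec φ l - Lf vec φ 0) * l' ≤ l / l' * (Lf vec φ l' - Lf vec φ 0) * l' :=
    mul_le_mul_of_nonneg_right h3 h0.le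
  have h5 : l / l' * (Lf vec φ l' - Lf vec φ 0) * l' = (Lf vec φ l' - Lf vec φ 0) * l := by
    field_simp
  linarith

theorem psi_sym {vec : S → V} (φ : V →+ ℤ) (σ : Sym vec) (l : ℝ) :
    psi vec (φ.comp σ.L) l = psi vec φ l := by
  unfold psi
  rw [Lf_sym, Lf_sym]

/-- if `φ` is the average of two functionals with the same law as `φ₁` then its drift is
smaller -/
theorem psi_avg_le {vec : S → V} {φ φ₁ : V →+ ℤ} {σ : Sym vec} (hφ : ∃ e : S, φ (vec e) = 1)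
    (hφ₁ : ∃ e : S, φ₁ (vec e) = 1)
    (h : ∀ v, 2 * φ v = φ₁ v + φ₁ (σ.L v)) {l : ℝ} (hl : 0 < l) :
    psi vec φ l ≤ psi vec φ₁ l := by
  unfold psi
  refine div_le_div_of_nonneg_right ?_ hl.le
  rw [Lf_congr_zero vec φ φ₁]
  apply sub_le_sub_right
  refine le_ciInf ?_
  intro q
  refine le_trans (ciInf_le (Lf_bdd hφ hl.le) q) ?_
  have h4 : (0 : ℝ) < (q : ℝ) + 1 := by positivity
  refine div_le_div_of_nonneg_right ?_ h4.le
  apply Real.log_le_log (Z_pos hφ _ hl.le)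
  have h1 := Z_avg_ge (vec := vec) (φ := φ) (φ₁ := φ₁) (φ₂ := φ₁.comp σ.L) h (q + 1) l
  rw [Z_sym] at h1
  linarith

theorem psi_half_le {vec : S → V} {φ φ₁ : V →+ ℤ} {σ : Sym vec} (hφ : ∃ e : S, φ (vec e) = 1)
    (hφ₁ : ∃ e : S, φ₁ (vec e) = 1)
    (h : ∀ v, φ v = φ₁ v + φ₁ (σ.L v)) {l : ℝ} (hl : 0 < l) :
    psi vec φ (l / 2) ≤ 2 * psi vec φ₁ l := by
  have hl2 : 0 < l / 2 := by positivity
  have h1 : Lf vec φ (l / 2) ≤ Lf vec φ₁ l := by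
    refine le_ciInf ?_
    intro q
    refine le_trans (ciInf_le (Lf_bdd hφ hl2.le) q) ?_
    have h4 : (0 : ℝ) < (q : ℝ) + 1 := by positivity
    refine div_le_div_of_nonneg_right ?_ h4.le
    apply Real.log_le_log (Z_pos hφ _ hl2.le)
    have h1 := Z_half_le (vec := vec) (φ := φ) (φ₁ := φ₁) (φ₂ := φ₁.comp σ.L) h (q + 1) l
    rw [Z_sym] at h1
    linarith
  unfold psi
  rw [Lf_congr_zero vec φ φ₁, div_le_iff₀ hl2]
  have h2 : 2 * ((Lf vec φ₁ l - Lf vec φ₁ 0) / l) * (l / 2) = Lf vec φ₁ l - Lf vec φ₁ 0 := by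
    field_simp
  rw [h2]
  linarith

end Pool.Agent.SubBall
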