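import Pool.Agent.SubBall.HW2

/-! Free energies. -/

namespace Pool.Agent.SubBall

open Finset
open Classical

variable {S V : Type} [Fintype S] [Inhabited S] [AddCommGroup V]

/-- the functionals to which the Hammersley-Welsh argument applies -/
structure Good (vec : S → V) (φ : V →+ ℤ) : Prop where
  lip : Lip vec φ
  refl : ∃ ρ : Sym vec, ∀ v, φ (ρ.L v) = - φ v
  neg : ∃ ν : Sym vec, ∀ v, ν.L v = -v
  e : ∃ e : S, φ (vec e) = 1

theorem one_le_Z {vec : S → V} {φ : V →+ ℤ} {e : S} (he : φ (vec e) = 1) (N : ℕ) {l : ℝ}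
    (hl : 0 ≤ l) : 1 ≤ Z vec φ N l := by
  set w : ℕ → S := fun a => if a < N then e else default with hw
  have hpos : ∀ i ≤ N, φ (pos vec w i) = i := by
    intro i
    induction i with
    | zero => intro _; simp
    | succ i ih =>
      intro hi
      rw [pos_succ, map_add, ih (by omega)]
      have h1 : i < N := by omega
      simp only [hw, h1, if_true, he]
      push_cast
      ring
  have hmem : w ∈ saws vec N := by
    rw [mem_saws]
    refine ⟨?_, ?_⟩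
    · intro a ha
      simp [hw, not_lt.2 ha]
    · intro i j hij hj heq
      have h1 := hpos i (by omega)
      rw [heq, hpos j hj] at h1
      omega
  have h1 : Real.exp (l * (φ (pos vec w N) : ℝ)) ≤ Z vec φ N l := by
    unfold Z
    exact Finset.single_le_sum (f := fun w => Real.exp (l * (φ (pos vec w N) : ℝ)))
      (fun _ _ => (Real.exp_pos _).le) hmem
  refine le_trans ?_ h1
  rw [hpos N le_rfl]
  rw [← Real.exp_zero]
  apply Real.exp_le_exp.2
  positivity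

/-- the free energy -/
noncomputable def Lf (vec : S → V) (φ : V →+ ℤ) (l : ℝ) : ℝ :=
  ⨅ q : ℕ, Real.log (Z vec φ (q + 1) l) / ((q : ℝ) + 1)

theorem Lf_bdd {vec : S → V} {φ : V →+ ℤ} (hφ : ∃ e : S, φ (vec e) = 1) {l : ℝ}
    (hl : 0 ≤ l) :
    BddBelow (Set.range (fun q : ℕ => Real.log (Z vec φ (q + 1) l) / ((q : ℝ) + 1))) := by
  obtain ⟨e, he⟩ := hφ
  refine ⟨0, ?_⟩
  rintro _ ⟨q, rfl⟩
  have h1 := Real.log_nonneg (one_le_Z he (q + 1) hl)
  positivity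

theorem Z_pos {vec : S → V} {φ : V →+ ℤ} (hφ : ∃ e : S, φ (vec e) = 1) (N : ℕ) {l : ℝ}
    (hl : 0 ≤ l) : 0 < Z vec φ N l := by
  obtain ⟨e, he⟩ := hφ
  exact lt_of_lt_of_le one_pos (one_le_Z he N hl)

theorem exp_Lf_le_Z {vec : S → V} {φ : V →+ ℤ} (hφ : ∃ e : S, φ (vec e) = 1) (n : ℕ) {l : ℝ}
    (hl : 0 ≤ l) : Real.exp (n * Lf vec φ l) ≤ Z vec φ n l := by
  rcases Nat.eq_zero_or_pos n with h | h
  · subst h; simp [Z_zero]
  · obtain ⟨q, rfl⟩ : ∃ q, n = q + 1 := ⟨n - 1, by omega⟩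
    have h1 : Lf vec φ l ≤ Real.log (Z vec φ (q + 1) l) / ((q : ℝ) + 1) :=
      ciInf_le (Lf_bdd hφ hl) q
    have h2 : (0 : ℝ) < (q : ℝ) + 1 := by positivity
    rw [le_div_iff₀ h2] at h1
    rw [← Real.le_log_iff_exp_le (Z_pos hφ _ hl)]
    push_cast
    linarith

theorem Lf_nonneg {vec : S → V} {φ : V →+ ℤ} (hφ : ∃ e : S, φ (vec e) = 1) {l : ℝ}
    (hl : 0 ≤ l) : 0 ≤ Lf vec φ l := by
  obtain ⟨e, he⟩ := hφ
  refine le_ciInf ?_
  intro q
  have h1 := Real.log_nonneg (one_le_Z he (q + 1) hl)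
  positivity

theorem B_le_exp {vec : S → V} {φ : V →+ ℤ} (n : ℕ) {l : ℝ} :
    B vec φ n l ≤ Real.exp (n * Lf vec φ l) := by
  rcases Nat.eq_zero_or_pos n with h | h
  · subst h; simp [B_zero]
  · have hn : (0 : ℝ) < n := by exact_mod_cast h
    rcases eq_or_lt_of_le (B_nonneg vec φ n l) with h0 | h0
    · rw [← h0]; exact (Real.exp_pos _).le
    · rw [← Real.log_le_iff_le_exp h0]
      have h1 : Real.log (B vec φ n l) / n ≤ Lf vec φ l := by
        refine le_ciInf ?_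
        intro q
        have h2 := B_pow_le_Z_pow vec φ n (q + 1) l
        have h3 := Real.log_le_log (pow_pos h0 _) h2
        rw [Real.log_pow, Real.log_pow] at h3
        have h4 : (0 : ℝ) < (q : ℝ) + 1 := by positivity
        rw [div_le_div_iff₀ hn h4]
        push_cast at h3
        linarith
      rw [div_le_iff₀ hn] at h1
      linarith

theorem Good.Z_le {vec : S → V} {φ : V →+ ℤ} (hφ : Good vec φ) (n : ℕ) {l : ℝ}
    (hl : 0 ≤ l) : Z vec φ n l ≤ hw n * Real.exp ((n + 1) * Lf vec φ l) := by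
  obtain ⟨ρ, hρ⟩ := hφ.refl
  obtain ⟨ν, hν⟩ := hφ.neg
  obtain ⟨e, he⟩ := hφ.e
  refine le_trans (Z_le_hw_B hφ.lip ρ hρ ν hν he n hl) ?_
  have h1 := B_le_exp (vec := vec) (φ := φ) (n + 1) (l := l)
  push_cast at h1
  refine mul_le_mul_of_nonneg_left h1 ?_
  unfold hw
  positivity

theorem card_words_le (N : ℕ) : ((words S N).card : ℝ) ≤ (Fintype.card S : ℝ) ^ N := by
  unfold words
  have h1 := Finset.card_image_le (s := (Finset.univ : Finset (Fin N → S))) (f := ext0 N)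
  have h2 : (Finset.univ : Finset (Fin N → S)).card = (Fintype.card S) ^ N := by
    rw [Finset.card_univ, Fintype.card_fun, Fintype.card_fin]
  rw [h2] at h1
  exact_mod_cast h1

theorem Lf_zero_le {vec : S → V} {φ : V →+ ℤ} (hφ : ∃ e : S, φ (vec e) = 1) :
    Lf vec φ 0 ≤ Real.log (Fintype.card S) := by
  have h1 : Lf vec φ 0 ≤ Real.log (Z vec φ (0 + 1) 0) / (((0 : ℕ) : ℝ) + 1) :=
    ciInf_le (Lf_bdd hφ le_rfl) 0
  refine le_trans h1 ?_
  simp only [Nat.cast_zero, zero_add, div_one]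
  have h2 := Z_pos hφ 1 (le_refl (0 : ℝ))
  apply Real.log_le_log h2
  rw [card_saws_eq]
  have h3 : ((saws vec 1).card : ℝ) ≤ ((words S 1).card : ℝ) := by
    exact_mod_cast Finset.card_le_card (Finset.filter_subset _ _)
  refine le_trans h3 ?_
  have := card_words_le (S := S) 1
  simpa using this

theorem Z_le_exp_mul {vec : S → V} {φ : V →+ ℤ} (h : Lip vec φ) (N : ℕ) {l l' : ℝ}
    (hl : l ≤ l') : Z vec φ N l' ≤ Real.exp ((l' - l) * N) * Z vec φ N l := by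
  unfold Z
  rw [Finset.mul_sum]
  refine Finset.sum_le_sum ?_
  intro w _
  rw [← Real.exp_add]
  apply Real.exp_le_exp.2
  have h1 : ((φ (pos vec w N) : ℤ) : ℝ) ≤ N := by
    exact_mod_cast (abs_le.1 (h.abs_pos_le w N)).2
  nlinarith

theorem Lf_le_add {vec : S → V} {φ : V →+ ℤ} (h : Lip vec φ) (hφ : ∃ e : S, φ (vec e) = 1)
    {l l' : ℝ} (hl0 : 0 ≤ l) (hl : l ≤ l') : Lf vec φ l' ≤ Lf vec φ l + (l' - l) := by
  rw [← sub_le_iff_le_add]
  refine le_ciInf ?_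
  intro q
  have h1 : Lf vec φ l' ≤ Real.log (Z vec φ (q + 1) l') / ((q : ℝ) + 1) :=
    ciInf_le (Lf_bdd hφ (le_trans hl0 hl)) q
  have h2 := Z_le_exp_mul h (q + 1) hl
  have h3 := Real.log_le_log (Z_pos hφ (q + 1) (le_trans hl0 hl)) h2
  rw [Real.log_mul (Real.exp_pos _).ne' (Z_pos hφ (q + 1) hl0).ne', Real.log_exp] at h3
  have h4 : (0 : ℝ) < (q : ℝ) + 1 := by positivity
  rw [le_div_iff₀ h4] at h1 ⊢
  push_cast at h3
  nlinarith

/-- the error term -/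
noncomputable def AA (S : Type) [Fintype S] (n : ℕ) : ℝ :=
  Real.log (hw n) + Real.log (Fintype.card S) + 1

theorem Good.Z_le_exp {vec : S → V} {φ : V →+ ℤ} (hφ : Good vec φ) (n : ℕ) {l : ℝ}
    (hl : 0 ≤ l) (hl1 : l ≤ 1) : Z vec φ n l ≤ Real.exp (AA S n + n * Lf vec φ l) := by
  refine le_trans (hφ.Z_le n hl) ?_
  have h0 : 0 < hw n := by unfold hw; positivity
  have h1 := Lf_le_add hφ.lip hφ.e (le_refl 0) hl
  have h2 := Lf_zero_le hφ.e
  have h3 : hw n = Real.exp (Real.log (hw n)) := (Real.exp_log h0).symm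
  rw [h3, ← Real.exp_add]
  apply Real.exp_le_exp.2
  unfold AA
  nlinarith

theorem log_hw_le {n : ℕ} (hn : 1 ≤ n) : Real.log (hw n) ≤ 60 * (n : ℝ) ^ ((3 : ℝ) / 4) := by
  have hn1 : (1 : ℝ) ≤ n := by exact_mod_cast hn
  have hn0 : (0 : ℝ) < n := by linarith
  unfold hw
  rw [Real.log_mul (by positivity) (by positivity), Real.log_pow,
    Real.log_mul (Real.exp_pos _).ne' (by positivity), Real.log_exp, Real.log_pow]
  have h1 : Real.log ((n : ℝ) + 1) ≤ Real.log ((n : ℝ) + 2) :=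
    Real.log_le_log (by positivity) (by linarith)
  have h2 : Real.log ((n : ℝ) + 2) ≤ 8 * (n : ℝ) ^ ((1 : ℝ) / 4) := by
    have h3 := Real.log_le_rpow_div (x := (n : ℝ) + 2) (ε := 1 / 4) (by positivity)
      (by norm_num)
    have h4 : ((n : ℝ) + 2) ^ ((1 : ℝ) / 4) ≤ (16 * (n : ℝ)) ^ ((1 : ℝ) / 4) :=
      Real.rpow_le_rpow (by positivity) (by linarith) (by norm_num)
    rw [Real.mul_rpow (by norm_num) hn0.le] at h4
    have h5 : (16 : ℝ) ^ ((1 : ℝ) / 4) = 2 := by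
      rw [show (16 : ℝ) = 2 ^ (4 : ℝ) by norm_num, ← Real.rpow_mul (by norm_num)]
      norm_num
    rw [h5] at h4
    linarith
  have h6 : ((Nat.sqrt (2 * (n + 1)) : ℕ) : ℝ) ≤ 2 * (n : ℝ) ^ ((1 : ℝ) / 2) := by
    have h7 : ((Nat.sqrt (2 * (n + 1)) : ℕ) : ℝ) ^ 2 ≤ 4 * n := by
      have := Nat.sqrt_le' (2 * (n + 1))
      have h8 : ((Nat.sqrt (2 * (n + 1)) : ℕ) : ℝ) ^ 2 ≤ 2 * ((n : ℝ) + 1) := by
        exact_mod_cast this
      linarith
    have h9 : ((n : ℝ) ^ ((1 : ℝ) / 2)) ^ 2 = n := by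
      rw [← Real.rpow_natCast, ← Real.rpow_mul hn0.le]
      norm_num
    have h10 : (0 : ℝ) ≤ (n : ℝ) ^ ((1 : ℝ) / 2) := by positivity
    have h11 : ((Nat.sqrt (2 * (n + 1)) : ℕ) : ℝ) ^ 2 ≤ (2 * (n : ℝ) ^ ((1 : ℝ) / 2)) ^ 2 := by
      rw [mul_pow, h9]
      linarith
    exact le_of_sq_le_sq h11 (by positivity)
  have h12 : (n : ℝ) ^ ((1 : ℝ) / 2) * (n : ℝ) ^ ((1 : ℝ) / 4) = (n : ℝ) ^ ((3 : ℝ) / 4) := by
    rw [← Real.rpow_add hn0]
    norm_num
  have h13 : (1 : ℝ) ≤ (n : ℝ) ^ ((1 : ℝ) / 2) := Real.one_le_rpow hn1 (by norm_num)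
  have h14 : (1 : ℝ) ≤ (n : ℝ) ^ ((1 : ℝ) / 4) := Real.one_le_rpow hn1 (by norm_num)
  have h15 : (0 : ℝ) ≤ Real.log ((n : ℝ) + 2) := Real.log_nonneg (by linarith)
  have h16 : ((Nat.sqrt (2 * (n + 1)) : ℕ) : ℝ) * Real.log ((n : ℝ) + 2) ≤
      (2 * (n : ℝ) ^ ((1 : ℝ) / 2)) * (8 * (n : ℝ) ^ ((1 : ℝ) / 4)) :=
    mul_le_mul h6 h2 h15 (by positivity)
  rw [← h12]
  push_cast
  nlinarith [mul_nonneg (sub_nonneg.2 h13) (sub_nonneg.2 h14)]

/-- the constant in the error term -/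
noncomputable def KS (S : Type) [Fintype S] : ℝ := 61 + Real.log (Fintype.card S)

theorem KS_pos : 0 < KS S := by
  unfold KS
  have h : (1 : ℝ) ≤ Fintype.card S := by
    exact_mod_cast Fintype.card_pos
  have := Real.log_nonneg h
  linarith

theorem AA_le {n : ℕ} (hn : 1 ≤ n) : AA S n ≤ KS S * (n : ℝ) ^ ((3 : ℝ) / 4) := by
  have h1 := log_hw_le hn
  have hn1 : (1 : ℝ) ≤ n := by exact_mod_cast hn
  have h2 : (1 : ℝ) ≤ (n : ℝ) ^ ((3 : ℝ) / 4) := Real.one_le_rpow hn1 (by norm_num)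
  have h : (1 : ℝ) ≤ Fintype.card S := by
    exact_mod_cast Fintype.card_pos
  have h3 := Real.log_nonneg h
  unfold AA KS
  nlinarith

theorem tendsto_small (K : ℝ) :
    Filter.Tendsto (fun n : ℕ => K * (n : ℝ) ^ ((3 : ℝ) / 4) / n) Filter.atTop (nhds 0) := by
  have h1 : Filter.Tendsto (fun n : ℕ => (n : ℝ) ^ (-(1 / 4 : ℝ))) Filter.atTop (nhds 0) :=
    (tendsto_rpow_neg_atTop (by norm_num)).comp tendsto_natCast_atTop_atTop
  have h2 := h1.const_mul K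
  rw [mul_zero] at h2
  refine h2.congr' ?_
  filter_upwards [Filter.eventually_gt_atTop 0] with n hn
  have hn0 : (0 : ℝ) < n := by exact_mod_cast hn
  rw [mul_div_assoc]
  congr 1
  rw [eq_div_iff hn0.ne']
  nth_rewrite 2 [← Real.rpow_one (n : ℝ)]
  rw [← Real.rpow_add hn0]
  norm_num

theorem le_of_scaled {a b K : ℝ}
    (h : ∀ n : ℕ, 1 ≤ n → (n : ℝ) * a ≤ n * b + K * (n : ℝ) ^ ((3 : ℝ) / 4)) : a ≤ b := by
  have h1 := (tendsto_small K).const_add b
  rw [add_zero] at h1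
  refine ge_of_tendsto h1 ?_
  filter_upwards [Filter.eventually_ge_atTop 1] with n hn
  have hn0 : (0 : ℝ) < n := by exact_mod_cast hn
  have h2 := h n hn
  have h3 : b + K * (n : ℝ) ^ ((3 : ℝ) / 4) / n = (n * b + K * (n : ℝ) ^ ((3 : ℝ) / 4)) / n := by
    field_simp
  rw [h3, le_div_iff₀ hn0]
  linarith

end Pool.Agent.SubBall
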