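import Mathlib

/-! Walks in an abelian group as sequences of steps: basic definitions.

A walk of length `N` is a function `w : ℕ → S` (only the values below `N` matter, the other
values are the default step); `pos vec w i` is the position after `i` steps. -/

namespace Pool.Agent.SubBall

open Finset
open Classical

variable {S V : Type} [Fintype S] [Inhabited S] [AddCommGroup V]

/-- the position after `i` steps -/
def pos (vec : S → V) (w : ℕ → S) (i : ℕ) : V := ∑ a ∈ range i, vec (w a)

omit [Fintype S] [Inhabited S] in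
@[simp] theorem pos_zero (vec : S → V) (w : ℕ → S) : pos vec w 0 = 0 := by simp [pos]

omit [Fintype S] [Inhabited S] in
theorem pos_succ (vec : S → V) (w : ℕ → S) (i : ℕ) :
    pos vec w (i + 1) = pos vec w i + vec (w i) := by
  simp [pos, Finset.sum_range_succ]

omit [Fintype S] [Inhabited S] in
theorem pos_congr (vec : S → V) {w w' : ℕ → S} {i : ℕ} (h : ∀ a < i, w a = w' a) :
    pos vec w i = pos vec w' i := by
  unfold pos
  refine Finset.sum_congr rfl ?_
  intro a ha
  rw [h a (Finset.mem_range.1 ha)]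

/-- the walk from time `m` on -/
def sh (m : ℕ) (w : ℕ → S) : ℕ → S := fun a => w (m + a)

/-- the first `m` steps -/
def cut (m : ℕ) (w : ℕ → S) : ℕ → S := fun a => if a < m then w a else default

/-- first `m` steps of `u`, then `v` -/
def app (m : ℕ) (u v : ℕ → S) : ℕ → S := fun a => if a < m then u a else v (a - m)

omit [Fintype S] [Inhabited S] in
theorem pos_add (vec : S → V) (w : ℕ → S) (m i : ℕ) :
    pos vec w (m + i) = pos vec w m + pos vec (sh m w) i := by
  unfold pos sh
  rw [Finset.sum_range_add]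

omit [Fintype S] in
theorem pos_cut (vec : S → V) (w : ℕ → S) {m i : ℕ} (h : i ≤ m) :
    pos vec (cut m w) i = pos vec w i := by
  apply pos_congr
  intro a ha
  simp [cut, lt_of_lt_of_le ha h]

omit [Fintype S] [Inhabited S] in
theorem pos_app_le (vec : S → V) (u v : ℕ → S) {m i : ℕ} (h : i ≤ m) :
    pos vec (app m u v) i = pos vec u i := by
  apply pos_congr
  intro a ha
  simp [app, lt_of_lt_of_le ha h]

omit [Fintype S] [Inhabited S] in
theorem sh_app (m : ℕ) (u v : ℕ → S) : sh m (app m u v) = v := by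
  funext a
  simp [sh, app]

omit [Fintype S] [Inhabited S] in
theorem pos_app_add (vec : S → V) (u v : ℕ → S) (m i : ℕ) :
    pos vec (app m u v) (m + i) = pos vec u m + pos vec v i := by
  rw [pos_add, sh_app, pos_app_le vec u v le_rfl]

/-- extension of a finite sequence by the default step -/
def ext0 (N : ℕ) (f : Fin N → S) : ℕ → S := fun a => if h : a < N then f ⟨a, h⟩ else default

/-- all sequences of `N` steps -/
noncomputable def words (S : Type) [Fintype S] [Inhabited S] (N : ℕ) : Finset (ℕ → S) :=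
  (Finset.univ : Finset (Fin N → S)).image (ext0 N)

theorem mem_words {N : ℕ} {w : ℕ → S} : w ∈ words S N ↔ ∀ a, N ≤ a → w a = default := by
  unfold words
  rw [Finset.mem_image]
  constructor
  · rintro ⟨f, -, rfl⟩ a ha
    simp [ext0, not_lt.2 ha]
  · intro h
    refine ⟨fun a => w a, Finset.mem_univ _, ?_⟩
    funext a
    by_cases ha : a < N
    · simp [ext0, ha]
    · simp [ext0, ha, h a (not_lt.1 ha)]

/-- self-avoiding up to time `N` -/
def Saw (vec : S → V) (N : ℕ) (w : ℕ → S) : Prop :=
  ∀ i j, i < j → j ≤ N → pos vec w i ≠ pos vec w j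

/-- the self-avoiding walks of length `N` -/
noncomputable def saws (vec : S → V) (N : ℕ) : Finset (ℕ → S) :=
  (words S N).filter (fun w => Saw vec N w)

theorem mem_saws {vec : S → V} {N : ℕ} {w : ℕ → S} :
    w ∈ saws vec N ↔ (∀ a, N ≤ a → w a = default) ∧ Saw vec N w := by
  unfold saws
  rw [Finset.mem_filter, mem_words]

omit [Fintype S] in
theorem Saw.cut {vec : S → V} {m n : ℕ} {w : ℕ → S} (h : Saw vec (m + n) w) :
    Saw vec m (cut m w) := by
  intro i j hij hj
  rw [pos_cut vec w (by omega), pos_cut vec w hj]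
  exact h i j hij (by omega)

omit [Fintype S] [Inhabited S] in
theorem Saw.sh {vec : S → V} {m n : ℕ} {w : ℕ → S} (h : Saw vec (m + n) w) :
    Saw vec n (sh m w) := by
  intro i j hij hj heq
  refine h (m + i) (m + j) (by omega) (by omega) ?_
  rw [pos_add, pos_add, heq]

theorem cut_mem_saws {vec : S → V} {m n : ℕ} {w : ℕ → S} (h : w ∈ saws vec (m + n)) :
    cut m w ∈ saws vec m := by
  rw [mem_saws] at h ⊢
  refine ⟨?_, h.2.cut⟩
  intro a ha
  simp [SubBall.cut, not_lt.2 ha]

theorem sh_mem_saws {vec : S → V} {m n : ℕ} {w : ℕ → S} (h : w ∈ saws vec (m + n)) :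
    sh m w ∈ saws vec n := by
  rw [mem_saws] at h ⊢
  refine ⟨?_, h.2.sh⟩
  intro a ha
  exact h.1 (m + a) (by omega)

omit [Fintype S] in
theorem eq_of_cut_sh {m : ℕ} {w w' : ℕ → S} (h1 : cut m w = cut m w') (h2 : sh m w = sh m w') :
    w = w' := by
  funext a
  by_cases ha : a < m
  · have := congrFun h1 a
    simpa [SubBall.cut, ha] using this
  · have := congrFun h2 (a - m)
    have e : m + (a - m) = a := by omega
    simpa [SubBall.sh, e] using this

/-- splitting a sum over self-avoiding walks -/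
theorem sum_split_le (vec : S → V) (m n : ℕ) (F : (ℕ → S) → (ℕ → S) → ℝ)
    (hF : ∀ u v, 0 ≤ F u v) :
    ∑ w ∈ saws vec (m + n), F (cut m w) (sh m w) ≤
      ∑ u ∈ saws vec m, ∑ v ∈ saws vec n, F u v := by
  rw [← Finset.sum_product']
  have hinj : Set.InjOn (fun w : ℕ → S => ((cut m w, sh m w) : (ℕ → S) × (ℕ → S)))
      (saws vec (m + n) : Set (ℕ → S)) := by
    intro w _ w' _ h
    simp only [Prod.mk.injEq] at h
    exact eq_of_cut_sh h.1 h.2
  calc ∑ w ∈ saws vec (m + n), F (cut m w) (sh m w)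
      = ∑ p ∈ (saws vec (m + n)).image (fun w => ((cut m w, sh m w) : (ℕ → S) × (ℕ → S))),
          F p.1 p.2 := by
        rw [Finset.sum_image hinj]
    _ ≤ ∑ p ∈ saws vec m ×ˢ saws vec n, F p.1 p.2 := by
        refine Finset.sum_le_sum_of_subset_of_nonneg ?_ (fun _ _ _ => hF _ _)
        intro p hp
        rw [Finset.mem_image] at hp
        obtain ⟨w, hw, rfl⟩ := hp
        exact Finset.mem_product.2 ⟨cut_mem_saws hw, sh_mem_saws hw⟩

/-- a general counting tool: a weighted sum is at most another one if there is an injection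
increasing the weights -/
theorem sum_le_sum_inj {α β : Type} (s : Finset α) (t : Finset β) (f : α → β) (F : α → ℝ)
    (G : β → ℝ) (hf : ∀ a ∈ s, f a ∈ t) (hinj : Set.InjOn f (s : Set α))
    (hFG : ∀ a ∈ s, F a ≤ G (f a)) (hG : ∀ b ∈ t, 0 ≤ G b) :
    ∑ a ∈ s, F a ≤ ∑ b ∈ t, G b := by
  calc ∑ a ∈ s, F a ≤ ∑ a ∈ s, G (f a) := Finset.sum_le_sum hFG
    _ = ∑ b ∈ s.image f, G b := by rw [Finset.sum_image hinj]
    _ ≤ ∑ b ∈ t, G b := by
        refine Finset.sum_le_sum_of_subset_of_nonneg ?_ (fun b hb _ => hG b hb)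
        intro b hb
        rw [Finset.mem_image] at hb
        obtain ⟨a, ha, rfl⟩ := hb
        exact hf a ha

/-- the exponential weights -/
noncomputable def Z (vec : S → V) (φ : V →+ ℤ) (N : ℕ) (l : ℝ) : ℝ :=
  ∑ w ∈ saws vec N, Real.exp (l * (φ (pos vec w N) : ℝ))

theorem Z_nonneg (vec : S → V) (φ : V →+ ℤ) (N : ℕ) (l : ℝ) : 0 ≤ Z vec φ N l :=
  Finset.sum_nonneg (fun _ _ => (Real.exp_pos _).le)

theorem Z_add_le (vec : S → V) (φ : V →+ ℤ) (m n : ℕ) (l : ℝ) :
    Z vec φ (m + n) l ≤ Z vec φ m l * Z vec φ n l := by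
  have h := sum_split_le vec m n (fun u v => Real.exp (l * (φ (pos vec u m) : ℝ)) *
    Real.exp (l * (φ (pos vec v n) : ℝ))) (fun _ _ => by positivity)
  unfold Z
  rw [Finset.sum_mul_sum]
  refine le_trans (le_of_eq ?_) h
  refine Finset.sum_congr rfl ?_
  intro w _
  rw [← Real.exp_add, pos_cut vec w le_rfl, pos_add, map_add]
  push_cast
  ring_nf

theorem saws_zero (vec : S → V) : saws vec 0 = {fun _ => (default : S)} := by
  ext w
  rw [mem_saws, Finset.mem_singleton]
  constructor
  · intro h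
    funext a
    exact h.1 a (Nat.zero_le a)
  · rintro rfl
    exact ⟨fun _ _ => rfl, fun i j hij hj => by omega⟩

theorem Z_zero (vec : S → V) (φ : V →+ ℤ) (l : ℝ) : Z vec φ 0 l = 1 := by
  unfold Z
  rw [saws_zero]
  simp

theorem Z_mul_le (vec : S → V) (φ : V →+ ℤ) (m n : ℕ) (l : ℝ) :
    Z vec φ (m * n) l ≤ Z vec φ m l ^ n := by
  induction n with
  | zero => simp [Z_zero]
  | succ n ih =>
    rw [Nat.mul_succ, pow_succ]
    exact le_trans (Z_add_le _ _ _ _ _)
      (mul_le_mul_of_nonneg_right ih (Z_nonneg _ _ _ _))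

/-- functionals that change by at most one in every step -/
def Lip (vec : S → V) (φ : V →+ ℤ) : Prop := ∀ s, |φ (vec s)| ≤ 1

omit [Fintype S] [Inhabited S] in
theorem Lip.abs_pos_le {vec : S → V} {φ : V →+ ℤ} (h : Lip vec φ) (w : ℕ → S) (i : ℕ) :
    |φ (pos vec w i)| ≤ i := by
  induction i with
  | zero => simp
  | succ i ih =>
    rw [pos_succ, map_add]
    refine le_trans (abs_add_le _ _) ?_
    push_cast
    exact add_le_add ih (h _)

theorem card_saws_eq (vec : S → V) (φ : V →+ ℤ) (N : ℕ) : Z vec φ N 0 = (saws vec N).card := by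
  simp [Z]

end Pool.Agent.SubBall
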