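import Pool.Agent.SubBall.Core

/-! The contradiction, assembled. -/

namespace Pool.Agent.SubBall

open Finset
open Classical

variable {S V : Type} [Fintype S] [Inhabited S] [AddCommGroup V]

/-- number of calm blocks without cuts -/
noncomputable def cc (vec : S → V) (k : V →+ ℤ) (n M : ℕ) (P : (ℕ → S) → Prop)
    (w : ℕ → S) : Finset ℕ :=
  (range (3 * M)).filter (fun b => P (blk n b w) ∧
    ¬ HasCut (Kp vec k w) (n * (3 * M)) n b)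

theorem core {vec : S → V} {k g : V →+ ℤ} {c : ℤ} (ρ σ : Sym vec)
    (hk : ∀ v, k (ρ.L v) = - k v) (hg : ∀ v, g (ρ.L v) = g v - c * k v) (hc : 1 ≤ c)
    (hσ : ∀ v, k (σ.L v) = k v) (hgood : Good vec g) (hlip : Lip vec k)
    (F : (ℕ → S) → Prop) {n A : ℕ} (hn : 1 ≤ n) (hA : 2 ≤ A) {l₁ v vg : ℝ}
    (hl₁ : 1 / (6 * (n : ℝ)) ≤ l₁) (hl₁' : l₁ ≤ 1) (hv : 0 < v) (hvg : v ≤ vg)
    (hvg' : vg ≤ 3 * v) (hvg1 : vg ≤ 1)
    (hL₁ : Lf vec g l₁ ≤ Lf vec g 0 + l₁ * vg)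
    (hL₂ : Lf vec g 0 + 1 / (6 * (n : ℝ)) * ((1 - 1 / 10 ^ 6) * vg) ≤
      Lf vec g (1 / (6 * (n : ℝ))))
    (hF : (((saws vec n).filter F).card : ℝ) ≤
      4 * Real.exp (n * Lf vec g 0 + AA S n - 2 * (1 / 10 ^ 6) * l₁ * v * n))
    (h3 : 2 ≤ 1 / 10 ^ 6 * l₁ * v * n)
    (h4 : AA S n + 2 ≤ 1 / 10 ^ 12 * l₁ * v ^ 2 * n)
    (h5 : 2 * Real.log A / A ≤ l₁ / 8) (h5' : 1 / (A : ℝ) ≤ l₁ * v / 80000)
    (h6 : 16000 * (A : ℝ) ^ 3 ≤ v * n)
    (hcalm1 : ∀ w ∈ saws vec n, ¬ F w → (g (pos vec w n) : ℝ) ≤ (1 + 2 / 10 ^ 6) * vg * n ∧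
      - (k (pos vec w n) : ℝ) ≤ 2 * v * n)
    (hcalm2 : ∀ w ∈ saws vec n, ¬ F w → (1 - 1 / 25) * vg * n ≤ (g (pos vec w n) : ℝ) →
      v / 10 * n ≤ (k (pos vec w n) : ℝ) ∧
        (g (pos vec (refl σ (seg 0 n) w) n) : ℝ) < (1 - 1 / 25) * vg * n) : False := by
  have hn0 : (0 : ℝ) < n := by exact_mod_cast hn
  set l₂ : ℝ := 1 / (6 * (n : ℝ)) with hl₂
  have hl₂0 : 0 < l₂ := by positivity
  have hvg0 : 0 < vg := by linarith
  have hl₁0 : 0 < l₁ := by linarith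
  have hA1 : (2 : ℝ) ≤ A := by exact_mod_cast hA
  -- choice of the number of blocks
  obtain ⟨N1, hN1⟩ := AA_small S (show 0 < l₂ * (1 / 10 ^ 6) * vg by positivity) 3
  obtain ⟨N2, hN2⟩ := AA_small S (show 0 < l₁ * v / 40000 by positivity) 3
  obtain ⟨M, hM1, hM2, hM3⟩ : ∃ M : ℕ, 20 ≤ M ∧ N1 ≤ M ∧ N2 ≤ M :=
    ⟨20 + N1 + N2, by omega, by omega, by omega⟩
  set N := n * (3 * M) with hN
  have hMN : M ≤ N := by
    rw [hN]
    calc M ≤ 1 * (3 * M) := by omega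
      _ ≤ n * (3 * M) := Nat.mul_le_mul_right _ hn
  have hAA1 : AA S N ≤ N * (l₂ * (1 / 10 ^ 6) * vg) - 3 := by
    have := hN1 N (by omega)
    linarith
  have hAA2 : AA S N ≤ N * (l₁ * v / 40000) - 3 := by
    have := hN2 N (by omega)
    linarith
  have hM0 : (20 : ℝ) ≤ M := by exact_mod_cast hM1
  have hNR : (N : ℝ) = n * (3 * M) := by rw [hN]; push_cast; ring
  obtain ⟨P, hP⟩ : ∃ P : (ℕ → S) → Prop, ∀ u, P u ↔
      (¬ F u ∧ (1 - 1 / 25) * vg * n ≤ (g (pos vec u n) : ℝ)) := ⟨_, fun _ => Iff.rfl⟩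
  set W := saws vec N with hW
  set f : (ℕ → S) → ℝ := fun w => Real.exp (l₂ * (g (pos vec w N) : ℝ)) with hf
  have hf0 : ∀ w, 0 ≤ f w := fun w => (Real.exp_pos _).le
  set Z2 := Z vec g N l₂ with hZ2
  have hZ2' : Z2 = ∑ w ∈ W, f w := rfl
  have hZ2pos : 0 < Z2 := Z_pos hgood.e N hl₂0.le
  -- the five sets
  set T1 := W.filter (fun w => (g (pos vec w N) : ℝ) ≤ (1 - 2 / 10 ^ 6) * vg * N) with hT1
  set T2 := W.filter (fun w => v / 10 ^ 6 * ((3 * M : ℕ) : ℝ) ≤ cnt n (3 * M) F w) with hT2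
  set T3 := W.filter (fun w => (1 - 2 / 10 ^ 6) * vg * N ≤ (g (pos vec w N) : ℝ) ∧
    v / 10 ^ 4 * N ≤ (DD vec k N A w : ℝ)) with hT3
  set T4 := W.filter (fun w => (1 - 2 / 10 ^ 6) * vg * N ≤ (g (pos vec w N) : ℝ) ∧
    (cnt n (3 * M) F w : ℝ) ≤ v / 10 ^ 6 * ((3 * M : ℕ) : ℝ) ∧
    (DD vec k N A w : ℝ) ≤ v / 10 ^ 4 * N ∧
    1 / 50 * ((3 * M : ℕ) : ℝ) ≤ ((cc vec k n M P w).card : ℝ)) with hT4
  set T5 := W.filter (fun w => (1 - 2 / 10 ^ 6) * vg * N ≤ (g (pos vec w N) : ℝ) ∧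
    (cnt n (3 * M) F w : ℝ) ≤ v / 10 ^ 6 * ((3 * M : ℕ) : ℝ) ∧
    ((cc vec k n M P w).card : ℝ) ≤ 1 / 50 * ((3 * M : ℕ) : ℝ)) with hT5
  have hcover : Z2 ≤ ∑ w ∈ T1, f w + ∑ w ∈ T2, f w + ∑ w ∈ T3, f w + ∑ w ∈ T4, f w +
      ∑ w ∈ T5, f w := by
    rw [hZ2', hT1, hT2, hT3, hT4, hT5]
    simp only [Finset.sum_filter]
    rw [← Finset.sum_add_distrib, ← Finset.sum_add_distrib, ← Finset.sum_add_distrib,
      ← Finset.sum_add_distrib]
    refine Finset.sum_le_sum ?_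
    intro w _
    have hfw := hf0 w
    have hnn : ∀ p : Prop, 0 ≤ (if p then f w else 0) := by
      intro p
      by_cases hp : p <;> simp [hp, hfw]
    rcases le_total (g (pos vec w N) : ℝ) ((1 - 2 / 10 ^ 6) * vg * N) with a1 | a1
    · rw [if_pos a1]
      have := hnn (v / 10 ^ 6 * ((3 * M : ℕ) : ℝ) ≤ cnt n (3 * M) F w)
      have := hnn ((1 - 2 / 10 ^ 6) * vg * N ≤ (g (pos vec w N) : ℝ) ∧
        v / 10 ^ 4 * N ≤ (DD vec k N A w : ℝ))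
      have := hnn ((1 - 2 / 10 ^ 6) * vg * N ≤ (g (pos vec w N) : ℝ) ∧
        (cnt n (3 * M) F w : ℝ) ≤ v / 10 ^ 6 * ((3 * M : ℕ) : ℝ) ∧
        (DD vec k N A w : ℝ) ≤ v / 10 ^ 4 * N ∧
        1 / 50 * ((3 * M : ℕ) : ℝ) ≤ ((cc vec k n M P w).card : ℝ))
      have := hnn ((1 - 2 / 10 ^ 6) * vg * N ≤ (g (pos vec w N) : ℝ) ∧
        (cnt n (3 * M) F w : ℝ) ≤ v / 10 ^ 6 * ((3 * M : ℕ) : ℝ) ∧
        ((cc vec k n M P w).card : ℝ) ≤ 1 / 50 * ((3 * M : ℕ) : ℝ))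
      linarith
    · have b1 := hnn ((g (pos vec w N) : ℝ) ≤ (1 - 2 / 10 ^ 6) * vg * N)
      rcases le_total (v / 10 ^ 6 * ((3 * M : ℕ) : ℝ)) (cnt n (3 * M) F w : ℝ) with a2 | a2
      · rw [if_pos a2]
        have := hnn ((1 - 2 / 10 ^ 6) * vg * N ≤ (g (pos vec w N) : ℝ) ∧
          v / 10 ^ 4 * N ≤ (DD vec k N A w : ℝ))
        have := hnn ((1 - 2 / 10 ^ 6) * vg * N ≤ (g (pos vec w N) : ℝ) ∧
          (cnt n (3 * M) F w : ℝ) ≤ v / 10 ^ 6 * ((3 * M : ℕ) : ℝ) ∧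
          (DD vec k N A w : ℝ) ≤ v / 10 ^ 4 * N ∧
          1 / 50 * ((3 * M : ℕ) : ℝ) ≤ ((cc vec k n M P w).card : ℝ))
        have := hnn ((1 - 2 / 10 ^ 6) * vg * N ≤ (g (pos vec w N) : ℝ) ∧
          (cnt n (3 * M) F w : ℝ) ≤ v / 10 ^ 6 * ((3 * M : ℕ) : ℝ) ∧
          ((cc vec k n M P w).card : ℝ) ≤ 1 / 50 * ((3 * M : ℕ) : ℝ))
        linarith
      · have b2 := hnn (v / 10 ^ 6 * ((3 * M : ℕ) : ℝ) ≤ cnt n (3 * M) F w)
        rcases le_total (v / 10 ^ 4 * (N : ℝ)) (DD vec k N A w : ℝ) with a3 | a3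
        · rw [if_pos (show (1 - 2 / 10 ^ 6) * vg * N ≤ (g (pos vec w N) : ℝ) ∧
            v / 10 ^ 4 * N ≤ (DD vec k N A w : ℝ) from ⟨a1, a3⟩)]
          have := hnn ((1 - 2 / 10 ^ 6) * vg * N ≤ (g (pos vec w N) : ℝ) ∧
            (cnt n (3 * M) F w : ℝ) ≤ v / 10 ^ 6 * ((3 * M : ℕ) : ℝ) ∧
            (DD vec k N A w : ℝ) ≤ v / 10 ^ 4 * N ∧
            1 / 50 * ((3 * M : ℕ) : ℝ) ≤ ((cc vec k n M P w).card : ℝ))
          have := hnn ((1 - 2 / 10 ^ 6) * vg * N ≤ (g (pos vec w N) : ℝ) ∧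
            (cnt n (3 * M) F w : ℝ) ≤ v / 10 ^ 6 * ((3 * M : ℕ) : ℝ) ∧
            ((cc vec k n M P w).card : ℝ) ≤ 1 / 50 * ((3 * M : ℕ) : ℝ))
          linarith
        · have b3 := hnn ((1 - 2 / 10 ^ 6) * vg * N ≤ (g (pos vec w N) : ℝ) ∧
            v / 10 ^ 4 * N ≤ (DD vec k N A w : ℝ))
          rcases le_total (1 / 50 * ((3 * M : ℕ) : ℝ)) ((cc vec k n M P w).card : ℝ) with
            a4 | a4
          · rw [if_pos (show (1 - 2 / 10 ^ 6) * vg * N ≤ (g (pos vec w N) : ℝ) ∧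
              (cnt n (3 * M) F w : ℝ) ≤ v / 10 ^ 6 * ((3 * M : ℕ) : ℝ) ∧
              (DD vec k N A w : ℝ) ≤ v / 10 ^ 4 * N ∧
              1 / 50 * ((3 * M : ℕ) : ℝ) ≤ ((cc vec k n M P w).card : ℝ) from
                ⟨a1, a2, a3, a4⟩)]
            have := hnn ((1 - 2 / 10 ^ 6) * vg * N ≤ (g (pos vec w N) : ℝ) ∧
              (cnt n (3 * M) F w : ℝ) ≤ v / 10 ^ 6 * ((3 * M : ℕ) : ℝ) ∧
              ((cc vec k n M P w).card : ℝ) ≤ 1 / 50 * ((3 * M : ℕ) : ℝ))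
            linarith
          · have b4 := hnn ((1 - 2 / 10 ^ 6) * vg * N ≤ (g (pos vec w N) : ℝ) ∧
              (cnt n (3 * M) F w : ℝ) ≤ v / 10 ^ 6 * ((3 * M : ℕ) : ℝ) ∧
              (DD vec k N A w : ℝ) ≤ v / 10 ^ 4 * N ∧
              1 / 50 * ((3 * M : ℕ) : ℝ) ≤ ((cc vec k n M P w).card : ℝ))
            rw [if_pos (show (1 - 2 / 10 ^ 6) * vg * N ≤ (g (pos vec w N) : ℝ) ∧
              (cnt n (3 * M) F w : ℝ) ≤ v / 10 ^ 6 * ((3 * M : ℕ) : ℝ) ∧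
              ((cc vec k n M P w).card : ℝ) ≤ 1 / 50 * ((3 * M : ℕ) : ℝ) from
                ⟨a1, a2, a4⟩)]
            linarith
  -- the masses
  have m1 : ∑ w ∈ T1, f w ≤ 1 / 20 * Z2 :=
    slow_mass hgood hl₂0 hL₂ hAA1 T1 (Finset.filter_subset _ _)
      (fun w hw => (Finset.mem_filter.1 hw).2)
  have m2 : ∑ w ∈ T2, f w ≤ 1 / 20 * Z2 :=
    fast_mass hgood F hn hv hl₁0.le hF h3 h4 (by omega) T2 (Finset.filter_subset _ _)
      (fun w hw => (Finset.mem_filter.1 hw).2)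
  have m3 : ∑ w ∈ T3, f w ≤ 1 / 20 * Z2 :=
    zig_mass ρ hk hg hc hgood hA hl₂0 hl₁ hl₁' hv hvg0.le hvg' hL₁ hL₂ h5 h5' hAA2 T3
      (Finset.filter_subset _ _) (fun w hw => (Finset.mem_filter.1 hw).2.1)
      (fun w hw => (Finset.mem_filter.1 hw).2.2)
  -- the fraction of noncalm blocks
  have hquiet : ∀ w ∈ W, (1 - 2 / 10 ^ 6) * vg * N ≤ (g (pos vec w N) : ℝ) →
      (cnt n (3 * M) F w : ℝ) ≤ v / 10 ^ 6 * ((3 * M : ℕ) : ℝ) →
      (cnt n (3 * M) (fun u => ¬ P u) w : ℝ) ≤ 3 / 20000 * ((3 * M : ℕ) : ℝ) := by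
    intro w hw a1 a2
    refine few_slow hgood.lip hw hn F P hv hvg hvg1 (fun u hu hu' => (hcalm1 u hu hu').1) ?_
      ?_ a2
    · intro u _ hu1 hu2
      by_contra hcon
      exact hu2 ((hP u).2 ⟨hu1, (not_le.1 hcon).le⟩)
    · rw [hNR] at a1
      push_cast
      exact a1
  have m4 : ∑ w ∈ T4, f w ≤ 1 / 8 * Z2 := by
    have e1 := exchange ρ hlip hk hg (by omega : 0 ≤ c) (show 0 < A by omega) hl₂0.le n
      (3 * M) T4 (Finset.filter_subset _ _)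
    have e2 : ∀ w ∈ T4, 8 * (((3 * M : ℕ) : ℝ) * (A : ℝ) ^ 3) ≤
        ((gps vec k n (3 * M) A w).card : ℝ) := by
      intro w hw
      obtain ⟨hwW, a1, a2, a3, a4⟩ := Finset.mem_filter.1 hw
      have a5 := hquiet w hwW a1 a2
      have a6 := downs_le hlip hwW F P hv (fun u hu hu' => (hcalm1 u hu hu').2) (by
        intro u hu hu'
        have := (hcalm2 u hu ((hP u).1 hu').1 ((hP u).1 hu').2).1
        have : 0 ≤ v / 10 * n := by positivity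
        linarith) a2 a5
      have a7 := gps_card_ge hlip (show 0 < A by omega) n (3 * M) w (cc vec k n M P w)
        (Finset.filter_subset _ _) (h := v / 10 * n)
        (fun b hb => (Finset.mem_filter.1 hb).2.2) (by
          intro b hb
          have hb' := Finset.mem_filter.1 hb
          have hbm := blk_mem hwW (Finset.mem_range.1 hb'.1)
          have hb3 := (hP _).1 hb'.2.1
          have hb2 := (hcalm2 _ hbm hb3.1 hb3.2).1
          rw [pos_blk_n, map_sub] at hb2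
          push_cast at hb2
          exact hb2)
      refine le_trans ?_ a7
      rw [← hN]
      have a8 : 2 * (A : ℝ) ≤ v / 20 * n := by
        have : (A : ℝ) ≤ (A : ℝ) ^ 3 := by
          have := pow_le_pow_right₀ (show (1 : ℝ) ≤ A by linarith) (show 1 ≤ 3 by norm_num)
          simpa using this
        linarith
      have a9 : 1 / 50 * ((3 * M : ℕ) : ℝ) * (v / 10 * n - 2 * A) ≤
          ((cc vec k n M P w).card : ℝ) * (v / 10 * n - 2 * A) := by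
        apply mul_le_mul_of_nonneg_right a4
        have : 0 ≤ v / 20 * n := by positivity
        linarith
      have a10 : (0 : ℝ) ≤ ((3 * M : ℕ) : ℝ) := Nat.cast_nonneg _
      have a11 : ((3 * M : ℕ) : ℝ) * (2 * A) ≤ ((3 * M : ℕ) : ℝ) * (v / 20 * n) :=
        mul_le_mul_of_nonneg_left a8 a10
      have a12 : ((3 * M : ℕ) : ℝ) * (16000 * (A : ℝ) ^ 3) ≤ ((3 * M : ℕ) : ℝ) * (v * n) :=
        mul_le_mul_of_nonneg_left h6 a10
      have a13 : (N : ℝ) = n * ((3 * M : ℕ) : ℝ) := by rw [hN]; push_cast; ring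
      have a14 : 0 ≤ ((3 * M : ℕ) : ℝ) * (v * n) := by positivity
      rw [a13] at a3
      linarith
    have e3 : 8 * (((3 * M : ℕ) : ℝ) * (A : ℝ) ^ 3) * ∑ w ∈ T4, f w ≤
        ((3 * M : ℕ) : ℝ) * (A : ℝ) ^ 3 * Z2 := by
      refine le_trans ?_ e1
      rw [Finset.mul_sum]
      refine Finset.sum_le_sum ?_
      intro w hw
      exact mul_le_mul_of_nonneg_right (e2 w hw) (hf0 w)
    have e4 : (0 : ℝ) < ((3 * M : ℕ) : ℝ) * (A : ℝ) ^ 3 := by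
      have : (0 : ℝ) < ((3 * M : ℕ) : ℝ) := by push_cast; linarith
      positivity
    have e5 : (((3 * M : ℕ) : ℝ) * (A : ℝ) ^ 3) * (8 * ∑ w ∈ T4, f w) ≤
        (((3 * M : ℕ) : ℝ) * (A : ℝ) ^ 3) * Z2 := by linarith
    have := le_of_mul_le_mul_left e5 e4
    linarith
  have m5 : 1 / 2 * Z2 ≤ ∑ w ∈ T5, f w := by linarith
  -- the kink
  have e1 := kink σ hσ hgood.lip P (fun u => ¬ P u) n M (by
      intro u hu hPu hPu'
      have h1 := (hcalm2 u hu ((hP u).1 hPu).1 ((hP u).1 hPu).2).2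
      exact absurd ((hP _).1 hPu').2 (not_le.2 h1)) hl₂0.le T5 (Finset.filter_subset _ _)
    (m := 9 / 10 * M) (u := 3 / 20000 * ((3 * M : ℕ) : ℝ)) (by
      intro w hw
      obtain ⟨hwW, a1, a2, a3⟩ := Finset.mem_filter.1 hw
      have a5 := hquiet w hwW a1 a2
      have a6 := trips_ge vec k n M P w
      refine le_trans ?_ a6
      have a7 : (((range (3 * M)).filter (fun b => P (blk n b w) ∧
          ¬ HasCut (Kp vec k w) (n * (3 * M)) n b)).card : ℝ) =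
          ((cc vec k n M P w).card : ℝ) := rfl
      rw [a7]
      push_cast at a3 a5
      linarith) (by
      intro w hw
      obtain ⟨hwW, a1, a2, a3⟩ := Finset.mem_filter.1 hw
      exact hquiet w hwW a1 a2) (by positivity)
  have e2 : 6 * l₂ * n = 1 := by
    rw [hl₂]; field_simp
  rw [e2] at e1
  have e3 : Real.exp 1 ≤ 2.72 := by
    have := Real.exp_one_lt_d9
    linarith
  have e4 : (3 / 20000 * ((3 * M : ℕ) : ℝ) + 3) * (Real.exp 1 * Z2) ≤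
      (3 / 20000 * ((3 * M : ℕ) : ℝ) + 3) * (2.72 * Z2) := by
    apply mul_le_mul_of_nonneg_left _ (by positivity)
    exact mul_le_mul_of_nonneg_right e3 hZ2pos.le
  have e5 : 9 / 10 * (M : ℝ) * (1 / 2 * Z2) ≤ 9 / 10 * M * ∑ w ∈ T5, f w :=
    mul_le_mul_of_nonneg_left m5 (by positivity)
  have e6 : Z2 * (9 / 20 * (M : ℝ)) ≤ Z2 * ((3 / 20000 * (3 * M) + 3) * 2.72) := by
    have := le_trans e5 (le_trans e1 e4)
    push_cast at this
    linarith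
  have e7 := le_of_mul_le_mul_left e6 hZ2pos
  linarith

end Pool.Agent.SubBall
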