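import Pool.Agent.SubBall.Kink

/-! Counting the good pairs of a walk. -/

namespace Pool.Agent.SubBall

open Finset
open Classical

/-- one step of the telescoping identity -/
theorem cross_step (X : Finset ℤ) (a b : ℤ) :
    (((X.filter (fun c => a ≤ c ∧ c < b)).card : ℤ) : ℤ) =
      (X.filter (fun c => a ≤ c)).card - (X.filter (fun c => b ≤ c)).card +
        (X.filter (fun c => b ≤ c ∧ c < a)).card := by
  simp only [Finset.card_filter]
  push_cast
  rw [← Finset.sum_sub_distrib, ← Finset.sum_add_distrib]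
  refine Finset.sum_congr rfl ?_
  intro c _
  by_cases h1 : a ≤ c <;> by_cases h2 : b ≤ c <;>
    simp [h1, h2, not_lt.2, lt_of_not_ge]

theorem cross_sum (X : Finset ℤ) (κ : ℕ → ℤ) (M : ℕ) :
    ∑ b ∈ range M, (((X.filter (fun c => κ b ≤ c ∧ c < κ (b + 1))).card : ℤ)) ≤
      (X.filter (fun c => κ 0 ≤ c ∧ c < κ M)).card +
        ∑ b ∈ range M, max (κ b - κ (b + 1)) 0 := by
  have h1 : ∀ b ∈ range M, (((X.filter (fun c => κ b ≤ c ∧ c < κ (b + 1))).card : ℤ)) ≤
      (((X.filter (fun c => κ b ≤ c)).card : ℤ) -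
        ((X.filter (fun c => κ (b + 1) ≤ c)).card : ℤ)) + max (κ b - κ (b + 1)) 0 := by
    intro b _
    rw [cross_step]
    apply add_le_add_right
    have h2 : (X.filter (fun c => κ (b + 1) ≤ c ∧ c < κ b)).card ≤
        (Finset.Ico (κ (b + 1)) (κ b)).card := by
      apply Finset.card_le_card
      intro c hc
      rw [Finset.mem_filter] at hc
      rw [Finset.mem_Ico]
      exact hc.2
    rw [Int.card_Ico] at h2
    have h3 : ((X.filter (fun c => κ (b + 1) ≤ c ∧ c < κ b)).card : ℤ) ≤
        ((κ b - κ (b + 1)).toNat : ℤ) := by exact_mod_cast h2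
    rw [Int.toNat_eq_max] at h3
    exact h3
  refine le_trans (Finset.sum_le_sum h1) ?_
  rw [Finset.sum_add_distrib, Finset.sum_range_sub']
  apply add_le_add_left
  have h4 := cross_step X (κ 0) (κ M)
  have h5 : (0 : ℤ) ≤ (X.filter (fun c => κ M ≤ c ∧ c < κ 0)).card := by positivity
  linarith

variable {S V : Type} [Fintype S] [Inhabited S] [AddCommGroup V]

omit [Fintype S] [Inhabited S] in
theorem gps_card_ge {vec : S → V} {k : V →+ ℤ} (hlip : Lip vec k) {A : ℕ} (hA : 0 < A)
    (n M : ℕ) (w : ℕ → S) (C : Finset ℕ) (hC : C ⊆ range M) {h : ℝ}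
    (hC1 : ∀ b ∈ C, ¬ HasCut (Kp vec k w) (n * M) n b)
    (hC2 : ∀ b ∈ C, h ≤ (Kp vec k w (n * (b + 1)) : ℝ) - (Kp vec k w (n * b) : ℝ)) :
    (C.card : ℝ) * (h - 2 * A) - (DD vec k (n * M) A w : ℝ) -
      ∑ b ∈ range M, max ((Kp vec k w (n * b) : ℝ) - (Kp vec k w (n * (b + 1)) : ℝ)) 0 ≤
      ((gps vec k n M A w).card : ℝ) := by
  set N := n * M with hN
  set K := Kp vec k w with hK
  set Xb : Finset ℤ := (bigz vec k N A w).biUnion (fun p => Finset.Ico (K p.2) (K p.1))
    with hXb
  set X : Finset ℤ := (Finset.Icc (-(N : ℤ)) N).filter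
    (fun c => c < 0 ∨ K N ≤ c ∨ c ∈ Xb) with hX
  have hXbD : (Xb.card : ℤ) ≤ DD vec k N A w := by
    have h1 : Xb.card ≤ ∑ p ∈ bigz vec k N A w, (Finset.Ico (K p.2) (K p.1)).card :=
      Finset.card_biUnion_le
    have h2 : ((∑ p ∈ bigz vec k N A w, (Finset.Ico (K p.2) (K p.1)).card : ℕ) : ℤ) =
        DD vec k N A w := by
      unfold DD
      push_cast
      refine Finset.sum_congr rfl ?_
      intro p hp
      rw [Int.card_Ico, Int.toNat_of_nonneg]
      have := (mem_bigz.1 hp).1.pos
      simp only [hK]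
      linarith
    rw [← h2]
    exact_mod_cast h1
  have hKabs : ∀ i, |K i| ≤ i := fun i => hlip.abs_pos_le w i
  -- step A
  have stepA : ∀ b ∈ C, h - 2 * A ≤
      (((range N).filter (fun c => GP K N n A b c)).card : ℝ) +
        ((X.filter (fun c => K (n * b) ≤ c ∧ c < K (n * (b + 1)))).card : ℝ) := by
    intro b hb
    have hbM := Finset.mem_range.1 (hC hb)
    have hb1 : n * b ≤ N := by rw [hN]; exact Nat.mul_le_mul_left n hbM.le
    have hb2 : n * (b + 1) ≤ N := by rw [hN]; exact Nat.mul_le_mul_left n hbM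
    have hsub : Finset.Icc (K (n * b) + A) (K (n * (b + 1)) - A) ⊆
        ((range N).filter (fun c => GP K N n A b c)).image (fun c : ℕ => (c : ℤ)) ∪
          X.filter (fun c => K (n * b) ≤ c ∧ c < K (n * (b + 1))) := by
      intro c hc
      rw [Finset.mem_Icc] at hc
      rw [Finset.mem_union]
      have e1 := abs_le.1 (hKabs (n * b))
      have e2 := abs_le.1 (hKabs (n * (b + 1)))
      have e3 : ((n * b : ℕ) : ℤ) ≤ N := by exact_mod_cast hb1
      have e4 : ((n * (b + 1) : ℕ) : ℤ) ≤ N := by exact_mod_cast hb2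
      by_cases hcX : c < 0 ∨ K N ≤ c ∨ c ∈ Xb
      · right
        rw [Finset.mem_filter, hX, Finset.mem_filter, Finset.mem_Icc]
        refine ⟨⟨⟨by omega, by omega⟩, hcX⟩, by omega, by omega⟩
      · left
        push Not at hcX
        obtain ⟨c0, cN, cX⟩ := hcX
        rw [Finset.mem_image]
        refine ⟨c.toNat, ?_, Int.toNat_of_nonneg c0⟩
        have e5 := abs_le.1 (hKabs N)
        rw [Finset.mem_filter, Finset.mem_range]
        refine ⟨by omega, hC1 b hb, ?_, ?_, ?_, ?_⟩
        · rw [Int.toNat_of_nonneg c0]; exact hc.1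
        · rw [Int.toNat_of_nonneg c0]; linarith [hc.2]
        · rw [Int.toNat_of_nonneg c0]; exact cN
        · intro s t hz h1 h2
          rw [Int.toNat_of_nonneg c0] at h1 h2
          by_contra hcon
          apply cX
          rw [hXb, Finset.mem_biUnion]
          refine ⟨(s, t), mem_bigz.2 ⟨hz, not_lt.1 hcon⟩, ?_⟩
          rw [Finset.mem_Ico]
          exact ⟨h1, h2⟩
    have h1 := Finset.card_le_card hsub
    have h2 := le_trans h1 (Finset.card_union_le _ _)
    rw [Int.card_Icc] at h2
    have h3 : (((range N).filter (fun c => GP K N n A b c)).image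
        (fun c : ℕ => (c : ℤ))).card ≤ ((range N).filter (fun c => GP K N n A b c)).card :=
      Finset.card_image_le
    have h4 : K (n * (b + 1)) - A + 1 - (K (n * b) + A) ≤
        (((range N).filter (fun c => GP K N n A b c)).card : ℤ) +
        ((X.filter (fun c => K (n * b) ≤ c ∧ c < K (n * (b + 1)))).card : ℤ) := by
      omega
    have h5 : ((K (n * (b + 1)) : ℝ) - A + 1 - (K (n * b) + A)) ≤
        (((range N).filter (fun c => GP K N n A b c)).card : ℝ) +
        ((X.filter (fun c => K (n * b) ≤ c ∧ c < K (n * (b + 1)))).card : ℝ) := by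
      exact_mod_cast h4
    have h6 := hC2 b hb
    linarith
  -- step B
  have stepB : ∑ b ∈ C, (((range N).filter (fun c => GP K N n A b c)).card : ℝ) ≤
      ((gps vec k n M A w).card : ℝ) := by
    have h1 : (gps vec k n M A w).card =
        ∑ b ∈ range M, ((range N).filter (fun c => GP K N n A b c)).card := by
      unfold gps
      simp only [Finset.card_filter]
      rw [Finset.sum_product]
    rw [h1]
    push_cast
    exact Finset.sum_le_sum_of_subset_of_nonneg hC (fun _ _ _ => by positivity)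
  -- step C
  have stepC : ∑ b ∈ C, ((X.filter (fun c => K (n * b) ≤ c ∧ c < K (n * (b + 1)))).card : ℝ) ≤
      (DD vec k N A w : ℝ) + ∑ b ∈ range M, max ((K (n * b) : ℝ) - (K (n * (b + 1)) : ℝ)) 0 := by
    have h1 := cross_sum X (fun b => K (n * b)) M
    have h2 : (X.filter (fun c => K (n * 0) ≤ c ∧ c < K (n * M))).card ≤ Xb.card := by
      apply Finset.card_le_card
      intro c hc
      rw [Finset.mem_filter, hX, Finset.mem_filter] at hc
      obtain ⟨⟨-, h3⟩, h4, h5⟩ := hc
      rw [Nat.mul_zero, hK, Kp_zero] at h4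
      rw [← hN] at h5
      rcases h3 with h3 | h3 | h3
      · omega
      · omega
      · exact h3
    have h3 : ∑ b ∈ range M, ((X.filter (fun c => K (n * b) ≤ c ∧ c < K (n * (b + 1)))).card : ℤ)
        ≤ DD vec k N A w + ∑ b ∈ range M, max (K (n * b) - K (n * (b + 1))) 0 := by
      refine le_trans h1 ?_
      apply add_le_add_left
      refine le_trans ?_ hXbD
      exact_mod_cast h2
    have h4 : ((∑ b ∈ range M, ((X.filter (fun c => K (n * b) ≤ c ∧
        c < K (n * (b + 1)))).card : ℤ) : ℤ) : ℝ) ≤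
        ((DD vec k N A w + ∑ b ∈ range M, max (K (n * b) - K (n * (b + 1))) 0 : ℤ) : ℝ) := by
      exact_mod_cast h3
    push_cast at h4
    refine le_trans ?_ h4
    exact Finset.sum_le_sum_of_subset_of_nonneg hC (fun _ _ _ => by positivity)
  have h7 := Finset.sum_le_sum stepA
  rw [Finset.sum_const, nsmul_eq_mul, Finset.sum_add_distrib] at h7
  linarith

end Pool.Agent.SubBall
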