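import Pool.Agent.SubBall.Count

/-! Deterministic estimates for the blocks of a walk. -/

namespace Pool.Agent.SubBall

open Finset
open Classical

variable {S V : Type} [Fintype S] [Inhabited S] [AddCommGroup V]

omit [Fintype S] in
theorem sum_blocks (vec : S → V) (φ : V →+ ℤ) (n M : ℕ) (w : ℕ → S) :
    φ (pos vec w (n * M)) = ∑ b ∈ range M, φ (pos vec (blk n b w) n) := by
  have h1 : ∀ b ∈ range M, φ (pos vec (blk n b w) n) =
      φ (pos vec w (n * (b + 1))) - φ (pos vec w (n * b)) := by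
    intro b _
    rw [pos_blk_n, map_sub]
  rw [Finset.sum_congr rfl h1, Finset.sum_range_sub (fun b => φ (pos vec w (n * b)))]
  simp

omit [Fintype S] in
theorem cnt_eq_sum (n M : ℕ) (P : (ℕ → S) → Prop) (w : ℕ → S) :
    (cnt n M P w : ℝ) = ∑ b ∈ range M, (if P (blk n b w) then (1 : ℝ) else 0) := by
  unfold cnt
  rw [Finset.card_filter]
  push_cast
  rfl

/-- few blocks are slow -/
theorem few_slow {vec : S → V} {g : V →+ ℤ} (hlip : Lip vec g) {n M : ℕ}
    {w : ℕ → S} (hw : w ∈ saws vec (n * M)) (hn : 1 ≤ n) (F P : (ℕ → S) → Prop)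
    {vg v : ℝ} (hv : 0 < v) (hvg : v ≤ vg) (hvg' : vg ≤ 1)
    (hF1 : ∀ u ∈ saws vec n, ¬ F u → (g (pos vec u n) : ℝ) ≤ (1 + 2 / 10 ^ 6) * vg * n)
    (hP : ∀ u ∈ saws vec n, ¬ F u → ¬ P u → (g (pos vec u n) : ℝ) ≤ (1 - 1 / 25) * vg * n)
    (hg : (1 - 2 / 10 ^ 6) * vg * (n * M) ≤ (g (pos vec w (n * M)) : ℝ))
    (hF : (cnt n M F w : ℝ) ≤ v / 10 ^ 6 * M) :
    (cnt n M (fun u => ¬ P u) w : ℝ) ≤ 3 / 20000 * M := by
  have hn0 : (0 : ℝ) < n := by exact_mod_cast hn
  have h1 : ∀ b ∈ range M, (g (pos vec (blk n b w) n) : ℝ) ≤ (1 + 2 / 10 ^ 6) * vg * n +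
      2 * n * (if F (blk n b w) then (1 : ℝ) else 0) -
        1 / 25 * vg * n * (if ¬ P (blk n b w) then (1 : ℝ) else 0) := by
    intro b hb
    have hm := blk_mem hw (Finset.mem_range.1 hb)
    have h2 : (g (pos vec (blk n b w) n) : ℝ) ≤ n := by
      exact_mod_cast (abs_le.1 (hlip.abs_pos_le (blk n b w) n)).2
    have h3 : 0 < vg := by linarith
    have h4 : vg * n ≤ 1 * n := mul_le_mul_of_nonneg_right hvg' hn0.le
    have h5 : 0 ≤ vg * n := by positivity
    by_cases hf : F (blk n b w)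
    · by_cases hp : P (blk n b w)
      · simp only [hf, hp, if_true, not_true, if_false]
        nlinarith
      · simp only [hf, hp, if_true, not_false_eq_true]
        nlinarith
    · by_cases hp : P (blk n b w)
      · simp only [hf, hp, not_true, if_false]
        have := hF1 _ hm hf
        linarith
      · simp only [hf, hp, if_true, not_false_eq_true, if_false]
        have := hP _ hm hf hp
        nlinarith
  have h2 := Finset.sum_le_sum h1
  rw [Finset.sum_sub_distrib, Finset.sum_add_distrib, Finset.sum_const, card_range,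
    nsmul_eq_mul, ← Finset.mul_sum, ← Finset.mul_sum, ← cnt_eq_sum n M F w] at h2
  have h3 : ∑ b ∈ range M, (if ¬ P (blk n b w) then (1 : ℝ) else 0) =
      (cnt n M (fun u => ¬ P u) w : ℝ) := by
    rw [cnt_eq_sum]
    refine Finset.sum_congr rfl ?_
    intro b _
    by_cases hp : P (blk n b w) <;> simp [hp]
  rw [h3] at h2
  have h4 : (∑ b ∈ range M, (g (pos vec (blk n b w) n) : ℝ)) = (g (pos vec w (n * M)) : ℝ) := by
    rw [sum_blocks vec g n M w]
    push_cast
    rfl
  rw [h4] at h2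
  set nF := (cnt n M F w : ℝ)
  set nQ := (cnt n M (fun u => ¬ P u) w : ℝ)
  have h5 : (1 - 2 / 10 ^ 6) * vg * (n * M) ≤ M * ((1 + 2 / 10 ^ 6) * vg * n) + 2 * n * nF -
      1 / 25 * vg * n * nQ := le_trans hg h2
  have h6 : 2 * nF ≤ 2 / 10 ^ 6 * vg * M := by
    have hM : (0 : ℝ) ≤ M := Nat.cast_nonneg M
    have : v * M ≤ vg * M := mul_le_mul_of_nonneg_right hvg hM
    linarith
  have h7 : (vg * n) * (1 / 25 * nQ) ≤ (vg * n) * (6 / 10 ^ 6 * M) := by
    have h8 : 2 * n * nF ≤ n * (2 / 10 ^ 6 * vg * M) := by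
      have := mul_le_mul_of_nonneg_left h6 hn0.le
      linarith
    nlinarith
  have h9 : 0 < vg * n := by
    have : 0 < vg := by linarith
    positivity
  have h10 := le_of_mul_le_mul_left h7 h9
  linarith

/-- small backtracks -/
theorem downs_le {vec : S → V} {k : V →+ ℤ} (hlip : Lip vec k) {n M : ℕ}
    {w : ℕ → S} (hw : w ∈ saws vec (n * M)) (F P : (ℕ → S) → Prop)
    {v : ℝ} (hv : 0 < v)
    (hF1 : ∀ u ∈ saws vec n, ¬ F u → - (k (pos vec u n) : ℝ) ≤ 2 * v * n)
    (hP : ∀ u ∈ saws vec n, P u → 0 ≤ (k (pos vec u n) : ℝ))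
    (hF : (cnt n M F w : ℝ) ≤ v / 10 ^ 6 * M)
    (hQ : (cnt n M (fun u => ¬ P u) w : ℝ) ≤ 3 / 20000 * M) :
    ∑ b ∈ range M, max ((Kp vec k w (n * b) : ℝ) - (Kp vec k w (n * (b + 1)) : ℝ)) 0 ≤
      301 / 10 ^ 6 * v * (n * M) := by
  have hn0 : (0 : ℝ) ≤ n := Nat.cast_nonneg n
  have h1 : ∀ b ∈ range M, max ((Kp vec k w (n * b) : ℝ) - (Kp vec k w (n * (b + 1)) : ℝ)) 0 ≤
      n * (if F (blk n b w) then (1 : ℝ) else 0) +
        2 * v * n * (if ¬ P (blk n b w) then (1 : ℝ) else 0) := by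
    intro b hb
    have hm := blk_mem hw (Finset.mem_range.1 hb)
    have h2 : - (n : ℝ) ≤ (k (pos vec (blk n b w) n) : ℝ) := by
      exact_mod_cast (abs_le.1 (hlip.abs_pos_le (blk n b w) n)).1
    have h3 : (Kp vec k w (n * b) : ℝ) - (Kp vec k w (n * (b + 1)) : ℝ) =
        - (k (pos vec (blk n b w) n) : ℝ) := by
      unfold Kp
      rw [pos_blk_n, map_sub]
      push_cast
      ring
    have h5 : 0 ≤ v * n := by positivity
    rw [h3]
    by_cases hf : F (blk n b w)
    · by_cases hp : P (blk n b w)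
      · simp only [hf, hp, if_true, not_true, if_false]
        apply max_le <;> linarith
      · simp only [hf, hp, if_true, not_false_eq_true]
        apply max_le <;> linarith
    · by_cases hp : P (blk n b w)
      · simp only [hf, hp, not_true, if_false]
        have := hP _ hm hp
        apply max_le <;> linarith
      · simp only [hf, hp, if_true, not_false_eq_true, if_false]
        have := hF1 _ hm hf
        apply max_le <;> linarith
  refine le_trans (Finset.sum_le_sum h1) ?_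
  rw [Finset.sum_add_distrib, ← Finset.mul_sum, ← Finset.mul_sum, ← cnt_eq_sum n M F w]
  have h3 : ∑ b ∈ range M, (if ¬ P (blk n b w) then (1 : ℝ) else 0) =
      (cnt n M (fun u => ¬ P u) w : ℝ) := by
    rw [cnt_eq_sum]
    refine Finset.sum_congr rfl ?_
    intro b _
    by_cases hp : P (blk n b w) <;> simp [hp]
  rw [h3]
  have h4 := mul_le_mul_of_nonneg_left hF hn0
  have h5 := mul_le_mul_of_nonneg_left hQ (show (0 : ℝ) ≤ 2 * v * n by positivity)
  nlinarith

omit [Fintype S] in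
/-- many triples -/
theorem trips_ge (vec : S → V) (k : V →+ ℤ) (n M : ℕ) (P : (ℕ → S) → Prop)
    (w : ℕ → S) :
    (M : ℝ) - (cnt n (3 * M) (fun u => ¬ P u) w : ℝ) - (((range (3 * M)).filter (fun b =>
      P (blk n b w) ∧ ¬ HasCut (Kp vec k w) (n * (3 * M)) n b)).card : ℝ) ≤
      ((trips vec k n M P w).card : ℝ) := by
  set Q : Finset ℕ := (range (3 * M)).filter (fun b => (fun u => ¬ P u) (blk n b w)) with hQ
  set C : Finset ℕ := (range (3 * M)).filter (fun b =>
      P (blk n b w) ∧ ¬ HasCut (Kp vec k w) (n * (3 * M)) n b) with hC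
  have hQc : cnt n (3 * M) (fun u => ¬ P u) w = Q.card := by
    rw [hQ]
    unfold cnt
    congr
  rw [hQc]
  have h1 : ((range M) \ (trips vec k n M P w)).card ≤ (Q ∪ C).card := by
    have key : ∀ τ ∈ (range M) \ (trips vec k n M P w), ∃ b, b ∈ Q ∪ C ∧ b / 3 = τ := by
      intro τ hτ
      rw [Finset.mem_sdiff, Finset.mem_range] at hτ
      obtain ⟨hτ1, hτ2⟩ := hτ
      unfold trips at hτ2
      rw [Finset.mem_filter, Finset.mem_range] at hτ2
      have hcase : ∀ b, b < 3 * M → ¬ HasCut (Kp vec k w) (n * (3 * M)) n b → b ∈ Q ∪ C := by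
        intro b hb hc
        rw [Finset.mem_union, hQ, hC, Finset.mem_filter, Finset.mem_filter, Finset.mem_range]
        by_cases hp : P (blk n b w)
        · exact Or.inr ⟨hb, hp, hc⟩
        · exact Or.inl ⟨hb, hp⟩
      by_cases h1 : P (blk n (3 * τ + 1) w)
      · by_cases h2 : HasCut (Kp vec k w) (n * (3 * M)) n (3 * τ)
        · by_cases h3 : HasCut (Kp vec k w) (n * (3 * M)) n (3 * τ + 2)
          · exact absurd ⟨hτ1, h1, h2, h3⟩ hτ2
          · exact ⟨3 * τ + 2, hcase _ (by omega) h3, by omega⟩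
        · exact ⟨3 * τ, hcase _ (by omega) h2, by omega⟩
      · refine ⟨3 * τ + 1, ?_, by omega⟩
        rw [Finset.mem_union, hQ, Finset.mem_filter, Finset.mem_range]
        exact Or.inl ⟨by omega, h1⟩
    choose! f hf1 hf2 using key
    refine Finset.card_le_card_of_injOn f (fun τ hτ => hf1 τ hτ) ?_
    intro a ha b hb hab
    rw [← hf2 a ha, ← hf2 b hb, hab]
  have h2 : (trips vec k n M P w).card + ((range M) \ (trips vec k n M P w)).card = M := by
    have h3 : trips vec k n M P w ⊆ range M := Finset.filter_subset _ _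
    rw [Finset.card_sdiff_of_subset h3, card_range]
    have := Finset.card_le_card h3
    rw [card_range] at this
    omega
  have h3 := le_trans h1 (Finset.card_union_le Q C)
  have h4 : M ≤ (trips vec k n M P w).card + Q.card + C.card := by omega
  have h5 : (M : ℝ) ≤ ((trips vec k n M P w).card : ℝ) + Q.card + C.card := by
    exact_mod_cast h4
  linarith

end Pool.Agent.SubBall
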