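import Pool.Agent.SubBall.Fast

/-! Exchange argument: unfolding a small zigzag inside a block without cuts. -/

namespace Pool.Agent.SubBall

open Finset
open Classical

variable {S V : Type} [Fintype S] [Inhabited S] [AddCommGroup V]

/-- the block `b` contains a cut -/
def HasCut (K : ℕ → ℤ) (N n b : ℕ) : Prop := ∃ i, (n * b ≤ i ∧ i < n * (b + 1)) ∧ Cut K N i

/-- the first cut in a block -/
noncomputable def fc (K : ℕ → ℤ) (N n b : ℕ) : ℕ :=
  if h : HasCut K N n b then Nat.find h else 0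

theorem fc_spec {K : ℕ → ℤ} {N n b : ℕ} (h : HasCut K N n b) :
    n * b ≤ fc K N n b ∧ fc K N n b < n * (b + 1) ∧ Cut K N (fc K N n b) ∧
      ∀ i, n * b ≤ i → i < n * (b + 1) → Cut K N i → fc K N n b ≤ i := by
  have h1 : fc K N n b = Nat.find h := by simp [fc, h]
  rw [h1]
  have h2 := Nat.find_spec h
  refine ⟨h2.1.1, h2.1.2, h2.2, ?_⟩
  intro i hi hi' hc
  exact Nat.find_min' h ⟨⟨hi, hi'⟩, hc⟩

/-- good pairs (block, level) -/
def GP (K : ℕ → ℤ) (N n A b c : ℕ) : Prop :=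
  ¬ HasCut K N n b ∧ K (n * b) + A ≤ c ∧ (c : ℤ) + A ≤ K (n * (b + 1)) ∧ (c : ℤ) < K N ∧
    ∀ s t, Zig K N s t → K t ≤ c → (c : ℤ) < K s → K s - K t < A

theorem gp_zig {K : ℕ → ℤ} {N n A M b c : ℕ} (hA : 0 < A) (hN : N = n * M) (hb : b < M)
    (h0 : K 0 = 0) (hs : ∀ i, K (i + 1) ≤ K i + 1) (h : GP K N n A b c) :
    ∃ s t, n * b ≤ s ∧ s < n * (b + 1) ∧ Zig K N s t ∧ K t ≤ c ∧ (c : ℤ) < K s ∧
      K s - K t < A := by
  obtain ⟨h1, h2, h3, h4, h5⟩ := h
  have hbN : n * b ≤ N := by rw [hN]; exact Nat.mul_le_mul_left n hb.le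
  have hbN' : n * (b + 1) ≤ N := by rw [hN]; exact Nat.mul_le_mul_left n hb
  obtain ⟨s, t, hz, h6, h7⟩ := zig_cover (K := K) (N := N) h0 hs (c := (c : ℤ))
    (by positivity) h4 (by
      intro i hi hic
      apply h1
      refine ⟨i, ⟨?_, ?_⟩, hi⟩
      · by_contra hcon
        have := hi.2.2 (n * b) (by omega) hbN
        omega
      · by_contra hcon
        have := hi.2.1 (n * (b + 1)) (by omega)
        omega)
  have h8 := h5 s t hz h6 h7
  refine ⟨s, t, ?_, ?_, hz, h6, h7, h8⟩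
  · by_contra hcon
    have := hz.2.2.2.2.1 (n * b) (by omega) hbN
    omega
  · by_contra hcon
    have := hz.2.2.1 (n * (b + 1)) (by have := hz.1; omega)
    omega

/-- the lowest cut after unfolding is close to the unfolded zigzag -/
theorem fc_unf {K K' : ℕ → ℤ} {N n b s t : ℕ} (hz : Zig K N s t) (hu : Unf K K' s t)
    (hb : ¬ HasCut K N n b) (hs : n * b ≤ s) (hs' : s < n * (b + 1)) :
    HasCut K' N n b ∧ K' (fc K' N n b) ≤ K' s ∧ K' s - K' (fc K' N n b) ≤ K s - K t := by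
  have hc := hu.cut_s hz
  have h1 : HasCut K' N n b := ⟨s, ⟨hs, hs'⟩, hc⟩
  obtain ⟨h2, h3, h4, h5⟩ := fc_spec h1
  have h6 := h5 s hs hs' hc
  refine ⟨h1, hc.2.1 _ h6, ?_⟩
  rcases eq_or_lt_of_le h6 with h7 | h7
  · rw [h7]
    have := hz.pos
    omega
  · set i := fc K' N n b with hi
    have h8 : ¬ Cut K N i := fun h => hb ⟨i, ⟨h2, h3⟩, h⟩
    have h9 : K' i = K i := hu.lo i h6
    have h10 : ∃ a, i < a ∧ a ≤ N ∧ K a ≤ K i := by
      by_contra hcon
      push Not at hcon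
      apply h8
      refine ⟨h4.1, ?_, hcon⟩
      intro a ha
      have := h4.2.1 a ha
      rw [h9, hu.lo a (by omega)] at this
      exact this
    obtain ⟨a, ha1, ha2, ha3⟩ := h10
    have h11 := h4.2.2 a ha1 ha2
    have h12 : s < a := by
      by_contra hcon
      rw [h9, hu.lo a (by omega)] at h11
      omega
    have h13 := hz.2.2.2.2.1 a h12.le ha2
    rw [h9, hu.lo s le_rfl]
    omega

/-- the good pairs of a walk -/
noncomputable def gps (vec : S → V) (k : V →+ ℤ) (n M A : ℕ) (w : ℕ → S) : Finset (ℕ × ℕ) :=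
  ((range M) ×ˢ (range (n * M))).filter (fun p => GP (Kp vec k w) (n * M) n A p.1 p.2)

theorem exchange {vec : S → V} {k g : V →+ ℤ} {c : ℤ} (ρ : Sym vec)
    (hlip : Lip vec k)
    (hk : ∀ v, k (ρ.L v) = - k v) (hg : ∀ v, g (ρ.L v) = g v - c * k v) (hc : 0 ≤ c)
    {A : ℕ} (hA : 0 < A) {l : ℝ} (hl : 0 ≤ l) (n M : ℕ) (T : Finset (ℕ → S))
    (hT : T ⊆ saws vec (n * M)) :
    ∑ w ∈ T, ((gps vec k n M A w).card : ℝ) * Real.exp (l * (g (pos vec w (n * M)) : ℝ)) ≤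
      M * (A : ℝ) ^ 3 * Z vec g (n * M) l := by
  set N := n * M with hN
  have key : ∀ x : (ℕ → S) × (ℕ × ℕ), x.1 ∈ saws vec N → x.2 ∈ gps vec k n M A x.1 →
      ∃ p : ℕ × ℕ, n * x.2.1 ≤ p.1 ∧ p.1 < n * (x.2.1 + 1) ∧ Zig (Kp vec k x.1) N p.1 p.2 ∧
        Kp vec k x.1 p.2 ≤ x.2.2 ∧ (x.2.2 : ℤ) < Kp vec k x.1 p.1 ∧
        Kp vec k x.1 p.1 - Kp vec k x.1 p.2 < A := by
    intro x _ hx2
    unfold gps at hx2
    rw [Finset.mem_filter, Finset.mem_product, Finset.mem_range] at hx2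
    obtain ⟨s, t, h⟩ := gp_zig (K := Kp vec k x.1) hA hN hx2.1.1 (Kp_zero vec k x.1)
      (fun i => hlip.pos_succ_le x.1 i) hx2.2
    exact ⟨(s, t), h⟩
  choose! z hz1 hz2 hz3 hz4 hz5 hz6 using key
  have h1 : ∑ w ∈ T, ((gps vec k n M A w).card : ℝ) *
      Real.exp (l * (g (pos vec w N) : ℝ)) =
      ∑ x ∈ T.sigma (fun w => gps vec k n M A w), Real.exp (l * (g (pos vec x.1 N) : ℝ)) := by
    rw [Finset.sum_sigma]
    refine Finset.sum_congr rfl ?_
    intro w _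
    simp only [Finset.sum_const, nsmul_eq_mul]
  rw [h1]
  have h2 : (M : ℝ) * (A : ℝ) ^ 3 * Z vec g N l =
      ∑ x ∈ saws vec N ×ˢ (range M ×ˢ (range A ×ˢ (range A ×ˢ range A))),
        Real.exp (l * (g (pos vec x.1 N) : ℝ)) := by
    rw [Finset.sum_product]
    simp only [Finset.sum_const, Finset.card_product, Finset.card_range, nsmul_eq_mul]
    rw [← Finset.mul_sum]
    unfold Z
    push_cast
    ring
  rw [h2]
  refine sum_le_sum_inj _ _ (fun x : (Σ _ : ℕ → S, ℕ × ℕ) =>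
    ((refl ρ (seg (z (x.1, x.2)).1 (z (x.1, x.2)).2) x.1,
      (x.2.1, ((Kp vec k (refl ρ (seg (z (x.1, x.2)).1 (z (x.1, x.2)).2) x.1)
          (z (x.1, x.2)).1 -
        Kp vec k (refl ρ (seg (z (x.1, x.2)).1 (z (x.1, x.2)).2) x.1)
          (fc (Kp vec k (refl ρ (seg (z (x.1, x.2)).1 (z (x.1, x.2)).2) x.1)) N n x.2.1)).toNat,
        ((Kp vec k x.1 (z (x.1, x.2)).1 - Kp vec k x.1 (z (x.1, x.2)).2).toNat,
          (Kp vec k x.1 (z (x.1, x.2)).1 - x.2.2).toNat)))) :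
      (ℕ → S) × (ℕ × (ℕ × (ℕ × ℕ))))) _
    (fun x => Real.exp (l * (g (pos vec x.1 N) : ℝ))) ?_ ?_ ?_ ?_
  · rintro ⟨w, p⟩ hx
    rw [Finset.mem_sigma] at hx
    obtain ⟨hx1, hx2⟩ := hx
    simp only at hx1 hx2
    have e1 := hz1 (w, p) (hT hx1) hx2
    have e2 := hz2 (w, p) (hT hx1) hx2
    have e3 := hz3 (w, p) (hT hx1) hx2
    have e4 := hz4 (w, p) (hT hx1) hx2
    have e5 := hz5 (w, p) (hT hx1) hx2
    have e6 := hz6 (w, p) (hT hx1) hx2
    simp only at e1 e2 e3 e4 e5 e6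
    have hu := unf_seg ρ hk e3.1.le w
    have hpm : p.1 < M ∧ ¬ HasCut (Kp vec k w) N n p.1 := by
      unfold gps at hx2
      rw [Finset.mem_filter, Finset.mem_product, Finset.mem_range] at hx2
      exact ⟨hx2.1.1, hx2.2.1⟩
    have e7 := fc_unf e3 hu hpm.2 e1 e2
    simp only [Finset.mem_product, Finset.mem_range]
    refine ⟨unf_mem ρ hk (hT hx1) e3, hpm.1, ?_, ?_, ?_⟩
    · have := e7.2.1
      have := e7.2.2
      omega
    · have := e3.pos
      omega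
    · omega
  · rintro ⟨w, p⟩ hx ⟨w', p'⟩ hx' heq
    rw [Finset.mem_coe, Finset.mem_sigma] at hx hx'
    obtain ⟨hx1, hx2⟩ := hx
    obtain ⟨hx1', hx2'⟩ := hx'
    simp only at hx1 hx2 hx1' hx2'
    have e1 := hz1 (w, p) (hT hx1) hx2
    have e2 := hz2 (w, p) (hT hx1) hx2
    have e3 := hz3 (w, p) (hT hx1) hx2
    have e4 := hz4 (w, p) (hT hx1) hx2
    have e5 := hz5 (w, p) (hT hx1) hx2
    have f1 := hz1 (w', p') (hT hx1') hx2'
    have f2 := hz2 (w', p') (hT hx1') hx2'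
    have f3 := hz3 (w', p') (hT hx1') hx2'
    have f4 := hz4 (w', p') (hT hx1') hx2'
    have f5 := hz5 (w', p') (hT hx1') hx2'
    simp only at e1 e2 e3 e4 e5 f1 f2 f3 f4 f5
    have hu := unf_seg ρ hk e3.1.le w
    have hu' := unf_seg ρ hk f3.1.le w'
    have hpm : ¬ HasCut (Kp vec k w) N n p.1 := by
      unfold gps at hx2
      rw [Finset.mem_filter] at hx2
      exact hx2.2.1
    have hpm' : ¬ HasCut (Kp vec k w') N n p'.1 := by
      unfold gps at hx2'
      rw [Finset.mem_filter] at hx2'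
      exact hx2'.2.1
    have e7 := fc_unf e3 hu hpm e1 e2
    have f7 := fc_unf f3 hu' hpm' f1 f2
    simp only [Prod.mk.injEq] at heq
    obtain ⟨g1, g2, g3, g4, g5⟩ := heq
    set q := z (w, p) with hq
    set q' := z (w', p') with hq'
    rw [g1, g2] at g3
    rw [g1, g2] at e7
    rw [g1] at hu
    have c1 := hu.cut_s e3
    have c2 := hu'.cut_s f3
    have c3 := hu.cut_t e3
    have c4 := hu'.cut_t f3
    have g6 : q.1 = q'.1 := by
      apply cut_inj c1 c2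
      have := e7.2.1
      have := f7.2.1
      omega
    have k1 := hu.lo q.1 le_rfl
    have k2 := hu'.lo q'.1 le_rfl
    have k3 := e3.pos
    have k4 := f3.pos
    have k5 : Kp vec k w q.1 = Kp vec k w' q'.1 := by
      rw [← k1, ← k2, g6]
    have g7 : q.2 = q'.2 := by
      apply cut_inj c3 c4
      rw [hu.top e3, hu'.top f3]
      omega
    have g8 : q = q' := Prod.ext g6 g7
    have g9 : w = w' := by
      have h3 := congrArg (refl ρ (seg q.1 q.2)) g1
      rw [refl_refl, ← g8, refl_refl] at h3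
      exact h3
    have g10 : p.2 = p'.2 := by omega
    subst g9
    have g11 : p = p' := Prod.ext g2 g10
    rw [g11]
  · rintro ⟨w, p⟩ hx
    rw [Finset.mem_sigma] at hx
    obtain ⟨hx1, hx2⟩ := hx
    simp only at hx1 hx2
    have e3 := hz3 (w, p) (hT hx1) hx2
    simp only at e3 ⊢
    apply Real.exp_le_exp.2
    apply mul_le_mul_of_nonneg_left _ hl
    rw [unf_gain ρ hg e3.1.le e3.2.1]
    have h3 := e3.pos
    have h4 : 0 ≤ c * (Kp vec k w (z (w, p)).1 - Kp vec k w (z (w, p)).2) :=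
      mul_nonneg hc (by omega)
    exact_mod_cast (by omega : g (pos vec w N) ≤ g (pos vec w N) +
      c * (Kp vec k w (z (w, p)).1 - Kp vec k w (z (w, p)).2))
  · intro x _
    positivity

end Pool.Agent.SubBall
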