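import Pool.Agent.SubBall.Large

/-! Blocks of a walk, and an exponential Markov inequality for them. -/

namespace Pool.Agent.SubBall

open Finset
open Classical

variable {S V : Type} [Fintype S] [Inhabited S] [AddCommGroup V]

/-- the block number `b` of length `n` -/
def blk (n b : ℕ) (w : ℕ → S) : ℕ → S := cut n (sh (n * b) w)

theorem blk_mem {vec : S → V} {n M b : ℕ} {w : ℕ → S} (hw : w ∈ saws vec (n * M))
    (hb : b < M) : blk n b w ∈ saws vec n := by
  have h1 : n * M = n * b + (n + n * (M - b - 1)) := by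
    obtain ⟨j, rfl⟩ := Nat.exists_eq_add_of_lt hb
    have : b + j + 1 - b - 1 = j := by omega
    rw [this]
    ring
  rw [h1] at hw
  exact cut_mem_saws (sh_mem_saws hw)

omit [Fintype S] in
theorem pos_blk (vec : S → V) (n b : ℕ) (w : ℕ → S) {i : ℕ} (hi : i ≤ n) :
    pos vec (blk n b w) i = pos vec w (n * b + i) - pos vec w (n * b) := by
  unfold blk
  rw [pos_cut vec _ hi, pos_add]
  abel

omit [Fintype S] in
theorem pos_blk_n (vec : S → V) (n b : ℕ) (w : ℕ → S) :
    pos vec (blk n b w) n = pos vec w (n * (b + 1)) - pos vec w (n * b) := by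
  rw [pos_blk vec n b w le_rfl, Nat.mul_succ]

/-- the number of blocks with property `P` -/
noncomputable def cnt (n M : ℕ) (P : (ℕ → S) → Prop) (w : ℕ → S) : ℕ :=
  ((range M).filter (fun b => P (blk n b w))).card

omit [Fintype S] in
theorem blk_cut {n M b : ℕ} {w : ℕ → S} (hb : b < M) :
    blk n b (cut (n * M) w) = blk n b w := by
  funext a
  unfold blk cut sh
  by_cases ha : a < n
  · have h1 : n * b + a < n * M := by
      have : n * (b + 1) ≤ n * M := Nat.mul_le_mul_left n hb
      rw [Nat.mul_succ] at this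
      omega
    simp [ha, h1]
  · simp [ha]

omit [Fintype S] in
theorem cnt_succ (n M : ℕ) (P : (ℕ → S) → Prop) (w : ℕ → S)
    (hw : ∀ a, n * (M + 1) ≤ a → w a = default) :
    cnt n (M + 1) P w = cnt n M P (cut (n * M) w) + (if P (sh (n * M) w) then 1 else 0) := by
  unfold cnt
  rw [Finset.range_add_one, Finset.filter_insert]
  have h1 : blk n M w = sh (n * M) w := by
    funext a
    unfold blk cut
    by_cases ha : a < n
    · simp [ha]
    · simp only [ha, if_false, sh]
      rw [hw]
      rw [Nat.mul_succ]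
      omega
  have h2 : (range M).filter (fun b => P (blk n b (cut (n * M) w))) =
      (range M).filter (fun b => P (blk n b w)) := by
    apply Finset.filter_congr
    intro b hb
    rw [blk_cut (Finset.mem_range.1 hb)]
  rw [h2, h1]
  by_cases h : P (sh (n * M) w)
  · simp only [h, if_true]
    rw [Finset.card_insert_of_notMem (by simp)]
  · simp [h]

theorem sum_cnt_le (vec : S → V) (g : V →+ ℤ) (P : (ℕ → S) → Prop) (n : ℕ) (l : ℝ) {Y : ℝ}
    (hY : 0 ≤ Y) (M : ℕ) :
    ∑ w ∈ saws vec (n * M), Real.exp (l * (g (pos vec w (n * M)) : ℝ)) * Y ^ cnt n M P w ≤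
      (∑ w ∈ saws vec n, Real.exp (l * (g (pos vec w n) : ℝ)) *
        Y ^ (if P w then 1 else 0)) ^ M := by
  induction M with
  | zero =>
    rw [Nat.mul_zero, saws_zero]
    simp [cnt]
  | succ M ih =>
    have h1 := sum_split_le vec (n * M) n (fun u v =>
      (Real.exp (l * (g (pos vec u (n * M)) : ℝ)) * Y ^ cnt n M P u) *
        (Real.exp (l * (g (pos vec v n) : ℝ)) * Y ^ (if P v then 1 else 0)))
      (fun _ _ => by positivity)
    rw [← Finset.sum_mul_sum] at h1
    rw [pow_succ, Nat.mul_succ]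
    refine le_trans (le_of_eq ?_) (le_trans h1 ?_)
    · refine Finset.sum_congr rfl ?_
      intro w hw
      have h2 := (mem_saws.1 hw).1
      rw [cnt_succ n M P w (by rw [Nat.mul_succ]; exact h2), pow_add, pos_add, map_add,
        pos_cut vec w le_rfl]
      push_cast
      rw [mul_add, Real.exp_add]
      ring
    · refine mul_le_mul_of_nonneg_right ih ?_
      exact Finset.sum_nonneg (fun _ _ => by positivity)

theorem block_sum_le {vec : S → V} {g : V →+ ℤ} (hg : Lip vec g) (P : (ℕ → S) → Prop)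
    (n : ℕ) {l Y : ℝ} (hl : 0 ≤ l) (hY : 0 ≤ Y) :
    ∑ w ∈ saws vec n, Real.exp (l * (g (pos vec w n) : ℝ)) * Y ^ (if P w then 1 else 0) ≤
      Z vec g n l + Real.exp (l * n) * Y * ((saws vec n).filter P).card := by
  have h1 : ∀ w ∈ saws vec n, Real.exp (l * (g (pos vec w n) : ℝ)) *
      Y ^ (if P w then 1 else 0) ≤ Real.exp (l * (g (pos vec w n) : ℝ)) +
        (if P w then Real.exp (l * n) * Y else 0) := by
    intro w _
    by_cases h : P w
    · simp only [h, if_true, pow_one]
      have h2 : Real.exp (l * (g (pos vec w n) : ℝ)) ≤ Real.exp (l * n) := by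
        apply Real.exp_le_exp.2
        apply mul_le_mul_of_nonneg_left _ hl
        exact_mod_cast (abs_le.1 (hg.abs_pos_le w n)).2
      have h3 := mul_le_mul_of_nonneg_right h2 hY
      have h4 := (Real.exp_pos (l * (g (pos vec w n) : ℝ))).le
      linarith
    · simp [h]
  refine le_trans (Finset.sum_le_sum h1) ?_
  rw [Finset.sum_add_distrib, ← Finset.sum_filter, Finset.sum_const, nsmul_eq_mul]
  apply le_of_eq
  unfold Z
  ring

/-- Markov's inequality for the number of blocks with property `P` -/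
theorem markov_cnt (vec : S → V) (g : V →+ ℤ) (P : (ℕ → S) → Prop) (n : ℕ) (l : ℝ) {Y E : ℝ}
    (hY : 1 ≤ Y) (M : ℕ) (m : ℝ)
    (hE : ∑ w ∈ saws vec n, Real.exp (l * (g (pos vec w n) : ℝ)) *
        Y ^ (if P w then 1 else 0) ≤ E) (T : Finset (ℕ → S)) (hT : T ⊆ saws vec (n * M))
    (hTc : ∀ w ∈ T, m ≤ cnt n M P w) :
    ∑ w ∈ T, Real.exp (l * (g (pos vec w (n * M)) : ℝ)) ≤ E ^ M * Y ^ (-m) := by
  have hY0 : 0 < Y := by linarith
  have h0 : ∀ w ∈ T, Real.exp (l * (g (pos vec w (n * M)) : ℝ)) ≤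
      (Real.exp (l * (g (pos vec w (n * M)) : ℝ)) * Y ^ cnt n M P w) * Y ^ (-m) := by
    intro w hw
    have h1 : (1 : ℝ) ≤ Y ^ cnt n M P w * Y ^ (-m) := by
      rw [← Real.rpow_natCast, ← Real.rpow_add hY0]
      apply Real.one_le_rpow hY
      have := hTc w hw
      linarith
    rw [mul_assoc]
    exact le_mul_of_one_le_right (Real.exp_pos _).le h1
  calc ∑ w ∈ T, Real.exp (l * (g (pos vec w (n * M)) : ℝ))
      ≤ ∑ w ∈ T, (Real.exp (l * (g (pos vec w (n * M)) : ℝ)) * Y ^ cnt n M P w) * Y ^ (-m) :=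
        Finset.sum_le_sum h0
    _ ≤ ∑ w ∈ saws vec (n * M), (Real.exp (l * (g (pos vec w (n * M)) : ℝ)) *
          Y ^ cnt n M P w) * Y ^ (-m) := by
        refine Finset.sum_le_sum_of_subset_of_nonneg hT ?_
        intro w _ _
        positivity
    _ = (∑ w ∈ saws vec (n * M), Real.exp (l * (g (pos vec w (n * M)) : ℝ)) *
          Y ^ cnt n M P w) * Y ^ (-m) := by rw [Finset.sum_mul]
    _ ≤ E ^ M * Y ^ (-m) := by
        refine mul_le_mul_of_nonneg_right ?_ (by positivity)
        refine le_trans (sum_cnt_le vec g P n l hY0.le M) ?_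
        refine pow_le_pow_left₀ ?_ hE M
        exact Finset.sum_nonneg (fun _ _ => by positivity)

end Pool.Agent.SubBall
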