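import Pool.Agent.SubBall.Bridge

/-! Hammersley-Welsh: unfolding half-space walks into bridges. -/

namespace Pool.Agent.SubBall

open Finset
open Classical

variable {S V : Type} [Fintype S] [Inhabited S] [AddCommGroup V]

omit [Fintype S] [Inhabited S] in
theorem Lip.pos_succ_le {vec : S → V} {φ : V →+ ℤ} (h : Lip vec φ) (w : ℕ → S) (i : ℕ) :
    φ (pos vec w (i + 1)) ≤ φ (pos vec w i) + 1 := by
  rw [pos_succ, map_add]
  have := (abs_le.1 (h (w i))).2
  omega

omit [Fintype S] [Inhabited S] in
theorem hs_unfold {vec : S → V} {φ : V →+ ℤ} (hlip : Lip vec φ) (ρ : Sym vec)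
    (hρ : ∀ v, φ (ρ.L v) = - φ v) :
    ∀ N : ℕ, ∀ w : ℕ → S, ∀ W : ℤ, 0 < N → Saw vec N w → Hs vec φ N w →
      (∀ i ≤ N, φ (pos vec w i) ≤ W) →
      ∃ (χ : ℕ → Bool) (r : ℕ), (∀ a, N ≤ a → χ a = false) ∧ (bd N χ).card ≤ r ∧
        (r : ℤ) + 1 ≤ W ∧ (r + 1) * (r + 2) ≤ 2 * N ∧ Saw vec N (refl ρ χ w) ∧
        Br vec φ N (refl ρ χ w) ∧
        (∀ i ≤ N, φ (pos vec w i) ≤ φ (pos vec (refl ρ χ w) N)) := by
  intro N
  induction N using Nat.strong_induction_on with
  | _ N ih =>
  intro w W hN hs hh hW
  set K : ℕ → ℤ := fun i => φ (pos vec w i) with hK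
  obtain ⟨s, -, hsN, hmax, hlast⟩ := last_argmax K (Nat.zero_le N)
  have hKs1 : 1 ≤ K s := by
    have h1 := hh N hN le_rfl
    have h2 := hmax N (Nat.zero_le _) le_rfl
    simp only [hK] at h1 h2 ⊢
    omega
  have hKs : K s ≤ s := (abs_le.1 (hlip.abs_pos_le w s)).2
  rcases eq_or_lt_of_le hsN with hsN' | hsN'
  · -- already a bridge
    refine ⟨fun _ => false, 0, fun _ _ => rfl, ?_, ?_, by omega, ?_, ?_, ?_⟩
    · have : bd N (fun _ => false) = ∅ := by
        ext a
        rw [mem_bd]
        simp [prev]
      rw [this]; simp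
    · have := hW s hsN
      simp only [hK] at hKs1
      push_cast
      omega
    · have : refl ρ (fun _ => false) w = w := by funext a; simp [refl]
      rw [this]; exact hs
    · have : refl ρ (fun _ => false) w = w := by funext a; simp [refl]
      rw [this]
      intro i h0 hi
      refine ⟨hh i h0 hi, ?_⟩
      have := hmax i (Nat.zero_le _) hi
      rw [hsN'] at this
      exact this
    · intro i hi
      have : refl ρ (fun _ => false) w = w := by funext a; simp [refl]
      rw [this]
      have := hmax i (Nat.zero_le _) hi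
      rw [hsN'] at this
      exact this
  · -- reflect the part after `s`
    obtain ⟨n, hn⟩ := Nat.exists_eq_add_of_le hsN
    have hn0 : 0 < n := by omega
    have hs0 : 0 < s := by
      rcases Nat.eq_zero_or_pos s with h | h
      · exfalso
        rw [h] at hKs1
        simp [hK] at hKs1
      · exact h
    set w2 : ℕ → S := mp ρ (sh s w) with hw2
    have hpos2 : ∀ j, φ (pos vec w2 j) = K s - K (s + j) := by
      intro j
      rw [hw2, pos_mp, hρ]
      simp only [hK]
      rw [pos_add, map_add]
      ring
    have hsaw2 : Saw vec n w2 := by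
      intro i j hij hj heq
      rw [hw2, pos_mp, pos_mp] at heq
      have h1 := ρ.inj heq
      subst hn
      exact hs.sh i j hij hj h1
    have hh2 : Hs vec φ n w2 := by
      intro j h0 hj
      rw [hpos2]
      have := hlast (s + j) (by omega) (by omega)
      omega
    have hW2 : ∀ i ≤ n, φ (pos vec w2 i) ≤ K s - 1 := by
      intro i hi
      rw [hpos2]
      have := hh (s + i) (by omega) (by omega)
      simp only [hK] at this ⊢
      omega
    obtain ⟨χ2, r2, hχ2, hbd2, hr2, hrr2, hsw2, hbr2, htop2⟩ :=
      ih n (by omega) w2 (K s - 1) hn0 hsaw2 hh2 hW2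
    set χ : ℕ → Bool := fun a => if a < s then false else if a < N then !χ2 (a - s) else false
      with hχ
    have hrefl : ∀ b, b < n → refl ρ χ w (s + b) = refl ρ χ2 w2 b := by
      intro b hb
      have h1 : ¬ (s + b < s) := by omega
      have h2 : s + b < N := by omega
      have h3 : s + b - s = b := by omega
      simp only [refl, hχ, h1, h2, h3, if_false, if_true, hw2, mp, sh]
      cases χ2 b
      · simp
      · simp [ρ.inv]
    have hlo : ∀ i ≤ s, pos vec (refl ρ χ w) i = pos vec w i := by
      intro i hi
      apply pos_congr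
      intro a ha
      apply refl_default
      simp [hχ, show a < s by omega]
    have hhi : ∀ j ≤ n, pos vec (refl ρ χ w) (s + j) = pos vec w s +
        pos vec (refl ρ χ2 w2) j := by
      intro j hj
      rw [pos_add, hlo s le_rfl]
      congr 1
      apply pos_congr
      intro a ha
      exact hrefl a (by omega)
    have hN' : φ (pos vec (refl ρ χ w) N) = K s + φ (pos vec (refl ρ χ2 w2) n) := by
      rw [hn, hhi n le_rfl, map_add]
    have hnn := hbr2.nonneg
    refine ⟨χ, r2 + 1, ?_, ?_, ?_, ?_, ?_, ?_, ?_⟩
    · intro a ha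
      have h1 : ¬ a < s := by omega
      have h2 : ¬ a < N := by omega
      simp [hχ, h1, h2]
    · have hsub : bd N χ ⊆ insert s ((bd n χ2).image (fun a => s + a)) := by
        intro a ha
        rw [mem_bd] at ha
        obtain ⟨haN, hne⟩ := ha
        rw [Finset.mem_insert]
        rcases lt_trichotomy a s with h | h | h
        · exfalso
          apply hne
          have h1 : a - 1 < s := by omega
          simp [hχ, prev, h, h1]
        · exact Or.inl h
        · right
          rw [Finset.mem_image]
          refine ⟨a - s, ?_, by omega⟩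
          rw [mem_bd]
          refine ⟨by omega, ?_⟩
          intro heq
          apply hne
          have h1 : ¬ a < s := by omega
          have h2 : ¬ (a - 1 < s) := by omega
          have h3 : a - 1 < N := by omega
          have h4 : a ≠ 0 := by omega
          have h5 : a - s ≠ 0 := by omega
          have h6 : a - 1 - s = a - s - 1 := by omega
          simp only [hχ, prev, h1, h2, h3, h4, haN, if_false, if_true, h6]
          simp only [prev, h5, if_false] at heq
          rw [heq]
      calc (bd N χ).card ≤ (insert s ((bd n χ2).image (fun a => s + a))).card :=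
            Finset.card_le_card hsub
        _ ≤ ((bd n χ2).image (fun a => s + a)).card + 1 := Finset.card_insert_le _ _
        _ ≤ (bd n χ2).card + 1 := by
            exact Nat.add_le_add_right Finset.card_image_le 1
        _ ≤ r2 + 1 := Nat.add_le_add_right hbd2 1
    · have := hW s hsN
      simp only [hK] at hr2
      push_cast
      linarith
    · have h1 : (r2 : ℤ) + 2 ≤ s := by linarith
      have h2 : r2 + 2 ≤ s := by exact_mod_cast h1
      have h3 : (r2 + 1 + 1) * (r2 + 1 + 2) = (r2 + 1) * (r2 + 2) + 2 * (r2 + 2) := by ring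
      rw [h3]
      omega
    · intro i j hij hj
      rcases le_or_gt j s with h | h
      · rw [hlo i (by omega), hlo j h]
        exact hs i j hij (by omega)
      · obtain ⟨j', rfl⟩ := Nat.exists_eq_add_of_le h.le
        rcases le_or_gt i s with h1 | h1
        · intro heq
          rw [hlo i h1, hhi j' (by omega)] at heq
          have h2 := hmax i (Nat.zero_le _) (by omega)
          simp only [hK] at h2
          rw [heq, map_add] at h2
          have h3 := (hbr2 j' (by omega) (by omega)).1
          omega
        · obtain ⟨i', rfl⟩ := Nat.exists_eq_add_of_le h1.le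
          intro heq
          rw [hhi i' (by omega), hhi j' (by omega)] at heq
          exact hsw2 i' j' (by omega) (by omega) (add_left_cancel heq)
    · intro i h0 hi
      rw [hN']
      rcases le_or_gt i s with h | h
      · rw [hlo i h]
        have h1 := hh i h0 (by omega)
        have h2 := hmax i (Nat.zero_le _) (by omega)
        simp only [hK] at h2 ⊢
        exact ⟨h1, by omega⟩
      · obtain ⟨j, rfl⟩ := Nat.exists_eq_add_of_le h.le
        rw [hhi j (by omega), map_add]
        have h1 := hbr2 j (by omega) (by omega)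
        simp only [hK] at hKs1 ⊢
        exact ⟨by omega, by omega⟩
    · intro i hi
      rw [hN']
      have h2 := hmax i (Nat.zero_le _) (by omega)
      simp only [hK] at h2 ⊢
      omega

theorem hss_zero (vec : S → V) (φ : V →+ ℤ) : hss vec φ 0 = {fun _ => (default : S)} := by
  unfold hss
  rw [saws_zero]
  ext w
  simp only [Finset.mem_filter, Finset.mem_singleton]
  constructor
  · rintro ⟨h, -⟩; exact h
  · intro h
    exact ⟨h, fun i h0 hi => by omega⟩

/-- half-space walks against bridges -/
theorem H_le_B {vec : S → V} {φ : V →+ ℤ} (hlip : Lip vec φ) (ρ : Sym vec)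
    (hρ : ∀ v, φ (ρ.L v) = - φ v) (N : ℕ) {l : ℝ} (hl : 0 ≤ l) :
    H vec φ N l ≤ ((pats N (Nat.sqrt (2 * N))).card : ℝ) * B vec φ N l := by
  rcases Nat.eq_zero_or_pos N with h0 | h0
  · subst h0
    unfold H
    rw [hss_zero, B_zero]
    simp only [sum_singleton, pos_zero, map_zero, Int.cast_zero, mul_zero, Real.exp_zero,
      mul_one]
    have : (0 : ℕ) < (pats 0 (Nat.sqrt (2 * 0))).card := by
      rw [Finset.card_pos]
      refine ⟨fun _ => false, ?_⟩
      unfold pats
      rw [Finset.mem_filter, mem_words]
      refine ⟨fun _ _ => rfl, ?_⟩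
      simp [bd]
    exact_mod_cast this
  · have key : ∀ w ∈ hss vec φ N, ∃ χ : ℕ → Bool, χ ∈ pats N (Nat.sqrt (2 * N)) ∧
        refl ρ χ w ∈ brs vec φ N ∧
        φ (pos vec w N) ≤ φ (pos vec (refl ρ χ w) N) := by
      intro w hw
      simp only [hss, Finset.mem_filter] at hw
      have hw1 := mem_saws.1 hw.1
      obtain ⟨χ, r, h1, h2, -, h4, h5, h6, h7⟩ := hs_unfold hlip ρ hρ N w N h0 hw1.2 hw.2
        (fun i hi => le_trans (abs_le.1 (hlip.abs_pos_le w i)).2 (by exact_mod_cast hi))
      refine ⟨χ, ?_, ?_, h7 N le_rfl⟩
      · unfold pats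
        rw [Finset.mem_filter, mem_words]
        refine ⟨h1, le_trans h2 ?_⟩
        rw [Nat.le_sqrt]
        nlinarith
      · simp only [brs, Finset.mem_filter, mem_saws]
        refine ⟨⟨?_, h5⟩, h6⟩
        intro a ha
        rw [refl_default ρ (h1 a ha)]
        exact hw1.1 a ha
    choose! g hg1 hg2 hg3 using key
    unfold H B
    rw [← nsmul_eq_mul, ← Finset.sum_const, ← Finset.sum_product']
    refine sum_le_sum_inj _ _ (fun w => (g w, refl ρ (g w) w)) _
      (fun p : (ℕ → Bool) × (ℕ → S) => Real.exp (l * (φ (pos vec p.2 N) : ℝ))) ?_ ?_ ?_ ?_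
    · intro w hw
      exact Finset.mem_product.2 ⟨hg1 w hw, hg2 w hw⟩
    · intro w hw w' hw' heq
      simp only [Prod.mk.injEq] at heq
      have h1 := heq.2
      rw [heq.1] at h1
      have h2 : refl ρ (g w') (refl ρ (g w') w) = refl ρ (g w') (refl ρ (g w') w') := by
        rw [h1]
      rwa [refl_refl, refl_refl] at h2
    · intro w hw
      apply Real.exp_le_exp.2
      apply mul_le_mul_of_nonneg_left _ hl
      exact_mod_cast hg3 w hw
    · intro p _
      positivity

end Pool.Agent.SubBall
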