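import Pool.Agent.SubBall.HW

/-! Hammersley-Welsh: from all self-avoiding walks to bridges. -/

namespace Pool.Agent.SubBall

open Finset
open Classical

variable {S V : Type} [Fintype S] [Inhabited S] [AddCommGroup V]

/-- the reversal of the first `t` steps -/
def rv {vec : S → V} (ν : Sym vec) (t : ℕ) (w : ℕ → S) : ℕ → S :=
  fun a => if a < t then ν.f (w (t - 1 - a)) else default

omit [Fintype S] in
theorem pos_rv {vec : S → V} (ν : Sym vec) (hν : ∀ v, ν.L v = -v) (t : ℕ) (w : ℕ → S)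
    {i : ℕ} (hi : i ≤ t) : pos vec (rv ν t w) i = pos vec w (t - i) - pos vec w t := by
  induction i with
  | zero => simp
  | succ i ih =>
    rw [pos_succ, ih (by omega)]
    have h1 : i < t := by omega
    have h2 : t - i = (t - 1 - i) + 1 := by omega
    have h3 : t - (i + 1) = t - 1 - i := by omega
    rw [h2, pos_succ, h3]
    simp only [rv, h1, if_true]
    rw [ν.vec_f, hν]
    abel

/-- the walk after time `t`, with an extra step in front -/
def w2 (e : S) (t : ℕ) (w : ℕ → S) : ℕ → S := app 1 (fun _ => e) (sh t w)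

omit [Fintype S] [Inhabited S] in
theorem pos_w2_succ (vec : S → V) (e : S) (t : ℕ) (w : ℕ → S) (j : ℕ) :
    pos vec (w2 e t w) (j + 1) = vec e + (pos vec w (t + j) - pos vec w t) := by
  unfold w2
  rw [add_comm j 1, pos_app_add, pos_add]
  have : pos vec (fun _ => e) 1 = vec e := by simp [pos]
  rw [this]
  abel

theorem fiber_le {vec : S → V} {φ : V →+ ℤ} (ν : Sym vec) (hν : ∀ v, ν.L v = -v) {e : S}
    (he : φ (vec e) = 1) {N t : ℕ} (ht : t ≤ N) {l : ℝ} (hl : 0 ≤ l)
    (T : Finset (ℕ → S)) (hT : ∀ w ∈ T, w ∈ saws vec N ∧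
      (∀ x ≤ N, φ (pos vec w t) ≤ φ (pos vec w x)) ∧
      (∀ x < t, φ (pos vec w t) < φ (pos vec w x))) :
    ∑ w ∈ T, Real.exp (l * (φ (pos vec w N) : ℝ)) ≤ H vec φ t l * H vec φ (N - t + 1) l := by
  unfold H
  rw [Finset.sum_mul_sum, ← Finset.sum_product']
  refine sum_le_sum_inj _ _ (fun w => (rv ν t w, w2 e t w)) _
    (fun p : (ℕ → S) × (ℕ → S) => Real.exp (l * (φ (pos vec p.1 t) : ℝ)) *
      Real.exp (l * (φ (pos vec p.2 (N - t + 1)) : ℝ))) ?_ ?_ ?_ ?_
  · intro w hw
    obtain ⟨h1, h2, h3⟩ := hT w hw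
    have h1' := mem_saws.1 h1
    refine Finset.mem_product.2 ⟨?_, ?_⟩
    · simp only [hss, Finset.mem_filter, mem_saws]
      refine ⟨⟨?_, ?_⟩, ?_⟩
      · intro a ha
        simp [rv, not_lt.2 ha]
      · intro i j hij hj heq
        rw [pos_rv ν hν t w (by omega), pos_rv ν hν t w hj] at heq
        have h4 := sub_left_injective heq
        exact h1'.2 (t - j) (t - i) (by omega) (by omega) h4.symm
      · intro i h0 hi
        rw [pos_rv ν hν t w hi, map_sub]
        have := h3 (t - i) (by omega)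
        omega
    · simp only [hss, Finset.mem_filter, mem_saws]
      have hK : ∀ j, j ≤ N - t → 0 < φ (pos vec (w2 e t w) (j + 1)) := by
        intro j hj
        rw [pos_w2_succ, map_add, map_sub, he]
        have := h2 (t + j) (by omega)
        omega
      refine ⟨⟨?_, ?_⟩, ?_⟩
      · intro a ha
        have h4 : ¬ a < 1 := by omega
        simp only [w2, app, h4, if_false, sh]
        exact h1'.1 _ (by omega)
      · intro i j hij hj heq
        obtain ⟨j', rfl⟩ : ∃ j', j = j' + 1 := ⟨j - 1, by omega⟩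
        rcases Nat.eq_zero_or_pos i with h0 | h0
        · subst h0
          have h5 := hK j' (by omega)
          rw [← heq] at h5
          simp at h5
        · obtain ⟨i', rfl⟩ : ∃ i', i = i' + 1 := ⟨i - 1, by omega⟩
          rw [pos_w2_succ, pos_w2_succ] at heq
          have h6 := sub_left_injective (add_left_cancel heq)
          exact h1'.2 (t + i') (t + j') (by omega) (by omega) h6
      · intro i h0 hi
        obtain ⟨i', rfl⟩ : ∃ i', i = i' + 1 := ⟨i - 1, by omega⟩
        exact hK i' (by omega)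
  · intro w hw w' hw' heq
    simp only [Prod.mk.injEq] at heq
    obtain ⟨h1, h2⟩ := heq
    funext a
    by_cases ha : a < t
    · have h3 := congrFun h1 (t - 1 - a)
      have h4 : t - 1 - a < t := by omega
      have h5 : t - 1 - (t - 1 - a) = a := by omega
      simp only [rv, h4, if_true, h5] at h3
      have h6 := congrArg ν.f h3
      rwa [ν.inv, ν.inv] at h6
    · have h3 := congrFun h2 (1 + (a - t))
      have h4 : ¬ (1 + (a - t) < 1) := by omega
      have h5 : t + (1 + (a - t) - 1) = a := by omega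
      simp only [w2, app, h4, if_false, sh, h5] at h3
      exact h3
  · intro w hw
    obtain ⟨h1, h2, h3⟩ := hT w hw
    rw [← Real.exp_add]
    apply Real.exp_le_exp.2
    rw [← mul_add]
    apply mul_le_mul_of_nonneg_left _ hl
    have h4 : N - t + 1 = (N - t) + 1 := rfl
    rw [pos_rv ν hν t w le_rfl, pos_w2_succ, Nat.sub_self, pos_zero]
    have h5 : t + (N - t) = N := by omega
    rw [h5, map_add, map_sub, map_sub, map_zero, he]
    have h6 := h2 0 (Nat.zero_le _)
    rw [pos_zero, map_zero] at h6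
    have h7 : φ (pos vec w N) ≤ (0 - φ (pos vec w t)) +
        (1 + (φ (pos vec w N) - φ (pos vec w t))) := by omega
    exact_mod_cast h7
  · intro p _
    positivity

theorem Z_le_sum_H {vec : S → V} {φ : V →+ ℤ} (ν : Sym vec) (hν : ∀ v, ν.L v = -v) {e : S}
    (he : φ (vec e) = 1) (N : ℕ) {l : ℝ} (hl : 0 ≤ l) :
    Z vec φ N l ≤ ∑ t ∈ range (N + 1), H vec φ t l * H vec φ (N - t + 1) l := by
  have key : ∀ w : ℕ → S, ∃ t, t ≤ N ∧ (∀ x ≤ N, φ (pos vec w t) ≤ φ (pos vec w x)) ∧
      (∀ x < t, φ (pos vec w t) < φ (pos vec w x)) := by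
    intro w
    obtain ⟨t, -, h1, h2, h3⟩ := first_argmin (fun i => φ (pos vec w i)) (Nat.zero_le N)
    exact ⟨t, h1, fun x hx => h2 x (Nat.zero_le _) hx, fun x hx => h3 x (Nat.zero_le _) hx⟩
  choose τ h1 h2 h3 using key
  unfold Z
  rw [← Finset.sum_fiberwise_of_maps_to (t := range (N + 1)) (g := τ)
    (fun w _ => Finset.mem_range.2 (Nat.lt_succ_of_le (h1 w)))]
  refine Finset.sum_le_sum ?_
  intro t ht
  refine fiber_le ν hν he (Nat.lt_succ_iff.1 (Finset.mem_range.1 ht)) hl _ ?_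
  intro w hw
  rw [Finset.mem_filter] at hw
  obtain ⟨hw1, hw2⟩ := hw
  rw [← hw2]
  exact ⟨hw1, h2 w, h3 w⟩

/-- the Hammersley-Welsh factor -/
noncomputable def hw (N : ℕ) : ℝ :=
  (N + 1) * (Real.exp 1 * (N + 2 : ℝ) ^ Nat.sqrt (2 * (N + 1))) ^ 2

theorem Z_le_hw_B {vec : S → V} {φ : V →+ ℤ} (hlip : Lip vec φ) (ρ : Sym vec)
    (hρ : ∀ v, φ (ρ.L v) = - φ v) (ν : Sym vec) (hν : ∀ v, ν.L v = -v) {e : S}
    (he : φ (vec e) = 1) (N : ℕ) {l : ℝ} (hl : 0 ≤ l) :
    Z vec φ N l ≤ hw N * B vec φ (N + 1) l := by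
  set M : ℝ := Real.exp 1 * (N + 2 : ℝ) ^ Nat.sqrt (2 * (N + 1)) with hM
  have hM0 : 0 ≤ M := by positivity
  have hPM : ∀ t, t ≤ N + 1 → ((pats t (Nat.sqrt (2 * t))).card : ℝ) ≤ M := by
    intro t ht
    refine le_trans (card_pats_le _ _) ?_
    rw [hM]
    apply mul_le_mul_of_nonneg_left _ (Real.exp_pos _).le
    have h1 : (t : ℝ) + 1 ≤ (N : ℝ) + 2 := by
      have : (t : ℝ) ≤ ((N + 1 : ℕ) : ℝ) := by exact_mod_cast ht
      push_cast at this
      linarith
    calc ((t : ℝ) + 1) ^ Nat.sqrt (2 * t) ≤ ((N : ℝ) + 2) ^ Nat.sqrt (2 * t) :=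
          pow_le_pow_left₀ (by positivity) h1 _
      _ ≤ ((N : ℝ) + 2) ^ Nat.sqrt (2 * (N + 1)) := by
          apply pow_le_pow_right₀
          · have : (0 : ℝ) ≤ N := Nat.cast_nonneg N
            linarith
          · exact Nat.sqrt_le_sqrt (by omega)
  refine le_trans (Z_le_sum_H ν hν he N hl) ?_
  have hterm : ∀ t ∈ range (N + 1), H vec φ t l * H vec φ (N - t + 1) l ≤
      M ^ 2 * B vec φ (N + 1) l := by
    intro t ht
    have ht' : t ≤ N := Nat.lt_succ_iff.1 (Finset.mem_range.1 ht)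
    have h1 := H_le_B hlip ρ hρ t hl
    have h2 := H_le_B hlip ρ hρ (N - t + 1) hl
    have h3 : H vec φ t l ≤ M * B vec φ t l :=
      le_trans h1 (mul_le_mul_of_nonneg_right (hPM t (by omega)) (B_nonneg _ _ _ _))
    have h4 : H vec φ (N - t + 1) l ≤ M * B vec φ (N - t + 1) l :=
      le_trans h2 (mul_le_mul_of_nonneg_right (hPM _ (by omega)) (B_nonneg _ _ _ _))
    have h5 := B_mul_le vec φ t (N - t + 1) l
    have h6 : t + (N - t + 1) = N + 1 := by omega
    rw [h6] at h5
    calc H vec φ t l * H vec φ (N - t + 1) l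
        ≤ (M * B vec φ t l) * (M * B vec φ (N - t + 1) l) :=
          mul_le_mul h3 h4 (H_nonneg _ _ _ _) (mul_nonneg hM0 (B_nonneg _ _ _ _))
      _ = M ^ 2 * (B vec φ t l * B vec φ (N - t + 1) l) := by ring
      _ ≤ M ^ 2 * B vec φ (N + 1) l := mul_le_mul_of_nonneg_left h5 (by positivity)
  refine le_trans (Finset.sum_le_sum hterm) ?_
  rw [Finset.sum_const, card_range, nsmul_eq_mul]
  apply le_of_eq
  unfold hw
  rw [← hM]
  push_cast
  ring

end Pool.Agent.SubBall
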