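import Pool.Agent.SubBall.Scale

/-! Iteration over the scales. -/

namespace Pool.Agent.SubBall

open Finset
open Classical

/-- the final exponent -/
noncomputable def cexp : ℝ := 1 / (3 * 10 ^ 6)

theorem cexp_pos : 0 < cexp := by unfold cexp; positivity

theorem cexp_le : cexp ≤ 1 := by unfold cexp; norm_num

theorem sixteen_le : (1 - 1 / 10 ^ 6 : ℝ) * 16 ^ cexp ≤ 1 := by
  have h1 : (16 : ℝ) ^ cexp ≤ Real.exp (1 / 10 ^ 6) := by
    rw [Real.rpow_def_of_pos (by norm_num)]
    apply Real.exp_le_exp.2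
    have h2 : Real.log 16 ≤ 3 := by
      have h3 : Real.log 16 = 4 * Real.log 2 := by
        rw [show (16 : ℝ) = 2 ^ 4 by norm_num, Real.log_pow]
        norm_num
      rw [h3]
      have := Real.log_two_lt_d9
      linarith
    unfold cexp
    linarith
  have h2 : (1 - 1 / 10 ^ 6 : ℝ) ≤ Real.exp (- (1 / 10 ^ 6)) := by
    have := Real.add_one_le_exp (-(1 / 10 ^ 6 : ℝ))
    linarith
  calc (1 - 1 / 10 ^ 6 : ℝ) * 16 ^ cexp ≤ Real.exp (- (1 / 10 ^ 6)) * Real.exp (1 / 10 ^ 6) :=
        mul_le_mul h2 h1 (by positivity) (Real.exp_pos _).le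
    _ = 1 := by rw [← Real.exp_add]; simp

theorem iterate {G : ℝ → ℝ} {t₀ c q : ℝ} (ht₀ : 1 ≤ t₀) (hc : 0 < c) (hc1 : c ≤ 1)
    (hq : q * 16 ^ c ≤ 1)
    (h0 : ∀ t, t₀ ≤ t → 0 ≤ G t) (h1 : ∀ t, t₀ ≤ t → G t ≤ 1)
    (hmono : ∀ s t, t₀ ≤ s → s ≤ t → G t ≤ G s)
    (hstep : ∀ t, t₀ ≤ t → G t ≤ Real.exp (-t) ∨ G (16 * t) ≤ q * G t) :
    ∀ t, t₀ ≤ t → G t * t ^ c ≤ (16 * t₀) ^ c + 16 := by
  have hpow : (0 : ℝ) ≤ (16 * t₀) ^ c := by positivity
  have key : ∀ k : ℕ, ∀ t, t₀ ≤ t → t ≤ 16 ^ (k + 1) * t₀ → G t * t ^ c ≤ (16 * t₀) ^ c + 16 := by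
    intro k
    induction k with
    | zero =>
      intro t ht ht'
      rw [zero_add, pow_one] at ht'
      have h2 : t ^ c ≤ (16 * t₀) ^ c := Real.rpow_le_rpow (by linarith) ht' hc.le
      have h3 : 0 ≤ t ^ c := Real.rpow_nonneg (by linarith) _
      have h4 := mul_le_mul (h1 t ht) h2 h3 zero_le_one
      linarith
    | succ k ih =>
      intro t ht ht'
      rcases le_or_gt t (16 ^ (k + 1) * t₀) with h | h
      · exact ih t ht h
      · have hs : t₀ ≤ t / 16 := by
          rw [le_div_iff₀ (by norm_num)]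
          have : (16 : ℝ) ≤ 16 ^ (k + 1) := by
            rw [pow_succ]
            have : (1 : ℝ) ≤ 16 ^ k := one_le_pow₀ (by norm_num)
            linarith
          nlinarith
        have hs' : t / 16 ≤ 16 ^ (k + 1) * t₀ := by
          rw [div_le_iff₀ (by norm_num)]
          calc t ≤ 16 ^ (k + 1 + 1) * t₀ := ht'
            _ = 16 ^ (k + 1) * t₀ * 16 := by ring
        have hs0 : 0 < t / 16 := by linarith
        have ht0 : 0 < t := by linarith
        rcases hstep (t / 16) hs with h2 | h2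
        · have h3 : G t ≤ Real.exp (-(t / 16)) :=
            le_trans (hmono (t / 16) t hs (by linarith)) h2
          have h4 : t ^ c ≤ t := by
            calc t ^ c ≤ t ^ (1 : ℝ) := Real.rpow_le_rpow_of_exponent_le (by linarith) hc1
              _ = t := Real.rpow_one t
          have h5 : Real.exp (-(t / 16)) * t ≤ 16 := by
            have h6 := Real.add_one_le_exp (t / 16)
            rw [Real.exp_neg, inv_mul_le_iff₀ (Real.exp_pos _)]
            linarith
          have h7 : G t * t ^ c ≤ Real.exp (-(t / 16)) * t :=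
            mul_le_mul h3 h4 (Real.rpow_nonneg ht0.le _) (Real.exp_pos _).le
          linarith
        · have h3 := ih (t / 16) hs hs'
          have h4 : 16 * (t / 16) = t := by ring
          rw [h4] at h2
          have h5 : t ^ c = 16 ^ c * (t / 16) ^ c := by
            rw [← Real.mul_rpow (by norm_num) hs0.le, h4]
          have h6 : G t * t ^ c ≤ (q * G (t / 16)) * t ^ c :=
            mul_le_mul_of_nonneg_right h2 (Real.rpow_nonneg ht0.le _)
          rw [h5] at h6 ⊢
          have h7 : q * G (t / 16) * (16 ^ c * (t / 16) ^ c) =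
              (q * 16 ^ c) * (G (t / 16) * (t / 16) ^ c) := by ring
          rw [h7] at h6
          have h8 : 0 ≤ G (t / 16) * (t / 16) ^ c :=
            mul_nonneg (h0 _ hs) (Real.rpow_nonneg hs0.le _)
          have h9 := mul_le_mul_of_nonneg_right hq h8
          linarith
  intro t ht
  obtain ⟨k, hk⟩ := pow_unbounded_of_one_lt (t / t₀) (show (1 : ℝ) < 16 by norm_num)
  apply key k t ht
  rw [div_lt_iff₀ (by linarith)] at hk
  refine le_trans hk.le ?_
  apply mul_le_mul_of_nonneg_right _ (by linarith)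
  exact pow_le_pow_right₀ (by norm_num) (by omega)

/-- decay of the drift -/
theorem psi_decay (m : ℕ) : ∃ C t₀ : ℝ, 1 ≤ t₀ ∧ ∀ t, t₀ ≤ t →
    psi (stv m) (cy m) (Real.exp (-t)) ^ 2 * t ^ cexp ≤ C := by
  set t₀ : ℝ := Real.log (1 / lam0 m) with ht₀
  have hlam := lam0_pos m
  have hexp : Real.exp (-t₀) = lam0 m := by
    rw [ht₀, one_div, Real.log_inv, neg_neg, Real.exp_log hlam]
  have ht1 : 1 ≤ t₀ := by
    rw [ht₀]
    rw [Real.le_log_iff_exp_le (by positivity), le_div_iff₀ hlam]
    have h1 := lam0_le m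
    have h2 := Real.exp_one_lt_d9
    have h3 : Real.exp 1 * lam0 m ≤ 3 * (1 / 10 ^ 48) :=
      mul_le_mul (by linarith) h1 hlam.le (by norm_num)
    refine le_trans h3 (by norm_num)
  have hl : ∀ t, t₀ ≤ t → Real.exp (-t) ≤ lam0 m := by
    intro t ht
    rw [← hexp]
    exact Real.exp_le_exp.2 (by linarith)
  have hl1 : ∀ t, t₀ ≤ t → Real.exp (-t) ≤ 1 := by
    intro t ht
    refine le_trans (hl t ht) (le_trans (lam0_le m) (by norm_num))
  set G : ℝ → ℝ := fun t => psi (stv m) (cy m) (Real.exp (-t)) *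
    psi (stv m) (cf m) (Real.exp (-t)) with hG
  have key := iterate (G := G) (t₀ := t₀) (c := cexp) (q := 1 - 1 / 10 ^ 6) ht1 cexp_pos
    cexp_le sixteen_le ?_ ?_ ?_ ?_
  · refine ⟨(16 * t₀) ^ cexp + 16, t₀, ht1, ?_⟩
    intro t ht
    refine le_trans ?_ (key t ht)
    apply mul_le_mul_of_nonneg_right _ (Real.rpow_nonneg (by linarith) _)
    rw [hG, sq]
    simp only
    exact mul_le_mul_of_nonneg_left (psi_cy_le m (Real.exp_pos _))
      ((good_cy m).psi_nonneg (Real.exp_pos _))
  · intro t _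
    exact mul_nonneg ((good_cy m).psi_nonneg (Real.exp_pos _))
      ((good_cf m).psi_nonneg (Real.exp_pos _))
  · intro t _
    exact mul_le_one₀ ((good_cy m).psi_le_one (Real.exp_pos _))
      ((good_cf m).psi_nonneg (Real.exp_pos _)) ((good_cf m).psi_le_one (Real.exp_pos _))
  · intro s t hs hst
    have h1 : Real.exp (-t) ≤ Real.exp (-s) := Real.exp_le_exp.2 (by linarith)
    exact mul_le_mul ((good_cy m).psi_mono (Real.exp_pos _) h1 (hl1 s hs))
      ((good_cf m).psi_mono (Real.exp_pos _) h1 (hl1 s hs))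
      ((good_cf m).psi_nonneg (Real.exp_pos _)) ((good_cy m).psi_nonneg (Real.exp_pos _))
  · intro t ht
    have h16 : Real.exp (-t) ^ 16 = Real.exp (-(16 * t)) := by
      rw [← Real.exp_nat_mul]
      congr 1
      push_cast
      ring
    rcases propM m (Real.exp_pos (-t)) (hl t ht) with h | h
    · left
      have h1 : psi (stv m) (cy m) (Real.exp (-t)) * psi (stv m) (cf m) (Real.exp (-t)) ≤
          Real.exp (-t) * 1 :=
        mul_le_mul h.le ((good_cf m).psi_le_one (Real.exp_pos _))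
          ((good_cf m).psi_nonneg (Real.exp_pos _)) (Real.exp_pos _).le
      rw [mul_one] at h1
      exact h1
    · right
      rw [h16] at h
      exact h

end Pool.Agent.SubBall
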