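import Pool.Agent.SubBall.Exch

/-! Exchange argument: a kink between two cuts. -/

namespace Pool.Agent.SubBall

open Finset
open Classical

variable {S V : Type} [Fintype S] [Inhabited S] [AddCommGroup V]

omit [Fintype S] [Inhabited S] in
theorem Lip.diff_le {vec : S → V} {φ : V →+ ℤ} (h : Lip vec φ) (w : ℕ → S) {i j : ℕ}
    (hij : i ≤ j) : |φ (pos vec w j - pos vec w i)| ≤ (j : ℤ) - i := by
  obtain ⟨a, rfl⟩ := Nat.exists_eq_add_of_le hij
  rw [pos_add, add_sub_cancel_left]
  have := h.abs_pos_le (sh i w) a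
  push_cast
  linarith

omit [Fintype S] [Inhabited S] in
theorem Kp_seg {vec : S → V} {k : V →+ ℤ} (σ : Sym vec) (hk : ∀ v, k (σ.L v) = k v)
    {s t : ℕ} (hst : s ≤ t) (w : ℕ → S) :
    Kp vec k (refl σ (seg s t) w) = Kp vec k w := by
  funext i
  unfold Kp
  rcases le_or_gt i s with h | h
  · rw [pos_seg_le σ w h]
  · rcases le_or_gt i t with h' | h'
    · rw [pos_seg_mid σ w h.le h', map_add, hk, map_sub]
      ring
    · rw [pos_seg_ge σ w hst h'.le, map_add, map_sub, hk, map_sub]
      ring

theorem kink_mem {vec : S → V} {k : V →+ ℤ} (σ : Sym vec) (hk : ∀ v, k (σ.L v) = k v)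
    {N s t : ℕ} {w : ℕ → S} (hw : w ∈ saws vec N) (hs : Cut (Kp vec k w) N s)
    (ht : Cut (Kp vec k w) N t) (hst : s ≤ t) :
    refl σ (seg s t) w ∈ saws vec N := by
  have hw' := mem_saws.1 hw
  rw [mem_saws]
  refine ⟨?_, saw_seg (k := k) σ hst ht.1 hw'.2 ?_ ?_ ?_ ?_⟩
  · intro a ha
    rw [refl_default]
    · exact hw'.1 a ha
    · have := ht.1
      simp only [seg, decide_eq_false_iff_not, not_and, not_lt]
      omega
  · intro i hi
    rw [Kp_seg σ hk hst w]
    exact hs.2.1 i hi
  · intro i h1 h2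
    rw [Kp_seg σ hk hst w]
    exact hs.2.2 i h1 (by have := ht.1; omega)
  · intro i h1 h2
    rw [Kp_seg σ hk hst w]
    exact ht.2.1 i h2
  · intro i h1 h2
    rw [Kp_seg σ hk hst w]
    exact ht.2.2 i h1 h2

/-- the triples of blocks in which a kink can be inserted -/
noncomputable def trips (vec : S → V) (k : V →+ ℤ) (n M : ℕ) (P : (ℕ → S) → Prop)
    (w : ℕ → S) : Finset ℕ :=
  (range M).filter (fun τ => P (blk n (3 * τ + 1) w) ∧
    HasCut (Kp vec k w) (n * (3 * M)) n (3 * τ) ∧
    HasCut (Kp vec k w) (n * (3 * M)) n (3 * τ + 2))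

omit [Fintype S] in
theorem blk_kink_mid {vec : S → V} (σ : Sym vec) {n b i j : ℕ} {w : ℕ → S}
    (hi : i ≤ n * b) (hj : n * (b + 1) ≤ j) :
    blk n b (refl σ (seg i j) w) = refl σ (seg 0 n) (blk n b w) := by
  funext a
  unfold blk cut sh refl
  by_cases ha : a < n
  · have h1 : seg i j (n * b + a) = true := by
      rw [Nat.mul_succ] at hj
      simp only [seg, decide_eq_true_eq]
      omega
    have h2 : seg 0 n a = true := by
      simp only [seg, decide_eq_true_eq]
      omega
    simp [ha, h1, h2]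
  · have h2 : seg 0 n a = false := by
      simp only [seg, decide_eq_false_iff_not]
      omega
    simp [ha, h2]

omit [Fintype S] in
theorem blk_kink_out {vec : S → V} (σ : Sym vec) {n b i j : ℕ} {w : ℕ → S}
    (h : n * (b + 1) ≤ i ∨ j ≤ n * b) :
    blk n b (refl σ (seg i j) w) = blk n b w := by
  funext a
  unfold blk cut sh refl
  by_cases ha : a < n
  · have h1 : seg i j (n * b + a) = false := by
      rw [Nat.mul_succ] at h
      simp only [seg, decide_eq_false_iff_not]
      omega
    simp [h1]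
  · simp [ha]

theorem kink {vec : S → V} {k g : V →+ ℤ} (σ : Sym vec)
    (hk : ∀ v, k (σ.L v) = k v) (hg : Lip vec g) (P Q : (ℕ → S) → Prop) (n M : ℕ)
    (hP : ∀ w ∈ saws vec n, P w → Q (refl σ (seg 0 n) w)) {l : ℝ} (hl : 0 ≤ l)
    (T : Finset (ℕ → S)) (hT : T ⊆ saws vec (n * (3 * M))) {m u : ℝ}
    (hT1 : ∀ w ∈ T, m ≤ (trips vec k n M P w).card)
    (hT2 : ∀ w ∈ T, (cnt n (3 * M) Q w : ℝ) ≤ u) (hu : 0 ≤ u) :
    m * ∑ w ∈ T, Real.exp (l * (g (pos vec w (n * (3 * M))) : ℝ)) ≤
      (u + 3) * (Real.exp (6 * l * n) * Z vec g (n * (3 * M)) l) := by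
  set N := n * (3 * M) with hN
  have h1 : m * ∑ w ∈ T, Real.exp (l * (g (pos vec w N) : ℝ)) ≤
      ∑ x ∈ T.sigma (fun w => trips vec k n M P w), Real.exp (l * (g (pos vec x.1 N) : ℝ)) := by
    rw [Finset.sum_sigma, Finset.mul_sum]
    refine Finset.sum_le_sum ?_
    intro w hw
    simp only [Finset.sum_const, nsmul_eq_mul]
    exact mul_le_mul_of_nonneg_right (hT1 w hw) (Real.exp_pos _).le
  refine le_trans h1 ?_
  -- the target
  set R : Finset ((ℕ → S) × ℕ) := (saws vec N ×ˢ range M).filter (fun x =>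
    (cnt n (3 * M) Q x.1 : ℝ) ≤ u + 3 ∧ Q (blk n (3 * x.2 + 1) x.1)) with hR
  have h2 : ∑ x ∈ T.sigma (fun w => trips vec k n M P w),
      Real.exp (l * (g (pos vec x.1 N) : ℝ)) ≤
      ∑ x ∈ R, Real.exp (6 * l * n) * Real.exp (l * (g (pos vec x.1 N) : ℝ)) := by
    refine sum_le_sum_inj _ _ (fun x : (Σ _ : ℕ → S, ℕ) =>
      ((refl σ (seg (fc (Kp vec k x.1) N n (3 * x.2)) (fc (Kp vec k x.1) N n (3 * x.2 + 2)))
        x.1, x.2) : (ℕ → S) × ℕ)) _
      (fun x => Real.exp (6 * l * n) * Real.exp (l * (g (pos vec x.1 N) : ℝ))) ?_ ?_ ?_ ?_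
    · rintro ⟨w, τ⟩ hx
      rw [Finset.mem_sigma] at hx
      obtain ⟨hx1, hx2⟩ := hx
      simp only at hx1 hx2
      unfold trips at hx2
      rw [Finset.mem_filter, Finset.mem_range] at hx2
      obtain ⟨hτ, hp, hc1, hc2⟩ := hx2
      obtain ⟨a1, a2, a3, -⟩ := fc_spec hc1
      obtain ⟨b1, b2, b3, -⟩ := fc_spec hc2
      set i := fc (Kp vec k w) N n (3 * τ) with hi
      set j := fc (Kp vec k w) N n (3 * τ + 2) with hj
      have hmul1 : n * (3 * τ + 1) ≤ n * (3 * τ + 2) := Nat.mul_le_mul_left n (by omega)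
      have hij : i ≤ j := by omega
      have hblk : blk n (3 * τ + 1) (refl σ (seg i j) w) =
          refl σ (seg 0 n) (blk n (3 * τ + 1) w) := blk_kink_mid σ (by omega) (by omega)
      have hbm : blk n (3 * τ + 1) w ∈ saws vec n := blk_mem (hT hx1) (by omega)
      simp only
      rw [hR, Finset.mem_filter, Finset.mem_product, Finset.mem_range]
      refine ⟨⟨kink_mem σ hk (hT hx1) a3 b3 hij, hτ⟩, ?_, ?_⟩
      · have h3 : cnt n (3 * M) Q (refl σ (seg i j) w) ≤
            cnt n (3 * M) Q w + 3 := by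
          unfold cnt
          have hsub : (range (3 * M)).filter (fun b => Q (blk n b (refl σ (seg i j) w))) ⊆
              (range (3 * M)).filter (fun b => Q (blk n b w)) ∪
                {3 * τ, 3 * τ + 1, 3 * τ + 2} := by
            intro b hb
            rw [Finset.mem_filter] at hb
            rw [Finset.mem_union, Finset.mem_filter]
            by_cases hb' : b = 3 * τ ∨ b = 3 * τ + 1 ∨ b = 3 * τ + 2
            · right
              simp only [Finset.mem_insert, Finset.mem_singleton]
              exact hb'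
            · left
              refine ⟨hb.1, ?_⟩
              rw [blk_kink_out σ] at hb
              · exact hb.2
              · rcases Nat.lt_or_ge b (3 * τ) with h | h
                · left
                  exact le_trans (Nat.mul_le_mul_left n h) a1
                · right
                  have : n * (3 * τ + 2 + 1) ≤ n * b := Nat.mul_le_mul_left n (by omega)
                  omega
          refine le_trans (Finset.card_le_card hsub) ?_
          refine le_trans (Finset.card_union_le _ _) ?_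
          apply Nat.add_le_add_left
          exact Finset.card_le_three
        have h4 := hT2 w hx1
        have h5 : (cnt n (3 * M) Q (refl σ (seg i j) w) : ℝ) ≤
            (cnt n (3 * M) Q w : ℝ) + 3 := by exact_mod_cast h3
        linarith
      · rw [hblk]
        exact hP _ hbm hp
    · rintro ⟨w, τ⟩ hx ⟨w', τ'⟩ hx' heq
      rw [Finset.mem_coe, Finset.mem_sigma] at hx hx'
      obtain ⟨hx1, hx2⟩ := hx
      obtain ⟨hx1', hx2'⟩ := hx'
      simp only at hx1 hx2 hx1' hx2'
      simp only [Prod.mk.injEq] at heq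
      obtain ⟨g1, g2⟩ := heq
      subst g2
      unfold trips at hx2 hx2'
      rw [Finset.mem_filter, ← hN] at hx2 hx2'
      obtain ⟨-, -, hc1, hc2⟩ := hx2
      obtain ⟨-, -, hc1', hc2'⟩ := hx2'
      obtain ⟨a1, a2, a3, -⟩ := fc_spec hc1
      obtain ⟨b1, b2, b3, -⟩ := fc_spec hc2
      obtain ⟨a1', a2', a3', -⟩ := fc_spec hc1'
      obtain ⟨b1', b2', b3', -⟩ := fc_spec hc2'
      have hmul1 : n * (3 * τ + 1) ≤ n * (3 * τ + 2) := Nat.mul_le_mul_left n (by omega)
      have hK : Kp vec k w = Kp vec k w' := by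
        rw [← Kp_seg σ hk (show fc (Kp vec k w) N n (3 * τ) ≤
          fc (Kp vec k w) N n (3 * τ + 2) by omega) w, g1,
          Kp_seg σ hk (show fc (Kp vec k w') N n (3 * τ) ≤
          fc (Kp vec k w') N n (3 * τ + 2) by omega) w']
      rw [hK] at g1
      have h3 := congrArg (refl σ (seg (fc (Kp vec k w') N n (3 * τ))
        (fc (Kp vec k w') N n (3 * τ + 2)))) g1
      rw [refl_refl, refl_refl] at h3
      rw [h3]
    · rintro ⟨w, τ⟩ hx
      rw [Finset.mem_sigma] at hx
      obtain ⟨hx1, hx2⟩ := hx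
      simp only at hx1 hx2
      unfold trips at hx2
      rw [Finset.mem_filter, Finset.mem_range] at hx2
      obtain ⟨hτ, hp, hc1, hc2⟩ := hx2
      obtain ⟨a1, a2, a3, -⟩ := fc_spec hc1
      obtain ⟨b1, b2, b3, -⟩ := fc_spec hc2
      set i := fc (Kp vec k w) N n (3 * τ) with hi
      set j := fc (Kp vec k w) N n (3 * τ + 2) with hj
      have hmul1 : n * (3 * τ + 1) ≤ n * (3 * τ + 2) := Nat.mul_le_mul_left n (by omega)
      have hij : i ≤ j := by omega
      simp only
      rw [← Real.exp_add]
      apply Real.exp_le_exp.2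
      have h3 : (g (pos vec w N) : ℝ) ≤ 6 * n + g (pos vec (refl σ (seg i j) w) N) := by
        have h4 := pos_seg_ge σ w hij b3.1
        have h5 := pos_seg_mid σ w (i := j) hij le_rfl
        have h6 : pos vec (refl σ (seg i j) w) i = pos vec w i := pos_seg_le σ w le_rfl
        have h7 := hg.diff_le w hij
        have h8 := hg.diff_le (refl σ (seg i j) w) hij
        have h9 : pos vec (refl σ (seg i j) w) j - pos vec (refl σ (seg i j) w) i =
            σ.L (pos vec w j - pos vec w i) := by
          rw [h5, h6]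
          abel
        rw [h9] at h8
        rw [h4, map_add, map_sub]
        have h10 := abs_le.1 h7
        have h11 := abs_le.1 h8
        have h12 : (j : ℤ) - i ≤ 3 * n := by
          have h13 : n * (3 * τ + 2 + 1) = n * (3 * τ) + 3 * n := by ring
          have h14 : j ≤ n * (3 * τ) + 3 * n := by omega
          have h15 : j ≤ i + 3 * n := by omega
          have : (j : ℤ) ≤ (i : ℤ) + 3 * n := by exact_mod_cast h15
          linarith
        have h16 : g (pos vec w N) ≤ 6 * n + (g (pos vec w N) +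
            (g (σ.L (pos vec w j - pos vec w i)) - g (pos vec w j - pos vec w i))) := by
          linarith
        exact_mod_cast h16
      nlinarith
    · intro x _
      positivity
  refine le_trans h2 ?_
  have h3 : ∑ x ∈ R, Real.exp (6 * l * n) * Real.exp (l * (g (pos vec x.1 N) : ℝ)) ≤
      ∑ w ∈ saws vec N, (u + 3) * (Real.exp (6 * l * n) *
        Real.exp (l * (g (pos vec w N) : ℝ))) := by
    rw [hR, Finset.sum_filter, Finset.sum_product]
    refine Finset.sum_le_sum ?_
    intro w _
    simp only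
    rw [← Finset.sum_filter, Finset.sum_const, nsmul_eq_mul]
    refine mul_le_mul_of_nonneg_right ?_ (by positivity)
    by_cases h : (cnt n (3 * M) Q w : ℝ) ≤ u + 3
    · refine le_trans ?_ h
      have h4 : ((range M).filter (fun τ => (cnt n (3 * M) Q w : ℝ) ≤ u + 3 ∧
          Q (blk n (3 * τ + 1) w))).card ≤ cnt n (3 * M) Q w := by
        unfold cnt
        refine Finset.card_le_card_of_injOn (fun τ => 3 * τ + 1) ?_ ?_
        · intro τ hτ
          rw [Finset.mem_coe, Finset.mem_filter, Finset.mem_range] at hτ ⊢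
          exact ⟨by simp only; omega, hτ.2.2⟩
        · intro a _ b _ hab
          simp only at hab
          omega
      exact_mod_cast h4
    · have h4 : (range M).filter (fun τ => (cnt n (3 * M) Q w : ℝ) ≤ u + 3 ∧
          Q (blk n (3 * τ + 1) w)) = ∅ := by
        ext τ
        simp [h]
      rw [h4]
      simp only [Finset.card_empty, Nat.cast_zero]
      linarith
  refine le_trans h3 ?_
  rw [← Finset.mul_sum, ← Finset.mul_sum]
  rfl

end Pool.Agent.SubBall
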