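import Pool.Agent.SubBall.Zig

/-! Walks with many large zigzags are rare. -/

namespace Pool.Agent.SubBall

open Finset
open Classical

variable {S V : Type} [Fintype S] [Inhabited S] [AddCommGroup V]

omit [Fintype S] [Inhabited S] in
theorem chi_bigz_false (vec : S → V) (k : V →+ ℤ) (N A : ℕ) (w : ℕ → S) (a : ℕ)
    (ha : N ≤ a) : chi (bigz vec k N A w) a = false := by
  simp only [chi, decide_eq_false_iff_not]
  rintro ⟨p, hp, -, h⟩
  have := (mem_bigz.1 hp).1.2.1
  omega

theorem large_zigs {vec : S → V} {k g : V →+ ℤ} {c : ℤ} (ρ : Sym vec)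
    (hk : ∀ v, k (ρ.L v) = - k v) (hg : ∀ v, g (ρ.L v) = g v - c * k v) (hc : 1 ≤ c)
    {A : ℕ} (hA : 2 ≤ A) {l₁ l₂ θ x : ℝ} (hl : 0 ≤ l₂) (hl' : l₂ ≤ l₁)
    (hlog : 2 * Real.log A / A ≤ l₁ / 8) (N : ℕ) (T : Finset (ℕ → S)) (hT : T ⊆ saws vec N)
    (hTx : ∀ w ∈ T, x ≤ (g (pos vec w N) : ℝ))
    (hTD : ∀ w ∈ T, θ * N ≤ (DD vec k N A w : ℝ)) :
    ∑ w ∈ T, Real.exp (l₂ * (g (pos vec w N) : ℝ)) ≤
      Real.exp ((N : ℝ) / A) * (Z vec g N l₁ *
        Real.exp (- (l₁ - l₂) * x - 7 / 8 * l₁ * (θ * N))) := by
  have hA0 : (0 : ℝ) < A := by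
    have : 0 < A := by omega
    exact_mod_cast this
  have hA1 : (1 : ℝ) ≤ A := by
    have : 1 ≤ A := by omega
    exact_mod_cast this
  set E : ℝ := Real.exp (- (l₁ - l₂) * x - 7 / 8 * l₁ * (θ * N)) with hE
  set y : ℝ := 1 / A with hy
  have hy0 : 0 < y := by positivity
  have hy1 : y ≤ 1 := by
    rw [hy, div_le_one hA0]; exact hA1
  have h1 : ∑ w ∈ T, Real.exp (l₂ * (g (pos vec w N) : ℝ)) ≤
      ∑ p ∈ words Bool N ×ˢ saws vec N,
        y ^ (bd N p.1).card * (Real.exp (l₁ * (g (pos vec p.2 N) : ℝ)) * E) := by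
    refine sum_le_sum_inj _ _ (fun w => (chi (bigz vec k N A w),
      refl ρ (chi (bigz vec k N A w)) w)) _ (fun p : (ℕ → Bool) × (ℕ → S) =>
        y ^ (bd N p.1).card * (Real.exp (l₁ * (g (pos vec p.2 N) : ℝ)) * E)) ?_ ?_ ?_ ?_
    · intro w hw
      have h2 := multi_unf ρ hk hg (bigz vec k N A w) w (hT hw)
        (fun p hp => (mem_bigz.1 hp).1)
      refine Finset.mem_product.2 ⟨?_, h2.1⟩
      rw [mem_words]
      intro a ha
      exact chi_bigz_false vec k N A w a ha
    · intro w _ w' _ heq
      simp only [Prod.mk.injEq] at heq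
      have h1 := heq.2
      rw [heq.1] at h1
      have h2 : refl ρ (chi (bigz vec k N A w')) (refl ρ (chi (bigz vec k N A w')) w) =
          refl ρ (chi (bigz vec k N A w')) (refl ρ (chi (bigz vec k N A w')) w') := by
        rw [h1]
      rwa [refl_refl, refl_refl] at h2
    · intro w hw
      have h2 := multi_unf ρ hk hg (bigz vec k N A w) w (hT hw)
        (fun p hp => (mem_bigz.1 hp).1)
      have h3 := bd_chi_le N (bigz vec k N A w)
      have h4 := card_bigz_le vec k N A w
      have h5 := DD_nonneg vec k N A w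
      have h6 := hTx w hw
      have h7 := hTD w hw
      set D : ℤ := DD vec k N A w with hD
      set m : ℕ := (bigz vec k N A w).card with hm
      have hDR : (0 : ℝ) ≤ (D : ℝ) := by exact_mod_cast h5
      have hmR : (m : ℝ) ≤ (D : ℝ) / A := by
        rw [le_div_iff₀ hA0]
        have : ((A : ℤ) * (m : ℤ) : ℤ) ≤ D := h4
        have h8 : (A : ℝ) * (m : ℝ) ≤ (D : ℝ) := by exact_mod_cast this
        linarith
      have h9 : Real.exp (- (l₁ / 8) * D) ≤ y ^ (bd N (chi (bigz vec k N A w))).card := by
        have h10 : y ^ (2 * m) ≤ y ^ (bd N (chi (bigz vec k N A w))).card :=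
          pow_le_pow_of_le_one hy0.le hy1 h3
        refine le_trans ?_ h10
        have h11 : y ^ (2 * m) = Real.exp (- (2 * m * Real.log A)) := by
          have : y = Real.exp (- Real.log A) := by
            rw [Real.exp_neg, Real.exp_log hA0, hy, one_div]
          rw [this, ← Real.exp_nat_mul]
          congr 1
          push_cast
          ring
        rw [h11]
        apply Real.exp_le_exp.2
        have h12 : 0 ≤ Real.log A := Real.log_nonneg hA1
        have h13 : 2 * (m : ℝ) * Real.log A ≤ 2 * ((D : ℝ) / A) * Real.log A := by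
          apply mul_le_mul_of_nonneg_right _ h12
          linarith
        have h14 : 2 * ((D : ℝ) / A) * Real.log A = (2 * Real.log A / A) * D := by
          field_simp
        have h15 : (2 * Real.log A / A) * D ≤ (l₁ / 8) * D :=
          mul_le_mul_of_nonneg_right hlog hDR
        linarith
      simp only
      calc Real.exp (l₂ * (g (pos vec w N) : ℝ))
          ≤ Real.exp (- (l₁ / 8) * D) * (Real.exp (l₁ *
            (g (pos vec (refl ρ (chi (bigz vec k N A w)) w) N) : ℝ)) * E) := by
            rw [hE, ← Real.exp_add, ← Real.exp_add]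
            apply Real.exp_le_exp.2
            have h16 : (g (pos vec w N) : ℝ) + D ≤
                (g (pos vec (refl ρ (chi (bigz vec k N A w)) w) N) : ℝ) := by
              rw [h2.2]
              have : (D : ℤ) ≤ c * D := by nlinarith
              have h17 : ((g (pos vec w N) + D : ℤ) : ℝ) ≤
                  ((g (pos vec w N) + c * D : ℤ) : ℝ) := by
                exact_mod_cast add_le_add_right this _
              push_cast at h17 ⊢
              have h18 : (D : ℝ) = ∑ p ∈ bigz vec k N A w,
                ((Kp vec k w p.1 : ℝ) - (Kp vec k w p.2 : ℝ)) := by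
                rw [hD]
                unfold DD
                push_cast
                rfl
              rw [← h18]
              exact h17
            have h19 : l₁ * ((g (pos vec w N) : ℝ) + D) ≤ l₁ *
                (g (pos vec (refl ρ (chi (bigz vec k N A w)) w) N) : ℝ) :=
              mul_le_mul_of_nonneg_left h16 (by linarith)
            have h20 : 0 ≤ (l₁ - l₂) * ((g (pos vec w N) : ℝ) - x) :=
              mul_nonneg (by linarith) (by linarith)
            have h21 : 0 ≤ l₁ * ((D : ℝ) - θ * N) :=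
              mul_nonneg (by linarith) (by linarith)
            nlinarith
        _ ≤ _ := by
            refine mul_le_mul_of_nonneg_right h9 ?_
            positivity
    · intro p _
      positivity
  refine le_trans h1 ?_
  rw [Finset.sum_product]
  simp only
  have h22 : ∀ χ ∈ words Bool N, ∑ w ∈ saws vec N, y ^ (bd N χ).card *
      (Real.exp (l₁ * (g (pos vec w N) : ℝ)) * E) = y ^ (bd N χ).card * (Z vec g N l₁ * E) := by
    intro χ _
    rw [← Finset.mul_sum, ← Finset.sum_mul]
    rfl
  rw [Finset.sum_congr rfl h22, ← Finset.sum_mul]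
  have h23 : ∑ χ ∈ words Bool N, y ^ (bd N χ).card ≤ Real.exp ((N : ℝ) / A) := by
    refine le_trans (sum_pats hy0.le) ?_
    have h24 : 1 + y ≤ Real.exp y := by
      have := Real.add_one_le_exp y
      linarith
    calc (1 + y) ^ N ≤ (Real.exp y) ^ N := pow_le_pow_left₀ (by positivity) h24 N
      _ = Real.exp (N * y) := by rw [← Real.exp_nat_mul]
      _ = Real.exp ((N : ℝ) / A) := by rw [hy, mul_one_div]
  refine mul_le_mul_of_nonneg_right h23 ?_
  have := Z_nonneg vec g N l₁
  positivity

end Pool.Agent.SubBall
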