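import Pool.Agent.SubBall.Lattice

/-! The decrease of the drift from one scale to the next. -/

namespace Pool.Agent.SubBall

open Finset
open Classical

theorem fast_card {S V : Type} [Fintype S] [Inhabited S] [AddCommGroup V] {vec : S → V}
    {φ : V →+ ℤ} (hφ : Good vec φ) (τ : Sym vec) {l₁ v : ℝ} (hl : 0 < l₁) (hl1 : l₁ ≤ 1)
    (n : ℕ) (hv : v ≤ psi vec φ l₁) (p : (ℕ → S) → Prop)
    (hp : ∀ w, p w → (1 + 2 / 10 ^ 6) * psi vec φ l₁ * n ≤ (φ (τ.L (pos vec w n)) : ℝ)) :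
    (((saws vec n).filter p).card : ℝ) ≤
      Real.exp (n * Lf vec φ 0 + AA S n - 2 * (1 / 10 ^ 6) * l₁ * v * n) := by
  set T := (saws vec n).filter p with hT
  have h1 : (T.card : ℝ) * Real.exp (l₁ * ((1 + 2 / 10 ^ 6) * psi vec φ l₁ * n)) ≤
      Z vec φ n l₁ := by
    rw [← Z_sym φ τ]
    unfold Z
    rw [← nsmul_eq_mul, ← Finset.sum_const]
    calc ∑ w ∈ T, Real.exp (l₁ * ((1 + 2 / 10 ^ 6) * psi vec φ l₁ * n))
        ≤ ∑ w ∈ T, Real.exp (l₁ * (((φ.comp τ.L) (pos vec w n) : ℤ) : ℝ)) := by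
          refine Finset.sum_le_sum ?_
          intro w hw
          apply Real.exp_le_exp.2
          exact mul_le_mul_of_nonneg_left (hp w (Finset.mem_filter.1 hw).2) hl.le
      _ ≤ _ := Finset.sum_le_sum_of_subset_of_nonneg (Finset.filter_subset _ _)
          (fun _ _ _ => (Real.exp_pos _).le)
  have h2 := hφ.Z_le_exp n hl.le hl1
  rw [Lf_eq (vec := vec) (φ := φ) hl] at h2
  have h3 := le_trans h1 h2
  rw [← le_div_iff₀ (Real.exp_pos _), ← Real.exp_sub] at h3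
  refine le_trans h3 ?_
  apply Real.exp_le_exp.2
  have h4 : l₁ * v * n ≤ l₁ * psi vec φ l₁ * n := by
    apply mul_le_mul_of_nonneg_right _ (Nat.cast_nonneg n)
    exact mul_le_mul_of_nonneg_left hv hl.le
  linarith

theorem card_filter_or_le {α : Type} (s : Finset α) (F p q r t : α → Prop)
    (hF : ∀ a, F a → p a ∨ q a ∨ r a ∨ t a) {B : ℝ}
    (hp : ((s.filter p).card : ℝ) ≤ B) (hq : ((s.filter q).card : ℝ) ≤ B)
    (hr : ((s.filter r).card : ℝ) ≤ B) (ht : ((s.filter t).card : ℝ) ≤ B) :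
    ((s.filter F).card : ℝ) ≤ 4 * B := by
  have h1 : s.filter F ⊆ (s.filter p ∪ s.filter q) ∪ (s.filter r ∪ s.filter t) := by
    intro a ha
    rw [Finset.mem_filter] at ha
    simp only [Finset.mem_union, Finset.mem_filter]
    rcases hF a ha.2 with h | h | h | h
    · exact Or.inl (Or.inl ⟨ha.1, h⟩)
    · exact Or.inl (Or.inr ⟨ha.1, h⟩)
    · exact Or.inr (Or.inl ⟨ha.1, h⟩)
    · exact Or.inr (Or.inr ⟨ha.1, h⟩)
  have h2 := le_trans (Finset.card_le_card h1) (Finset.card_union_le _ _)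
  have h3 := Finset.card_union_le (s.filter p) (s.filter q)
  have h4 := Finset.card_union_le (s.filter r) (s.filter t)
  have h5 : (s.filter F).card ≤ (s.filter p).card + (s.filter q).card +
    ((s.filter r).card + (s.filter t).card) := by omega
  have h6 : ((s.filter F).card : ℝ) ≤ (s.filter p).card + (s.filter q).card +
    ((s.filter r).card + (s.filter t).card) := by exact_mod_cast h5
  linarith

/-- two equal functionals on the lattice -/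
theorem psi_cf_le (m : ℕ) {l : ℝ} (hl : 0 < l) :
    psi (stv m) (cf m) (l / 2) ≤ 2 * psi (stv m) (cy m) l := by
  refine psi_half_le (σ := sSwap m) (good_cf m).e (good_cy m).e ?_ hl
  intro v
  rw [cf_apply, cy_apply, cy_apply, sSwap_L1]
  ring

theorem psi_cy_le (m : ℕ) {l : ℝ} (hl : 0 < l) :
    psi (stv m) (cy m) l ≤ psi (stv m) (cf m) l := by
  refine psi_avg_le (σ := sFlip m 0) (good_cy m).e (good_cf m).e ?_ hl
  intro v
  rw [cf_apply, cy_apply, cf_apply, sFlip_same, sFlip_other m 0 1 (by simp)]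
  ring

section Cases

variable {m n A : ℕ} {l v vf : ℝ}

/-- the first case: `ψ_f` is not much larger than `ψ_y` -/
theorem case_one (hn : 1 ≤ n) (hA : 2 ≤ A)
    (hl₁ : 1 / (6 * (n : ℝ)) ≤ l) (hl₁' : l ≤ 1) (hv : 0 < v)
    (hvy : psi (stv m) (cy m) l = v) (hvf : psi (stv m) (cf m) l = vf)
    (hvv : v ≤ vf) (hcase : vf < 6 / 5 * v)
    (hL₂ : Lf (stv m) (cy m) 0 + 1 / (6 * (n : ℝ)) * ((1 - 1 / 10 ^ 6) * v) ≤
      Lf (stv m) (cy m) (1 / (6 * (n : ℝ))))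
    (h3 : 2 ≤ 1 / 10 ^ 6 * l * v * n)
    (h4 : AA (St m) n + 2 ≤ 1 / 10 ^ 12 * l * v ^ 2 * n)
    (h5 : 2 * Real.log A / A ≤ l / 8) (h5' : 1 / (A : ℝ) ≤ l * v / 80000)
    (h6 : 16000 * (A : ℝ) ^ 3 ≤ v * n) : False := by
  have hn0 : (0 : ℝ) < n := by exact_mod_cast hn
  have hl0 : 0 < l := lt_of_lt_of_le (by positivity) hl₁
  have hv1 : v ≤ 1 := by rw [← hvy]; exact (good_cy m).psi_le_one hl0
  obtain ⟨p1, hp1⟩ : ∃ p : (ℕ → St m) → Prop, ∀ w, p w ↔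
    (1 + 2 / 10 ^ 6) * v * n ≤ ((pos (stv m) w n 1 : ℤ) : ℝ) := ⟨_, fun _ => Iff.rfl⟩
  obtain ⟨p2, hp2⟩ : ∃ p : (ℕ → St m) → Prop, ∀ w, p w ↔
    (1 + 2 / 10 ^ 6) * vf * n ≤ ((pos (stv m) w n 0 : ℤ) : ℝ) +
      ((pos (stv m) w n 1 : ℤ) : ℝ) := ⟨_, fun _ => Iff.rfl⟩
  obtain ⟨p3, hp3⟩ : ∃ p : (ℕ → St m) → Prop, ∀ w, p w ↔
    (1 + 2 / 10 ^ 6) * vf * n ≤ - ((pos (stv m) w n 0 : ℤ) : ℝ) +
      ((pos (stv m) w n 1 : ℤ) : ℝ) := ⟨_, fun _ => Iff.rfl⟩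
  obtain ⟨p4, hp4⟩ : ∃ p : (ℕ → St m) → Prop, ∀ w, p w ↔
    (1 + 2 / 10 ^ 6) * vf * n ≤ - ((pos (stv m) w n 0 : ℤ) : ℝ) -
      ((pos (stv m) w n 1 : ℤ) : ℝ) := ⟨_, fun _ => Iff.rfl⟩
  obtain ⟨F, hF⟩ : ∃ F : (ℕ → St m) → Prop, ∀ w, F w ↔ p1 w ∨ p2 w ∨ p3 w ∨ p4 w :=
    ⟨_, fun _ => Iff.rfl⟩
  refine core (vec := stv m) (k := cf m) (g := cy m) (c := 1) (sAnti m) (sSwap m) ?_ ?_ le_rfl
    ?_ (good_cy m) (lip_cf m) F
    hn hA hl₁ hl₁' hv le_rfl (by linarith) hv1 ?_ hL₂ ?_ h3 h4 h5 h5' h6 ?_ ?_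
  · intro u
    rw [cf_apply, cf_apply, sAnti_L0, sAnti_L1]
    ring
  · intro u
    rw [cf_apply, cy_apply, cy_apply, sAnti_L1]
    ring
  · intro u
    rw [cf_apply, cf_apply, sSwap_L0, sSwap_L1]
    ring
  · rw [Lf_eq (vec := stv m) (φ := cy m) hl0, hvy]
  · refine card_filter_or_le _ F p1 p2 p3 p4 (fun w hw => (hF w).1 hw) ?_ ?_ ?_ ?_
    · refine fast_card (good_cy m) (sEx m 1) hl0 hl₁' n (v := v) (by rw [hvy]) p1 ?_
      intro w hw
      rw [hvy, cy_apply, sEx_L]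
      exact (hp1 w).1 hw
    · rw [← Lf_congr_zero (stv m) (cf m) (cy m)]
      refine fast_card (good_cf m) (sSwap m) hl0 hl₁' n (v := v) (by rw [hvf]; exact hvv) p2 ?_
      intro w hw
      rw [hvf, cf_apply, sSwap_L0, sSwap_L1]
      have := (hp2 w).1 hw
      push_cast
      linarith
    · rw [← Lf_congr_zero (stv m) (cf m) (cy m)]
      refine fast_card (good_cf m) (sFlip m 0) hl0 hl₁' n (v := v) (by rw [hvf]; exact hvv) p3
        ?_
      intro w hw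
      rw [hvf, cf_apply, sFlip_same, sFlip_other m 0 1 (by simp)]
      have := (hp3 w).1 hw
      push_cast
      linarith
    · rw [← Lf_congr_zero (stv m) (cf m) (cy m)]
      refine fast_card (good_cf m) (sNeg m) hl0 hl₁' n (v := v) (by rw [hvf]; exact hvv) p4 ?_
      intro w hw
      rw [hvf, cf_apply, sNeg_L, Pi.neg_apply, Pi.neg_apply]
      have := (hp4 w).1 hw
      push_cast
      linarith
  · intro w _ hw
    rw [hF, not_or, not_or, not_or, hp1, hp2, hp3, hp4, not_le, not_le, not_le, not_le] at hw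
    obtain ⟨a1, a2, a3, a4⟩ := hw
    rw [cy_apply, cf_apply]
    push_cast
    refine ⟨a1.le, ?_⟩
    have : vf * n ≤ 6 / 5 * v * n := mul_le_mul_of_nonneg_right hcase.le hn0.le
    have hvn : 0 < v * n := by positivity
    linarith
  · intro w _ hw hg
    rw [hF, not_or, not_or, not_or, hp1, hp2, hp3, hp4, not_le, not_le, not_le, not_le] at hw
    obtain ⟨a1, a2, a3, a4⟩ := hw
    rw [cy_apply] at hg
    rw [cf_apply, cy_apply, pos_seg_mid (sSwap m) w (Nat.zero_le _) le_rfl]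
    simp only [pos_zero, sub_zero, zero_add, sSwap_L1]
    push_cast
    have : vf * n ≤ 6 / 5 * v * n := mul_le_mul_of_nonneg_right hcase.le hn0.le
    have hvn : 0 < v * n := by positivity
    constructor
    · linarith
    · linarith

/-- the second case: `ψ_f` is larger than `ψ_y` -/
theorem case_two (hn : 1 ≤ n) (hA : 2 ≤ A)
    (hl₁ : 1 / (6 * (n : ℝ)) ≤ l) (hl₁' : l ≤ 1) (hv : 0 < v)
    (hvy : psi (stv m) (cy m) l = v) (hvf : psi (stv m) (cf m) l = vf)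
    (hvf3 : vf ≤ 3 * v) (hcase : 6 / 5 * v ≤ vf)
    (hL₂ : Lf (stv m) (cf m) 0 + 1 / (6 * (n : ℝ)) * ((1 - 1 / 10 ^ 6) * vf) ≤
      Lf (stv m) (cf m) (1 / (6 * (n : ℝ))))
    (h3 : 2 ≤ 1 / 10 ^ 6 * l * v * n)
    (h4 : AA (St m) n + 2 ≤ 1 / 10 ^ 12 * l * v ^ 2 * n)
    (h5 : 2 * Real.log A / A ≤ l / 8) (h5' : 1 / (A : ℝ) ≤ l * v / 80000)
    (h6 : 16000 * (A : ℝ) ^ 3 ≤ v * n) : False := by
  have hn0 : (0 : ℝ) < n := by exact_mod_cast hn
  have hl0 : 0 < l := lt_of_lt_of_le (by positivity) hl₁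
  have hvf1 : vf ≤ 1 := by rw [← hvf]; exact (good_cf m).psi_le_one hl0
  obtain ⟨p1, hp1⟩ : ∃ p : (ℕ → St m) → Prop, ∀ w, p w ↔
    (1 + 2 / 10 ^ 6) * vf * n ≤ ((pos (stv m) w n 0 : ℤ) : ℝ) +
      ((pos (stv m) w n 1 : ℤ) : ℝ) := ⟨_, fun _ => Iff.rfl⟩
  obtain ⟨p2, hp2⟩ : ∃ p : (ℕ → St m) → Prop, ∀ w, p w ↔
    (1 + 2 / 10 ^ 6) * v * n ≤ ((pos (stv m) w n 0 : ℤ) : ℝ) := ⟨_, fun _ => Iff.rfl⟩
  obtain ⟨p3, hp3⟩ : ∃ p : (ℕ → St m) → Prop, ∀ w, p w ↔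
    (1 + 2 / 10 ^ 6) * v * n ≤ ((pos (stv m) w n 1 : ℤ) : ℝ) := ⟨_, fun _ => Iff.rfl⟩
  obtain ⟨p4, hp4⟩ : ∃ p : (ℕ → St m) → Prop, ∀ w, p w ↔
    (1 + 2 / 10 ^ 6) * v * n ≤ - ((pos (stv m) w n 1 : ℤ) : ℝ) := ⟨_, fun _ => Iff.rfl⟩
  obtain ⟨F, hF⟩ : ∃ F : (ℕ → St m) → Prop, ∀ w, F w ↔ p1 w ∨ p2 w ∨ p3 w ∨ p4 w :=
    ⟨_, fun _ => Iff.rfl⟩
  refine core (vec := stv m) (k := cy m) (g := cf m) (c := 2) (sFlip m 1) (sFlip m 0) ?_ ?_
    (by norm_num) ?_ (good_cf m) (lip_cy m) F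
    hn hA hl₁ hl₁' hv (by linarith) hvf3 hvf1 ?_ hL₂ ?_ h3 h4 h5 h5' h6 ?_ ?_
  · intro u
    rw [cy_apply, cy_apply, sFlip_same]
  · intro u
    rw [cf_apply, cf_apply, cy_apply, sFlip_same, sFlip_other m 1 0 (by simp)]
    ring
  · intro u
    rw [cy_apply, cy_apply, sFlip_other m 0 1 (by simp)]
  · rw [Lf_eq (vec := stv m) (φ := cf m) hl0, hvf]
  · refine card_filter_or_le _ F p1 p2 p3 p4 (fun w hw => (hF w).1 hw) ?_ ?_ ?_ ?_
    · refine fast_card (good_cf m) (sSwap m) hl0 hl₁' n (v := v) (by rw [hvf]; linarith) p1 ?_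
      intro w hw
      rw [hvf, cf_apply, sSwap_L0, sSwap_L1]
      have := (hp1 w).1 hw
      push_cast
      linarith
    · rw [← Lf_congr_zero (stv m) (cy m) (cf m)]
      refine fast_card (good_cy m) (sSwap m) hl0 hl₁' n (v := v) (by rw [hvy]) p2 ?_
      intro w hw
      rw [hvy, cy_apply, sSwap_L1]
      exact (hp2 w).1 hw
    · rw [← Lf_congr_zero (stv m) (cy m) (cf m)]
      refine fast_card (good_cy m) (sEx m 1) hl0 hl₁' n (v := v) (by rw [hvy]) p3 ?_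
      intro w hw
      rw [hvy, cy_apply, sEx_L]
      exact (hp3 w).1 hw
    · rw [← Lf_congr_zero (stv m) (cy m) (cf m)]
      refine fast_card (good_cy m) (sNeg m) hl0 hl₁' n (v := v) (by rw [hvy]) p4 ?_
      intro w hw
      rw [hvy, cy_apply, sNeg_L, Pi.neg_apply]
      have := (hp4 w).1 hw
      push_cast
      linarith
  · intro w _ hw
    rw [hF, not_or, not_or, not_or, hp1, hp2, hp3, hp4, not_le, not_le, not_le, not_le] at hw
    obtain ⟨a1, a2, a3, a4⟩ := hw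
    rw [cy_apply, cf_apply]
    push_cast
    have hvn : 0 < v * n := by positivity
    refine ⟨a1.le, ?_⟩
    linarith
  · intro w _ hw hg
    rw [hF, not_or, not_or, not_or, hp1, hp2, hp3, hp4, not_le, not_le, not_le, not_le] at hw
    obtain ⟨a1, a2, a3, a4⟩ := hw
    rw [cf_apply] at hg
    rw [cf_apply, cy_apply, pos_seg_mid (sFlip m 0) w (Nat.zero_le _) le_rfl]
    simp only [pos_zero, sub_zero, zero_add, sFlip_same, sFlip_other m 0 1 (by simp)]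
    push_cast at hg ⊢
    have : 6 / 5 * v * n ≤ vf * n := mul_le_mul_of_nonneg_right hcase hn0.le
    have hvn : 0 < v * n := by positivity
    constructor
    · linarith
    · linarith

end Cases

end Pool.Agent.SubBall
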