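import Pool.Agent.SubBall.Basic

/-! Symmetries of the step system, partial reflections of walks and counting of patterns. -/

namespace Pool.Agent.SubBall

open Finset
open Classical

variable {S V : Type} [Fintype S] [Inhabited S] [AddCommGroup V]

/-- a symmetry of the step system: an involution of the steps induced by an injective
additive map -/
structure Sym (vec : S → V) where
  /-- the involution of the steps -/
  f : S → S
  /-- the additive map -/
  L : V →+ V
  inj : Function.Injective L
  vec_f : ∀ s, vec (f s) = L (vec s)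
  inv : ∀ s, f (f s) = s

/-- apply the symmetry to the steps marked by `χ` -/
def refl {vec : S → V} (σ : Sym vec) (χ : ℕ → Bool) (w : ℕ → S) : ℕ → S :=
  fun a => if χ a then σ.f (w a) else w a

omit [Fintype S] [Inhabited S] in
theorem refl_refl {vec : S → V} (σ : Sym vec) (χ : ℕ → Bool) (w : ℕ → S) :
    refl σ χ (refl σ χ w) = w := by
  funext a
  unfold refl
  by_cases h : χ a
  · simp [h, σ.inv]
  · simp [h]

omit [Fintype S] [Inhabited S] in
theorem refl_default {vec : S → V} (σ : Sym vec) {χ : ℕ → Bool} {w : ℕ → S} {a : ℕ}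
    (h : χ a = false) : refl σ χ w a = w a := by
  simp [refl, h]

/-- all steps -/
def mp {vec : S → V} (σ : Sym vec) (w : ℕ → S) : ℕ → S := fun a => σ.f (w a)

omit [Fintype S] [Inhabited S] in
theorem pos_mp {vec : S → V} (σ : Sym vec) (w : ℕ → S) (i : ℕ) :
    pos vec (mp σ w) i = σ.L (pos vec w i) := by
  unfold pos mp
  rw [map_sum]
  exact Finset.sum_congr rfl (fun a _ => σ.vec_f _)

/-- the interval `[s, t)` -/
def seg (s t : ℕ) : ℕ → Bool := fun a => decide (s ≤ a ∧ a < t)

omit [Fintype S] [Inhabited S] in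
theorem pos_seg_le {vec : S → V} (σ : Sym vec) (w : ℕ → S) {s t i : ℕ} (h : i ≤ s) :
    pos vec (refl σ (seg s t) w) i = pos vec w i := by
  apply pos_congr
  intro a ha
  apply refl_default
  simp only [seg, decide_eq_false_iff_not, not_and, not_lt]
  omega

omit [Fintype S] [Inhabited S] in
theorem pos_seg_mid {vec : S → V} (σ : Sym vec) (w : ℕ → S) {s t i : ℕ} (h : s ≤ i)
    (h' : i ≤ t) :
    pos vec (refl σ (seg s t) w) i = pos vec w s + σ.L (pos vec w i - pos vec w s) := by
  obtain ⟨j, rfl⟩ := Nat.exists_eq_add_of_le h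
  rw [pos_add, pos_seg_le σ w le_rfl, pos_add]
  congr 1
  rw [add_sub_cancel_left, ← pos_mp]
  apply pos_congr
  intro a ha
  have : seg s t (s + a) = true := by
    simp only [seg, decide_eq_true_eq]
    omega
  simp [sh, refl, mp, this]

omit [Fintype S] [Inhabited S] in
theorem pos_seg_ge {vec : S → V} (σ : Sym vec) (w : ℕ → S) {s t i : ℕ} (hst : s ≤ t)
    (h : t ≤ i) :
    pos vec (refl σ (seg s t) w) i = pos vec w i +
      (σ.L (pos vec w t - pos vec w s) - (pos vec w t - pos vec w s)) := by
  obtain ⟨j, rfl⟩ := Nat.exists_eq_add_of_le h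
  rw [pos_add, pos_seg_mid σ w hst le_rfl, pos_add]
  have e : pos vec (sh t (refl σ (seg s t) w)) j = pos vec (sh t w) j := by
    apply pos_congr
    intro a ha
    have : seg s t (t + a) = false := by
      simp only [seg, decide_eq_false_iff_not, not_and, not_lt]
      omega
    simp [sh, refl, this]
  rw [e]
  abel

/-- the previous value of a pattern -/
def prev (χ : ℕ → Bool) (a : ℕ) : Bool := if a = 0 then false else χ (a - 1)

/-- the places where a pattern changes -/
def bd (N : ℕ) (χ : ℕ → Bool) : Finset ℕ := (range N).filter (fun a => χ a ≠ prev χ a)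

theorem mem_bd {N : ℕ} {χ : ℕ → Bool} {a : ℕ} : a ∈ bd N χ ↔ a < N ∧ χ a ≠ prev χ a := by
  simp [bd]

theorem bd_inj {N : ℕ} {χ χ' : ℕ → Bool} (h : χ ∈ words Bool N) (h' : χ' ∈ words Bool N)
    (hb : bd N χ = bd N χ') : χ = χ' := by
  rw [mem_words] at h h'
  funext a
  induction a with
  | zero =>
    by_cases hN : 0 < N
    · have h1 : (0 ∈ bd N χ) ↔ (0 ∈ bd N χ') := by rw [hb]
      rw [mem_bd, mem_bd] at h1
      simp only [hN, true_and, prev, if_true] at h1
      cases hc : χ 0 <;> cases hc' : χ' 0 <;> simp [hc, hc'] at h1 ⊢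
    · rw [h 0 (by omega), h' 0 (by omega)]
  | succ a ih =>
    by_cases hN : a + 1 < N
    · have h1 : (a + 1 ∈ bd N χ) ↔ (a + 1 ∈ bd N χ') := by rw [hb]
      rw [mem_bd, mem_bd] at h1
      simp only [hN, true_and, prev, Nat.succ_ne_zero, if_false, Nat.add_sub_cancel] at h1
      rw [ih] at h1
      cases hc : χ (a + 1) <;> cases hc' : χ' (a + 1) <;> cases hd : χ' a <;>
        simp [hc, hc', hd] at h1 ⊢
    · rw [h (a + 1) (by omega), h' (a + 1) (by omega)]

theorem sum_pats {N : ℕ} {y : ℝ} (hy : 0 ≤ y) :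
    ∑ χ ∈ words Bool N, y ^ (bd N χ).card ≤ (1 + y) ^ N := by
  have h1 : ∑ T ∈ (range N).powerset, y ^ T.card = (1 + y) ^ N := by
    have := Finset.sum_pow_mul_eq_add_pow y 1 (range N)
    simp only [one_pow, mul_one, card_range] at this
    rw [this, add_comm]
  rw [← h1]
  refine sum_le_sum_inj _ _ (bd N) _ (fun T => y ^ T.card) ?_ ?_ ?_ ?_
  · intro χ _
    rw [Finset.mem_powerset]
    exact Finset.filter_subset _ _
  · intro χ h χ' h' hb
    exact bd_inj h h' hb
  · intro χ _; exact le_rfl
  · intro T _; positivity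

/-- patterns with few changes -/
noncomputable def pats (N r : ℕ) : Finset (ℕ → Bool) :=
  (words Bool N).filter (fun χ => (bd N χ).card ≤ r)

theorem card_pats_le (N r : ℕ) : ((pats N r).card : ℝ) ≤ Real.exp 1 * (N + 1 : ℝ) ^ r := by
  have hN : (0 : ℝ) < (N : ℝ) + 1 := by positivity
  set y : ℝ := 1 / ((N : ℝ) + 1) with hy
  have hy0 : 0 < y := by positivity
  have hy1 : y ≤ 1 := by
    rw [hy, div_le_one hN]
    have : (0 : ℝ) ≤ N := Nat.cast_nonneg N
    linarith
  have h1 : ((pats N r).card : ℝ) * y ^ r ≤ (1 + y) ^ N := by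
    refine le_trans ?_ (sum_pats hy0.le)
    rw [← nsmul_eq_mul, ← Finset.sum_const]
    calc ∑ χ ∈ pats N r, y ^ r ≤ ∑ χ ∈ pats N r, y ^ (bd N χ).card := by
          refine Finset.sum_le_sum ?_
          intro χ hχ
          unfold pats at hχ
          rw [Finset.mem_filter] at hχ
          exact pow_le_pow_of_le_one hy0.le hy1 hχ.2
      _ ≤ ∑ χ ∈ words Bool N, y ^ (bd N χ).card := by
          refine Finset.sum_le_sum_of_subset_of_nonneg (Finset.filter_subset _ _) ?_
          intro χ _ _
          positivity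
  have h2 : (1 + y) ^ N ≤ Real.exp 1 := by
    have h3 : 1 + y ≤ Real.exp y := by
      have := Real.add_one_le_exp y
      linarith
    calc (1 + y) ^ N ≤ (Real.exp y) ^ N := by
          exact pow_le_pow_left₀ (by positivity) h3 N
      _ = Real.exp (N * y) := by rw [← Real.exp_nat_mul]
      _ ≤ Real.exp 1 := by
          apply Real.exp_le_exp.2
          rw [hy, mul_one_div, div_le_one hN]
          linarith
  have h4 : y ^ r = 1 / ((N : ℝ) + 1) ^ r := by rw [hy, div_pow, one_pow]
  rw [h4, mul_one_div, div_le_iff₀ (by positivity)] at h1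
  refine le_trans h1 ?_
  exact mul_le_mul_of_nonneg_right h2 (by positivity)

end Pool.Agent.SubBall
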