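import Pool.Agent.SubBall.PropM

/-! The decrease of the drift from one scale to the next: choice of the parameters. -/

namespace Pool.Agent.SubBall

open Finset
open Classical

/-- the smallness required of the tilt -/
noncomputable def lam0 (m : ℕ) : ℝ := 1 / ((KS (St m) + 2) ^ 4 * 10 ^ 48)

theorem lam0_pos (m : ℕ) : 0 < lam0 m := by
  unfold lam0
  have := KS_pos (S := St m)
  positivity

theorem lam0_le (m : ℕ) : lam0 m ≤ 1 / 10 ^ 48 := by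
  unfold lam0
  have h := KS_pos (S := St m)
  apply one_div_le_one_div_of_le (by positivity)
  have h1 : (1 : ℝ) ≤ (KS (St m) + 2) ^ 4 := one_le_pow₀ (by linarith)
  nlinarith

theorem num_h3 {μ l v n : ℝ} (hμl : μ * l = 1) (hl0 : 0 < l) (hv : l ≤ v)
    (hμ : 10 ^ 7 ≤ μ) (hn1 : μ ^ 15 ≤ n) : 2 ≤ 1 / 10 ^ 6 * l * v * n := by
  have hμ1 : 1 ≤ μ := le_trans (by norm_num) hμ
  have hμ0 : 0 < μ := by linarith
  have hv0 : 0 < v := lt_of_lt_of_le hl0 hv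
  have h1 : l * l * μ ^ 15 ≤ l * v * n := by
    apply mul_le_mul _ hn1 (by positivity) (by positivity)
    exact mul_le_mul_of_nonneg_left hv hl0.le
  have h2 : l * l * μ ^ 15 = (μ * l) ^ 2 * μ ^ 13 := by ring
  rw [h2, hμl, one_pow, one_mul] at h1
  have h3 : μ ≤ μ ^ 13 := by
    calc μ = μ ^ 1 := (pow_one _).symm
      _ ≤ μ ^ 13 := pow_le_pow_right₀ hμ1 (by norm_num)
  have h4 : 10 ^ 7 ≤ l * v * n := le_trans hμ (le_trans h3 h1)
  have h5 : 1 / 10 ^ 6 * l * v * n = (l * v * n) / 10 ^ 6 := by ring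
  rw [h5, le_div_iff₀ (by norm_num)]
  refine le_trans ?_ h4
  norm_num

theorem num_h4 {μ l v K r a : ℝ} (hμl : μ * l = 1) (hl0 : 0 < l) (hv : l ≤ v)
    (hK2 : 2 ≤ K) (hμK : K ^ 4 * 10 ^ 48 ≤ μ) (hμ1 : 1 ≤ μ) (hr0 : 0 < r)
    (hn1 : μ ^ 15 ≤ r ^ 4) (ha : a ≤ (K - 2) * r ^ 3) :
    a + 2 ≤ 1 / 10 ^ 12 * l * v ^ 2 * r ^ 4 := by
  have hμ0 : 0 < μ := by linarith
  have h1 : K * 10 ^ 12 * μ ^ 3 ≤ r := by
    have h2 : (K * 10 ^ 12 * μ ^ 3) ^ 4 ≤ r ^ 4 := by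
      refine le_trans ?_ hn1
      have h3 : (K * 10 ^ 12 * μ ^ 3) ^ 4 = (K ^ 4 * 10 ^ 48) * μ ^ 12 := by ring
      rw [h3]
      have h4 : μ ^ 15 = μ ^ 3 * μ ^ 12 := by ring
      rw [h4]
      apply mul_le_mul_of_nonneg_right _ (by positivity)
      refine le_trans hμK ?_
      calc μ = μ ^ 1 := (pow_one _).symm
        _ ≤ μ ^ 3 := pow_le_pow_right₀ hμ1 (by norm_num)
    exact le_of_pow_le_pow_left₀ (by norm_num) hr0.le h2
  have hr1 : 1 ≤ r := by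
    refine le_trans ?_ h1
    have h6 : (1 : ℝ) ≤ μ ^ 3 := one_le_pow₀ hμ1
    have h7 : (1 : ℝ) ≤ K * 10 ^ 12 := by linarith
    calc (1 : ℝ) = 1 * 1 := by norm_num
      _ ≤ K * 10 ^ 12 * μ ^ 3 := mul_le_mul h7 h6 (by norm_num) (by linarith)
  have h7 : 1 ≤ r ^ 3 := one_le_pow₀ hr1
  have h8 : a + 2 ≤ K * r ^ 3 := by linarith
  refine le_trans h8 ?_
  have h9 : l ^ 3 * r ^ 4 ≤ l * v ^ 2 * r ^ 4 := by
    apply mul_le_mul_of_nonneg_right _ (by positivity)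
    have h10 : l ^ 2 ≤ v ^ 2 := pow_le_pow_left₀ hl0.le hv 2
    calc l ^ 3 = l * l ^ 2 := by ring
      _ ≤ l * v ^ 2 := mul_le_mul_of_nonneg_left h10 hl0.le
  have h10 : 10 ^ 12 * (K * r ^ 3) ≤ l ^ 3 * r ^ 4 := by
    have h11 : l ^ 3 * (K * 10 ^ 12 * μ ^ 3) * r ^ 3 ≤ l ^ 3 * r * r ^ 3 := by
      apply mul_le_mul_of_nonneg_right _ (by positivity)
      exact mul_le_mul_of_nonneg_left h1 (by positivity)
    have h12 : l ^ 3 * (K * 10 ^ 12 * μ ^ 3) * r ^ 3 =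
        (μ * l) ^ 3 * (10 ^ 12 * (K * r ^ 3)) := by ring
    rw [h12, hμl, one_pow, one_mul] at h11
    have h13 : l ^ 3 * r * r ^ 3 = l ^ 3 * r ^ 4 := by ring
    rw [h13] at h11
    exact h11
  have h14 := le_trans h10 h9
  have h15 : 1 / 10 ^ 12 * l * v ^ 2 * r ^ 4 = (l * v ^ 2 * r ^ 4) / 10 ^ 12 := by ring
  rw [h15, le_div_iff₀ (by norm_num)]
  linarith

theorem num_h5 {μ l A : ℝ} (hμl : μ * l = 1) (hl0 : 0 < l) (hμ : 1024 ≤ μ)
    (hA1 : μ ^ 3 ≤ A) : 2 * Real.log A / A ≤ l / 8 := by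
  have hμ0 : 0 < μ := by linarith
  have hApos : 0 < A := lt_of_lt_of_le (by positivity) hA1
  have h1 : Real.log A ≤ 2 * Real.sqrt A := by
    have h2 := Real.log_le_sub_one_of_pos (Real.sqrt_pos.2 hApos)
    rw [Real.log_sqrt hApos.le] at h2
    linarith
  have hs : Real.sqrt A * Real.sqrt A = A := Real.mul_self_sqrt hApos.le
  have hs0 : 0 < Real.sqrt A := Real.sqrt_pos.2 hApos
  have h2 : 32 * μ ≤ Real.sqrt A := by
    apply Real.le_sqrt_of_sq_le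
    refine le_trans ?_ hA1
    have h3 : (32 * μ) ^ 2 = 1024 * μ ^ 2 := by ring
    rw [h3]
    have h4 : μ ^ 3 = μ * μ ^ 2 := by ring
    rw [h4]
    exact mul_le_mul_of_nonneg_right hμ (by positivity)
  rw [div_le_iff₀ hApos]
  have h3 : l / 8 * (32 * μ) * Real.sqrt A ≤ l / 8 * Real.sqrt A * Real.sqrt A := by
    apply mul_le_mul_of_nonneg_right _ hs0.le
    exact mul_le_mul_of_nonneg_left h2 (by positivity)
  have h4 : l / 8 * (32 * μ) * Real.sqrt A = 4 * (μ * l) * Real.sqrt A := by ring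
  rw [h4, hμl, mul_assoc (l / 8), hs] at h3
  linarith

theorem num_h5' {μ l v A : ℝ} (hμl : μ * l = 1) (hl0 : 0 < l) (hv : l ≤ v)
    (hμ : 80000 ≤ μ) (hA1 : μ ^ 3 ≤ A) : 1 / A ≤ l * v / 80000 := by
  have hμ0 : 0 < μ := by linarith
  have hv0 : 0 < v := lt_of_lt_of_le hl0 hv
  have hApos : 0 < A := lt_of_lt_of_le (by positivity) hA1
  rw [div_le_iff₀ hApos]
  have h1 : l * l * μ ^ 3 ≤ l * v * A := by
    apply mul_le_mul _ hA1 (by positivity) (by positivity)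
    exact mul_le_mul_of_nonneg_left hv hl0.le
  have h2 : l * l * μ ^ 3 = (μ * l) ^ 2 * μ := by ring
  rw [h2, hμl, one_pow, one_mul] at h1
  linarith

theorem num_h6 {μ l v n A : ℝ} (hμl : μ * l = 1) (hl0 : 0 < l) (hv : l ≤ v)
    (hμ : 128000 ≤ μ) (hA0 : 0 ≤ A) (hA2 : A ≤ 2 * μ ^ 3) (hn1 : μ ^ 15 ≤ n) :
    16000 * A ^ 3 ≤ v * n := by
  have hμ0 : 0 < μ := by linarith
  have hv0 : 0 < v := lt_of_lt_of_le hl0 hv
  have h1 : A ^ 3 ≤ (2 * μ ^ 3) ^ 3 := pow_le_pow_left₀ hA0 hA2 3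
  have h2 : l * μ ^ 15 ≤ v * n := mul_le_mul hv hn1 (by positivity) hv0.le
  have h3 : l * μ ^ 15 = (μ * l) * μ ^ 14 := by ring
  rw [h3, hμl, one_mul] at h2
  have h4 : (2 * μ ^ 3) ^ 3 = 8 * μ ^ 9 := by ring
  have h7 : 128000 * μ ^ 9 ≤ μ ^ 14 := by
    have h8 : μ ^ 14 = μ ^ 5 * μ ^ 9 := by ring
    rw [h8]
    apply mul_le_mul_of_nonneg_right _ (by positivity)
    refine le_trans hμ ?_
    calc μ = μ ^ 1 := (pow_one _).symm
      _ ≤ μ ^ 5 := pow_le_pow_right₀ (by linarith) (by norm_num)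
  linarith

theorem propM (m : ℕ) {l : ℝ} (hl0 : 0 < l) (hl : l ≤ lam0 m) :
    psi (stv m) (cy m) l < l ∨
      psi (stv m) (cy m) (l ^ 16) * psi (stv m) (cf m) (l ^ 16) ≤
        (1 - 1 / 10 ^ 6) * (psi (stv m) (cy m) l * psi (stv m) (cf m) l) := by
  by_contra hcon
  rw [not_or, not_lt, not_le] at hcon
  obtain ⟨hv, hP⟩ := hcon
  set v := psi (stv m) (cy m) l with hvdef
  set vf := psi (stv m) (cf m) l with hvfdef
  set K := KS (St m) + 2 with hK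
  have hK2 : 2 ≤ K := by
    have := KS_pos (S := St m)
    linarith
  have hl48 : l ≤ 1 / 10 ^ 48 := le_trans hl (lam0_le m)
  have hl1 : l ≤ 1 := le_trans hl48 (by norm_num)
  -- the large parameter
  set μ : ℝ := 1 / l with hμ
  have hμl : μ * l = 1 := by rw [hμ]; field_simp
  have hμ0 : 0 < μ := by positivity
  have hμK : K ^ 4 * 10 ^ 48 ≤ μ := by
    rw [hμ, le_div_iff₀ hl0]
    have h1 : lam0 m = 1 / (K ^ 4 * 10 ^ 48) := rfl
    rw [h1, le_div_iff₀ (by positivity)] at hl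
    linarith
  have hμ48 : 10 ^ 48 ≤ μ := by
    rw [hμ, le_div_iff₀ hl0]
    rw [le_div_iff₀ (by positivity)] at hl48
    linarith
  have hμ1 : 1 ≤ μ := le_trans (by norm_num) hμ48
  have hlμ : l = 1 / μ := by rw [hμ]; field_simp
  set n : ℕ := ⌈μ ^ 15⌉₊ with hn
  set A : ℕ := ⌈μ ^ 3⌉₊ with hA
  have hn1 : μ ^ 15 ≤ n := Nat.le_ceil _
  have hn2 : (n : ℝ) ≤ 2 * μ ^ 15 := by
    have h1 := (Nat.ceil_lt_add_one (show 0 ≤ μ ^ 15 by positivity)).le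
    have h2 : (1 : ℝ) ≤ μ ^ 15 := one_le_pow₀ hμ1
    rw [← hn] at h1
    linarith
  have hA1 : μ ^ 3 ≤ A := Nat.le_ceil _
  have hA2 : (A : ℝ) ≤ 2 * μ ^ 3 := by
    have h1 := (Nat.ceil_lt_add_one (show 0 ≤ μ ^ 3 by positivity)).le
    have h2 : (1 : ℝ) ≤ μ ^ 3 := one_le_pow₀ hμ1
    rw [← hA] at h1
    linarith
  have hnpos : (0 : ℝ) < n := lt_of_lt_of_le (by positivity) hn1
  have hApos : (0 : ℝ) < A := lt_of_lt_of_le (by positivity) hA1
  have hn' : 1 ≤ n := by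
    have : 0 < n := by exact_mod_cast hnpos
    omega
  have hAμ : 10 ^ 48 ≤ (A : ℝ) := by
    refine le_trans hμ48 (le_trans ?_ hA1)
    calc μ = μ ^ 1 := (pow_one _).symm
      _ ≤ μ ^ 3 := pow_le_pow_right₀ hμ1 (by norm_num)
  have hA' : 2 ≤ A := by
    have h1 : (2 : ℝ) ≤ A := le_trans (by norm_num) hAμ
    exact_mod_cast h1
  -- the small tilt
  have hl16 : l ^ 16 ≤ 1 / (6 * (n : ℝ)) := by
    rw [le_div_iff₀ (by positivity)]
    have h1 : l ^ 16 * (6 * (n : ℝ)) ≤ l ^ 16 * (6 * (2 * μ ^ 15)) := by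
      apply mul_le_mul_of_nonneg_left _ (by positivity)
      linarith
    have h2 : l ^ 16 * (6 * (2 * μ ^ 15)) = 12 * l * (μ * l) ^ 15 := by ring
    rw [h2, hμl, one_pow, mul_one] at h1
    have h3 : l * 10 ^ 48 ≤ 1 := by
      rw [le_div_iff₀ (by positivity)] at hl48
      exact hl48
    linarith
  have hl₂l : 1 / (6 * (n : ℝ)) ≤ l / 2 := by
    rw [div_le_iff₀ (by positivity)]
    have h1 : l / 2 * (6 * μ ^ 15) ≤ l / 2 * (6 * (n : ℝ)) := by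
      apply mul_le_mul_of_nonneg_left _ (by positivity)
      linarith
    have h2 : l / 2 * (6 * μ ^ 15) = 3 * (μ * l) * μ ^ 14 := by ring
    rw [h2, hμl] at h1
    have h3 : (1 : ℝ) ≤ μ ^ 14 := one_le_pow₀ hμ1
    linarith
  have hl₂0 : 0 < 1 / (6 * (n : ℝ)) := by positivity
  have hl₂l' : 1 / (6 * (n : ℝ)) ≤ l := by linarith
  have hl16' : 0 < l ^ 16 := by positivity
  have hl₂1 : 1 / (6 * (n : ℝ)) ≤ 1 := by linarith
  -- monotonicity
  have hy1 : psi (stv m) (cy m) (l ^ 16) ≤ v :=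
    (good_cy m).psi_mono hl16' (by linarith) hl1
  have hf1 : psi (stv m) (cf m) (l ^ 16) ≤ vf :=
    (good_cf m).psi_mono hl16' (by linarith) hl1
  have hv0 : 0 < v := lt_of_lt_of_le hl0 hv
  have hvvf : v ≤ vf := psi_cy_le m hl0
  have hvf0 : 0 < vf := by linarith
  have hy0 : 0 ≤ psi (stv m) (cy m) (l ^ 16) := (good_cy m).psi_nonneg hl16'
  have hf0 : 0 ≤ psi (stv m) (cf m) (l ^ 16) := (good_cf m).psi_nonneg hl16'
  have hy2 : (1 - 1 / 10 ^ 6) * v ≤ psi (stv m) (cy m) (l ^ 16) := by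
    by_contra h
    rw [not_le] at h
    have h1 : psi (stv m) (cy m) (l ^ 16) * psi (stv m) (cf m) (l ^ 16) ≤
        ((1 - 1 / 10 ^ 6) * v) * vf :=
      mul_le_mul h.le hf1 hf0 (by positivity)
    linarith
  have hf2 : (1 - 1 / 10 ^ 6) * vf ≤ psi (stv m) (cf m) (l ^ 16) := by
    by_contra h
    rw [not_le] at h
    have h1 : psi (stv m) (cy m) (l ^ 16) * psi (stv m) (cf m) (l ^ 16) ≤
        v * ((1 - 1 / 10 ^ 6) * vf) :=
      mul_le_mul hy1 h.le hf0 hv0.le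
    linarith
  have hvf3 : vf ≤ 3 * v := by
    have h1 := psi_cf_le m hl0
    have h2 : psi (stv m) (cf m) (l ^ 16) ≤ psi (stv m) (cf m) (l / 2) :=
      (good_cf m).psi_mono hl16' (by linarith) (by linarith)
    rw [← hvdef] at h1
    linarith
  have hL₂y : Lf (stv m) (cy m) 0 + 1 / (6 * (n : ℝ)) * ((1 - 1 / 10 ^ 6) * v) ≤
      Lf (stv m) (cy m) (1 / (6 * (n : ℝ))) := by
    rw [Lf_eq (vec := stv m) (φ := cy m) hl₂0]
    have h1 := (good_cy m).psi_mono hl16' hl16 hl₂1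
    have h2 := mul_le_mul_of_nonneg_left (le_trans hy2 h1) hl₂0.le
    linarith
  have hL₂f : Lf (stv m) (cf m) 0 + 1 / (6 * (n : ℝ)) * ((1 - 1 / 10 ^ 6) * vf) ≤
      Lf (stv m) (cf m) (1 / (6 * (n : ℝ))) := by
    rw [Lf_eq (vec := stv m) (φ := cf m) hl₂0]
    have h1 := (good_cf m).psi_mono hl16' hl16 hl₂1
    have h2 := mul_le_mul_of_nonneg_left (le_trans hf2 h1) hl₂0.le
    linarith
  -- the numerical conditions
  have h3 : 2 ≤ 1 / 10 ^ 6 * l * v * n :=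
    num_h3 hμl hl0 hv (le_trans (by norm_num) hμ48) hn1
  have h4 : AA (St m) n + 2 ≤ 1 / 10 ^ 12 * l * v ^ 2 * n := by
    have hr4 : ((n : ℝ) ^ ((1 : ℝ) / 4)) ^ 4 = n := by
      rw [← Real.rpow_natCast, ← Real.rpow_mul hnpos.le]
      norm_num
    have hr3 : (n : ℝ) ^ ((3 : ℝ) / 4) = ((n : ℝ) ^ ((1 : ℝ) / 4)) ^ 3 := by
      rw [← Real.rpow_natCast, ← Real.rpow_mul hnpos.le]
      norm_num
    have h5 := AA_le (S := St m) hn'
    rw [hr3] at h5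
    have h6 := num_h4 (r := (n : ℝ) ^ ((1 : ℝ) / 4)) (a := AA (St m) n) hμl hl0 hv hK2 hμK hμ1
      (by positivity) (by rw [hr4]; exact hn1) (by rw [hK, add_sub_cancel_right]; exact h5)
    rw [hr4] at h6
    exact h6
  have h5 : 2 * Real.log A / A ≤ l / 8 := num_h5 hμl hl0 (le_trans (by norm_num) hμ48) hA1
  have h5' : 1 / (A : ℝ) ≤ l * v / 80000 :=
    num_h5' hμl hl0 hv (le_trans (by norm_num) hμ48) hA1
  have h6 : 16000 * (A : ℝ) ^ 3 ≤ v * n :=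
    num_h6 hμl hl0 hv (le_trans (by norm_num) hμ48) hApos.le hA2 hn1
  rcases lt_or_ge vf (6 / 5 * v) with hcase | hcase
  · exact case_one hn' hA' hl₂l' hl1 hv0 rfl rfl hvvf hcase hL₂y h3 h4 h5 h5' h6
  · exact case_two hn' hA' hl₂l' hl1 hv0 rfl rfl hvf3 hcase hL₂f h3 h4 h5 h5' h6

end Pool.Agent.SubBall
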