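import Pool.Agent.SubBall.Free2

/-! Cuts and zigzags of the profile of a walk. -/

namespace Pool.Agent.SubBall

open Finset
open Classical

/-- a cut: everything before is at most, everything after is strictly larger -/
def Cut (K : ℕ → ℤ) (N i : ℕ) : Prop :=
  i ≤ N ∧ (∀ a ≤ i, K a ≤ K i) ∧ (∀ a, i < a → a ≤ N → K i < K a)

/-- a zigzag -/
def Zig (K : ℕ → ℤ) (N s t : ℕ) : Prop :=
  s < t ∧ t ≤ N ∧ (∀ a ≤ t, K a ≤ K s) ∧ (∀ a, s < a → a ≤ t → K a < K s) ∧
    (∀ a, s ≤ a → a ≤ N → K t ≤ K a) ∧ (∀ a, t < a → a ≤ N → K t < K a)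

theorem Zig.pos {K : ℕ → ℤ} {N s t : ℕ} (h : Zig K N s t) : K t < K s :=
  h.2.2.2.1 t h.1 le_rfl

/-- last minimiser of an integer function on an interval -/
theorem last_argmin (K : ℕ → ℤ) {a b : ℕ} (hab : a ≤ b) :
    ∃ s, a ≤ s ∧ s ≤ b ∧ (∀ x, a ≤ x → x ≤ b → K s ≤ K x) ∧
      (∀ x, s < x → x ≤ b → K s < K x) := by
  obtain ⟨s, h1, h2, h3, h4⟩ := last_argmax (fun x => - K x) hab
  refine ⟨s, h1, h2, ?_, ?_⟩
  · intro x hx hx'
    have := h3 x hx hx'
    omega
  · intro x hx hx'
    have := h4 x hx hx'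
    omega

/-- every level below the final one which is not the level of a cut is covered by a zigzag -/
theorem zig_cover {K : ℕ → ℤ} {N : ℕ} (h0 : K 0 = 0) (hs : ∀ i, K (i + 1) ≤ K i + 1) {c : ℤ}
    (hc0 : 0 ≤ c) (hcN : c < K N) (hcut : ∀ i, Cut K N i → K i ≠ c) :
    ∃ s t, Zig K N s t ∧ K t ≤ c ∧ c < K s := by
  -- last time at a level `≤ c`
  have hne : ((range (N + 1)).filter (fun i => K i ≤ c)).Nonempty :=
    ⟨0, by rw [Finset.mem_filter, Finset.mem_range]; exact ⟨by omega, by omega⟩⟩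
  set τ := ((range (N + 1)).filter (fun i => K i ≤ c)).max' hne with hτ
  have hτm := Finset.max'_mem _ hne
  rw [← hτ, Finset.mem_filter, Finset.mem_range] at hτm
  obtain ⟨hτN, hτc⟩ := hτm
  have hlast : ∀ a, τ < a → a ≤ N → c < K a := by
    intro a h1 h2
    by_contra h3
    have h4 := Finset.le_max' ((range (N + 1)).filter (fun i => K i ≤ c)) a
      (by rw [Finset.mem_filter, Finset.mem_range]; exact ⟨by omega, by omega⟩)
    rw [← hτ] at h4
    omega
  have hτN' : τ < N := by
    rcases Nat.lt_or_ge τ N with h | h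
    · exact h
    · exfalso
      have : τ = N := by omega
      rw [this] at hτc
      omega
  have hKτ : K τ = c := by
    have h1 := hlast (τ + 1) (by omega) (by omega)
    have h2 := hs τ
    omega
  obtain ⟨s, -, hsτ, hs1, hs2⟩ := last_argmax K (Nat.zero_le τ)
  have hsne : s ≠ τ := by
    intro h
    refine hcut τ ⟨by omega, ?_, ?_⟩ hKτ
    · intro a ha
      have := hs1 a (Nat.zero_le _) ha
      rwa [h] at this
    · intro a h1 h2
      rw [hKτ]
      exact hlast a h1 h2
  have hKs : c < K s := by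
    have := hs2 τ (by omega) le_rfl
    omega
  obtain ⟨t, hst, htN, ht1, ht2⟩ := last_argmin K (show s ≤ N by omega)
  have hKt : K t ≤ c := by
    have := ht1 τ (by omega) (by omega)
    omega
  have hst' : s < t := by
    rcases eq_or_lt_of_le hst with h | h
    · exfalso
      rw [← h] at hKt
      omega
    · exact h
  have htτ : t ≤ τ := by
    by_contra h
    have := hlast t (by omega) htN
    omega
  refine ⟨s, t, ⟨hst', htN, ?_, ?_, ht1, ht2⟩, hKt, hKs⟩
  · intro a ha
    exact hs1 a (Nat.zero_le _) (by omega)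
  · intro a h1 h2
    exact hs2 a h1 (by omega)

theorem zig_lt {K : ℕ → ℤ} {N s t s' t' : ℕ} (h : Zig K N s t) (h' : Zig K N s' t')
    (hlt : s < s') : t < s' := by
  by_contra hcon
  have h1 := h.2.2.2.1 s' hlt (by omega)
  have h2 := h'.2.2.1 s (by have := h'.1; omega)
  omega

theorem zig_eq {K : ℕ → ℤ} {N s t t' : ℕ} (h : Zig K N s t) (h' : Zig K N s t') : t = t' := by
  rcases lt_trichotomy t t' with h1 | h1 | h1
  · exfalso
    have h2 := h.2.2.2.2.2 t' h1 h'.2.1
    have h3 := h'.2.2.2.2.1 t h.1.le h.2.1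
    omega
  · exact h1
  · exfalso
    have h2 := h'.2.2.2.2.2 t h1 h.2.1
    have h3 := h.2.2.2.2.1 t' h'.1.le h'.2.1
    omega

theorem zig_disj {K : ℕ → ℤ} {N : ℕ} {p q : ℕ × ℕ} (h : Zig K N p.1 p.2)
    (h' : Zig K N q.1 q.2) (hne : p ≠ q) : p.2 < q.1 ∨ q.2 < p.1 := by
  rcases lt_trichotomy p.1 q.1 with h1 | h1 | h1
  · exact Or.inl (zig_lt h h' h1)
  · exfalso
    apply hne
    rw [h1] at h
    exact Prod.ext h1 (zig_eq h h')
  · exact Or.inr (zig_lt h' h h1)

theorem cut_lt {K : ℕ → ℤ} {N i j : ℕ} (hi : Cut K N i) (hj : Cut K N j) (h : i < j) :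
    K i < K j := hi.2.2 j h hj.1

theorem cut_inj {K : ℕ → ℤ} {N i j : ℕ} (hi : Cut K N i) (hj : Cut K N j) (h : K i = K j) :
    i = j := by
  rcases lt_trichotomy i j with h1 | h1 | h1
  · have := cut_lt hi hj h1; omega
  · exact h1
  · have := cut_lt hj hi h1; omega

/-- the profile after unfolding a zigzag -/
structure Unf (K K' : ℕ → ℤ) (s t : ℕ) : Prop where
  lo : ∀ i ≤ s, K' i = K i
  mid : ∀ i, s ≤ i → i ≤ t → K' i = 2 * K s - K i
  hi : ∀ i, t ≤ i → K' i = K i + 2 * (K s - K t)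

theorem Unf.le {K K' : ℕ → ℤ} {N s t : ℕ} (hz : Zig K N s t) (h : Unf K K' s t) (i : ℕ) :
    K i ≤ K' i := by
  rcases le_or_gt i s with h1 | h1
  · rw [h.lo i h1]
  · rcases le_or_gt i t with h2 | h2
    · rw [h.mid i h1.le h2]
      have := hz.2.2.1 i h2
      omega
    · rw [h.hi i h2.le]
      have := hz.pos
      omega

theorem Unf.top {K K' : ℕ → ℤ} {N s t : ℕ} (hz : Zig K N s t) (h : Unf K K' s t) :
    K' t = K s + (K s - K t) := by
  rw [h.mid t hz.1.le le_rfl]
  ring

theorem Unf.above {K K' : ℕ → ℤ} {N s t : ℕ} (hz : Zig K N s t) (h : Unf K K' s t) {i : ℕ}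
    (h1 : t < i) (h2 : i ≤ N) : K s + (K s - K t) < K' i := by
  rw [h.hi i h1.le]
  have := hz.2.2.2.2.2 i h1 h2
  omega

theorem Unf.cut_s {K K' : ℕ → ℤ} {N s t : ℕ} (hz : Zig K N s t) (h : Unf K K' s t) :
    Cut K' N s := by
  refine ⟨by have := hz.1; have := hz.2.1; omega, ?_, ?_⟩
  · intro a ha
    rw [h.lo a ha, h.lo s le_rfl]
    exact hz.2.2.1 a (by have := hz.1; omega)
  · intro a h1 h2
    rw [h.lo s le_rfl]
    rcases le_or_gt a t with h3 | h3
    · rw [h.mid a h1.le h3]
      have := hz.2.2.2.1 a h1 h3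
      omega
    · have := h.above hz h3 h2
      have := hz.pos
      omega

theorem Unf.cut_t {K K' : ℕ → ℤ} {N s t : ℕ} (hz : Zig K N s t) (h : Unf K K' s t) :
    Cut K' N t := by
  refine ⟨hz.2.1, ?_, ?_⟩
  · intro a ha
    rw [h.top hz]
    rcases le_or_gt a s with h3 | h3
    · rw [h.lo a h3]
      have := hz.2.2.1 a ha
      have := hz.pos
      omega
    · rw [h.mid a h3.le ha]
      have := hz.2.2.2.2.1 a h3.le (by have := hz.2.1; omega)
      omega
  · intro a h1 h2
    rw [h.top hz]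
    exact h.above hz h1 h2

/-- the other zigzags survive -/
theorem Unf.zig {K K' : ℕ → ℤ} {N s t s' t' : ℕ} (hz : Zig K N s t) (h : Unf K K' s t)
    (hz' : Zig K N s' t') (hd : t < s' ∨ t' < s) :
    Zig K' N s' t' ∧ K' s' - K' t' = K s' - K t' := by
  have hp := hz.pos
  have hz1 := hz.1
  have hz1' := hz'.1
  rcases hd with hd | hd
  · have e1 : ∀ i, s' ≤ i → K' i = K i + 2 * (K s - K t) := fun i hi => h.hi i (by omega)
    refine ⟨⟨hz'.1, hz'.2.1, ?_, ?_, ?_, ?_⟩, ?_⟩
    · intro a ha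
      rw [e1 s' le_rfl]
      have h4 := hz'.2.2.1 s (by omega)
      rcases le_or_gt a s with h1 | h1
      · rw [h.lo a h1]
        have := hz'.2.2.1 a ha
        omega
      · rcases le_or_gt a t with h2 | h2
        · rw [h.mid a h1.le h2]
          have := hz.2.2.2.2.1 a h1.le (by have := hz.2.1; omega)
          omega
        · rw [h.hi a h2.le]
          have := hz'.2.2.1 a ha
          omega
    · intro a h1 h2
      rw [e1 a h1.le, e1 s' le_rfl]
      have := hz'.2.2.2.1 a h1 h2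
      omega
    · intro a h1 h2
      rw [e1 t' hz1'.le, e1 a h1]
      have := hz'.2.2.2.2.1 a h1 h2
      omega
    · intro a h1 h2
      rw [e1 t' hz1'.le, e1 a (by omega)]
      have := hz'.2.2.2.2.2 a h1 h2
      omega
    · rw [e1 s' le_rfl, e1 t' hz1'.le]
      ring
  · have e1 : ∀ i, i ≤ t' → K' i = K i := fun i hi => h.lo i (by omega)
    refine ⟨⟨hz'.1, hz'.2.1, ?_, ?_, ?_, ?_⟩, ?_⟩
    · intro a ha
      rw [e1 a ha, e1 s' hz1'.le]
      exact hz'.2.2.1 a ha
    · intro a h1 h2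
      rw [e1 a h2, e1 s' hz1'.le]
      exact hz'.2.2.2.1 a h1 h2
    · intro a h1 h2
      rw [e1 t' le_rfl]
      exact le_trans (hz'.2.2.2.2.1 a h1 h2) (h.le hz a)
    · intro a h1 h2
      rw [e1 t' le_rfl]
      exact lt_of_lt_of_le (hz'.2.2.2.2.2 a h1 h2) (h.le hz a)
    · rw [e1 s' hz1'.le, e1 t' le_rfl]

section Walks

variable {S V : Type} [Fintype S] [Inhabited S] [AddCommGroup V]

/-- the profile of a walk -/
def Kp (vec : S → V) (k : V →+ ℤ) (w : ℕ → S) : ℕ → ℤ := fun i => k (pos vec w i)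

omit [Fintype S] [Inhabited S] in
theorem Kp_zero (vec : S → V) (k : V →+ ℤ) (w : ℕ → S) : Kp vec k w 0 = 0 := by
  simp [Kp]

omit [Fintype S] [Inhabited S] in
/-- changing a piece between two levels keeps the walk self-avoiding -/
theorem saw_seg {vec : S → V} {k : V →+ ℤ} (σ : Sym vec) {N s t : ℕ} {w : ℕ → S}
    (hst : s ≤ t) (htN : t ≤ N) (hw : Saw vec N w)
    (h1 : ∀ i ≤ s, Kp vec k (refl σ (seg s t) w) i ≤ Kp vec k (refl σ (seg s t) w) s)
    (h2 : ∀ i, s < i → i ≤ t → Kp vec k (refl σ (seg s t) w) s <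
      Kp vec k (refl σ (seg s t) w) i)
    (h2' : ∀ i, s < i → i ≤ t → Kp vec k (refl σ (seg s t) w) i ≤
      Kp vec k (refl σ (seg s t) w) t)
    (h3 : ∀ i, t < i → i ≤ N → Kp vec k (refl σ (seg s t) w) t <
      Kp vec k (refl σ (seg s t) w) i) :
    Saw vec N (refl σ (seg s t) w) := by
  intro i j hij hj heq
  have hK : Kp vec k (refl σ (seg s t) w) i = Kp vec k (refl σ (seg s t) w) j := by
    unfold Kp; rw [heq]
  rcases le_or_gt j s with h | h
  · rw [pos_seg_le σ w (by omega), pos_seg_le σ w h] at heq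
    exact hw i j hij hj heq
  · rcases le_or_gt i s with h4 | h4
    · have h5 := h1 i h4
      rcases le_or_gt j t with h6 | h6
      · have := h2 j h h6
        omega
      · have h7 := h3 j h6 hj
        rcases eq_or_lt_of_le hst with h8 | h8
        · rw [← h8] at h7 hK h5
          omega
        · have := h2 t h8 le_rfl
          omega
    · rcases le_or_gt j t with h6 | h6
      · rw [pos_seg_mid σ w h4.le (by omega), pos_seg_mid σ w h.le h6] at heq
        have h7 := σ.inj (add_left_cancel heq)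
        exact hw i j hij hj (sub_left_injective h7)
      · rcases le_or_gt i t with h7 | h7
        · have h8 := h2' i h4 h7
          have h9 := h3 j h6 hj
          omega
        · rw [pos_seg_ge σ w hst h7.le, pos_seg_ge σ w hst h6.le] at heq
          exact hw i j hij hj (add_right_cancel heq)

omit [Fintype S] [Inhabited S] in
theorem unf_seg {vec : S → V} {k : V →+ ℤ} (ρ : Sym vec) (hk : ∀ v, k (ρ.L v) = - k v)
    {s t : ℕ} (hst : s ≤ t) (w : ℕ → S) :
    Unf (Kp vec k w) (Kp vec k (refl ρ (seg s t) w)) s t := by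
  refine ⟨?_, ?_, ?_⟩
  · intro i hi
    unfold Kp
    rw [pos_seg_le ρ w hi]
  · intro i h1 h2
    unfold Kp
    rw [pos_seg_mid ρ w h1 h2, map_add, hk, map_sub]
    ring
  · intro i h1
    unfold Kp
    rw [pos_seg_ge ρ w hst h1, map_add, map_sub, hk, map_sub]
    ring

theorem unf_mem {vec : S → V} {k : V →+ ℤ} (ρ : Sym vec) (hk : ∀ v, k (ρ.L v) = - k v)
    {N s t : ℕ} {w : ℕ → S} (hw : w ∈ saws vec N) (hz : Zig (Kp vec k w) N s t) :
    refl ρ (seg s t) w ∈ saws vec N := by
  have hu := unf_seg ρ hk hz.1.le w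
  have hw' := mem_saws.1 hw
  have hc1 := hu.cut_s hz
  have hc2 := hu.cut_t hz
  rw [mem_saws]
  refine ⟨?_, saw_seg (k := k) ρ hz.1.le hz.2.1 hw'.2 ?_ ?_ ?_ ?_⟩
  · intro a ha
    rw [refl_default]
    · exact hw'.1 a ha
    · have := hz.2.1
      simp only [seg, decide_eq_false_iff_not, not_and, not_lt]
      omega
  · intro i hi
    exact hc1.2.1 i hi
  · intro i h1 h2
    exact hc1.2.2 i h1 (by have := hz.2.1; omega)
  · intro i h1 h2
    exact hc2.2.1 i h2
  · intro i h1 h2
    exact hc2.2.2 i h1 h2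

omit [Fintype S] [Inhabited S] in
theorem unf_gain {vec : S → V} {k g : V →+ ℤ} {c : ℤ} (ρ : Sym vec)
    (hg : ∀ v, g (ρ.L v) = g v - c * k v) {N s t : ℕ} {w : ℕ → S}
    (hst : s ≤ t) (htN : t ≤ N) :
    g (pos vec (refl ρ (seg s t) w) N) = g (pos vec w N) +
      c * (Kp vec k w s - Kp vec k w t) := by
  unfold Kp
  rw [pos_seg_ge ρ w hst htN, map_add, map_sub, hg]
  simp only [map_sub]
  ring

/-- the union of the intervals in `U` -/
noncomputable def chi (U : Finset (ℕ × ℕ)) : ℕ → Bool :=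
  fun a => decide (∃ p ∈ U, p.1 ≤ a ∧ a < p.2)

omit [Fintype S] [Inhabited S] in
theorem chi_insert {U : Finset (ℕ × ℕ)} {p : ℕ × ℕ}
    (hd : ∀ q ∈ U, p.2 < q.1 ∨ q.2 < p.1) {vec : S → V} (σ : Sym vec) (w : ℕ → S) :
    refl σ (chi (insert p U)) w = refl σ (chi U) (refl σ (seg p.1 p.2) w) := by
  funext a
  unfold refl
  by_cases h1 : p.1 ≤ a ∧ a < p.2
  · have h2 : chi (insert p U) a = true := by
      simp only [chi, decide_eq_true_eq]
      exact ⟨p, Finset.mem_insert_self _ _, h1⟩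
    have h3 : chi U a = false := by
      simp only [chi, decide_eq_false_iff_not]
      rintro ⟨q, hq, h4, h5⟩
      rcases hd q hq with h6 | h6 <;> omega
    have h4 : seg p.1 p.2 a = true := by
      simp only [seg, decide_eq_true_eq]
      exact h1
    simp [h2, h3, h4]
  · have h4 : seg p.1 p.2 a = false := by
      simp only [seg, decide_eq_false_iff_not]
      exact h1
    have h5 : chi (insert p U) a = chi U a := by
      simp only [chi]
      congr 1
      apply propext
      constructor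
      · rintro ⟨q, hq, h6⟩
        rcases Finset.mem_insert.1 hq with h7 | h7
        · exact absurd (h7 ▸ h6) h1
        · exact ⟨q, h7, h6⟩
      · rintro ⟨q, hq, h6⟩
        exact ⟨q, Finset.mem_insert_of_mem hq, h6⟩
    rw [h5]
    simp [h4]

theorem bd_chi_le (N : ℕ) (U : Finset (ℕ × ℕ)) : (bd N (chi U)).card ≤ 2 * U.card := by
  have hsub : bd N (chi U) ⊆ U.image Prod.fst ∪ U.image Prod.snd := by
    intro a ha
    rw [mem_bd] at ha
    obtain ⟨-, hne⟩ := ha
    rw [Finset.mem_union, Finset.mem_image, Finset.mem_image]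
    by_cases h1 : chi U a = true
    · have h2 : prev (chi U) a = false := by
        rw [h1] at hne
        cases h : prev (chi U) a
        · rfl
        · exact absurd h.symm hne
      simp only [chi, decide_eq_true_eq] at h1
      obtain ⟨p, hp, h3, h4⟩ := h1
      left
      refine ⟨p, hp, ?_⟩
      by_contra h5
      have h6 : a ≠ 0 := by omega
      simp only [prev, h6, if_false, chi, decide_eq_false_iff_not] at h2
      exact h2 ⟨p, hp, by omega, by omega⟩
    · rw [Bool.not_eq_true] at h1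
      have h2 : prev (chi U) a = true := by
        rw [h1] at hne
        cases h : prev (chi U) a
        · exact absurd h.symm hne
        · rfl
      have h6 : a ≠ 0 := by
        intro h
        simp [prev, h] at h2
      simp only [prev, h6, if_false, chi, decide_eq_true_eq] at h2
      obtain ⟨p, hp, h3, h4⟩ := h2
      simp only [chi, decide_eq_false_iff_not] at h1
      right
      refine ⟨p, hp, ?_⟩
      by_contra h5
      exact h1 ⟨p, hp, by omega, by omega⟩
  calc (bd N (chi U)).card ≤ (U.image Prod.fst ∪ U.image Prod.snd).card :=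
        Finset.card_le_card hsub
    _ ≤ (U.image Prod.fst).card + (U.image Prod.snd).card := Finset.card_union_le _ _
    _ ≤ U.card + U.card := Nat.add_le_add Finset.card_image_le Finset.card_image_le
    _ = 2 * U.card := by ring

theorem multi_unf {vec : S → V} {k g : V →+ ℤ} {c : ℤ} (ρ : Sym vec)
    (hk : ∀ v, k (ρ.L v) = - k v) (hg : ∀ v, g (ρ.L v) = g v - c * k v) {N : ℕ}
    (U : Finset (ℕ × ℕ)) : ∀ w ∈ saws vec N, (∀ p ∈ U, Zig (Kp vec k w) N p.1 p.2) →
      refl ρ (chi U) w ∈ saws vec N ∧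
      g (pos vec (refl ρ (chi U) w) N) = g (pos vec w N) +
        c * ∑ p ∈ U, (Kp vec k w p.1 - Kp vec k w p.2) := by
  induction U using Finset.induction_on with
  | empty =>
    intro w hw _
    have : refl ρ (chi ∅) w = w := by
      funext a
      apply refl_default
      simp [chi]
    rw [this]
    simp [hw]
  | insert p U hp ih =>
    intro w hw hz
    have hzp := hz p (Finset.mem_insert_self _ _)
    have hd : ∀ q ∈ U, p.2 < q.1 ∨ q.2 < p.1 := by
      intro q hq
      have hpq : p ≠ q := by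
        rintro rfl
        exact hp hq
      exact zig_disj hzp (hz q (Finset.mem_insert_of_mem hq)) hpq
    have hu := unf_seg ρ hk hzp.1.le w
    have hsurv : ∀ q ∈ U, Zig (Kp vec k (refl ρ (seg p.1 p.2) w)) N q.1 q.2 ∧
        Kp vec k (refl ρ (seg p.1 p.2) w) q.1 - Kp vec k (refl ρ (seg p.1 p.2) w) q.2 =
          Kp vec k w q.1 - Kp vec k w q.2 := by
      intro q hq
      exact hu.zig hzp (hz q (Finset.mem_insert_of_mem hq)) (hd q hq)
    obtain ⟨h1, h2⟩ := ih (refl ρ (seg p.1 p.2) w) (unf_mem ρ hk hw hzp)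
      (fun q hq => (hsurv q hq).1)
    rw [chi_insert hd]
    refine ⟨h1, ?_⟩
    rw [h2, unf_gain ρ hg hzp.1.le hzp.2.1, Finset.sum_insert hp,
      Finset.sum_congr rfl (fun q hq => (hsurv q hq).2)]
    ring

/-- the zigzags of height at least `A` -/
noncomputable def bigz (vec : S → V) (k : V →+ ℤ) (N A : ℕ) (w : ℕ → S) : Finset (ℕ × ℕ) :=
  ((range (N + 1)) ×ˢ (range (N + 1))).filter
    (fun p => Zig (Kp vec k w) N p.1 p.2 ∧ (A : ℤ) ≤ Kp vec k w p.1 - Kp vec k w p.2)

omit [Fintype S] [Inhabited S] in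
theorem mem_bigz {vec : S → V} {k : V →+ ℤ} {N A : ℕ} {w : ℕ → S} {p : ℕ × ℕ} :
    p ∈ bigz vec k N A w ↔ Zig (Kp vec k w) N p.1 p.2 ∧
      (A : ℤ) ≤ Kp vec k w p.1 - Kp vec k w p.2 := by
  unfold bigz
  rw [Finset.mem_filter, Finset.mem_product, Finset.mem_range, Finset.mem_range]
  constructor
  · intro h; exact h.2
  · intro h
    have h1 := h.1.1
    have h2 := h.1.2.1
    exact ⟨⟨by omega, by omega⟩, h⟩

/-- total height of the big zigzags -/
noncomputable def DD (vec : S → V) (k : V →+ ℤ) (N A : ℕ) (w : ℕ → S) : ℤ :=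
  ∑ p ∈ bigz vec k N A w, (Kp vec k w p.1 - Kp vec k w p.2)

omit [Fintype S] [Inhabited S] in
theorem card_bigz_le (vec : S → V) (k : V →+ ℤ) (N A : ℕ) (w : ℕ → S) :
    (A : ℤ) * (bigz vec k N A w).card ≤ DD vec k N A w := by
  unfold DD
  rw [mul_comm, ← nsmul_eq_mul, ← Finset.sum_const]
  exact Finset.sum_le_sum (fun p hp => (mem_bigz.1 hp).2)

omit [Fintype S] [Inhabited S] in
theorem DD_nonneg (vec : S → V) (k : V →+ ℤ) (N A : ℕ) (w : ℕ → S) :
    0 ≤ DD vec k N A w := by
  refine le_trans ?_ (card_bigz_le vec k N A w)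
  positivity

end Walks

end Pool.Agent.SubBall
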